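import Mathlib

/-!
# Borel edge colourings of Schreier graphs: definitions and basic facts
-/

namespace Pool.Agent.Lib.MP_1822da_lc

open Set MeasureTheory Pointwise

universe u v

/-- The Schreier graph `G(a,S)` of an action of `Γ` on `X`: two distinct points `x`, `y` are
adjacent iff `γ • x = y` for some `γ ∈ S` (`SimpleGraph.fromRel` also symmetrises, which changes
nothing for symmetric `S`). -/
def schreierGraph {Γ : Type u} [Group Γ] (S : Finset Γ) (X : Type v) [MulAction Γ X] :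
    SimpleGraph X :=
  SimpleGraph.fromRel fun x y => ∃ γ ∈ S, γ • x = y

/-- `c` is a Borel edge colouring of the graph `G` with colours in `Fin k`: a Borel map on the
set of ordered edges (a subset of `X × X`) which gives both orientations of an edge the same
colour and gives different colours to two different edges sharing a vertex. -/
structure IsBorelEdgeColouring {X : Type v} [MeasurableSpace X] (G : SimpleGraph X) {k : ℕ}
    (c : {p : X × X // G.Adj p.1 p.2} → Fin k) : Prop where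
  measurable : Measurable c
  symm : ∀ (x y : X) (h : G.Adj x y), c ⟨(x, y), h⟩ = c ⟨(y, x), h.symm⟩
  proper : ∀ (x y z : X) (h : G.Adj x y) (h' : G.Adj x z), y ≠ z →
    c ⟨(x, y), h⟩ ≠ c ⟨(x, z), h'⟩

/-- The Borel edge chromatic number `χ'_B(G)`: the least `k` for which `G` has a Borel edge
colouring with `k` colours (`⊤` if there is none). -/
noncomputable def borelChromaticIndex {X : Type v} [MeasurableSpace X] (G : SimpleGraph X) : ℕ∞ :=
  ⨅ k ∈ {k : ℕ | ∃ c : {p : X × X // G.Adj p.1 p.2} → Fin k, IsBorelEdgeColouring G c}, (k : ℕ∞)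

/-- The graph `G^{≤N}`: two distinct vertices are adjacent iff some walk of length at most `N`
of `G` joins them. -/
def distPow {X : Type v} (G : SimpleGraph X) (N : ℕ) : SimpleGraph X :=
  SimpleGraph.fromRel fun x y => ∃ p : G.Walk x y, p.length ≤ N

/-- The Borel asymptotic separation index of `G` is at most `s`: for every `N ≥ 1` there is a
partition of `X` into Borel sets `U 0, …, U s` such that every connected component of each induced
graph `G^{≤N} ↾ U i` is finite. -/
def BorelAsiLe {X : Type v} [MeasurableSpace X] (G : SimpleGraph X) (s : ℕ) : Prop :=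
  ∀ N : ℕ, 1 ≤ N → ∃ U : Fin (s + 1) → Set X, (∀ i, MeasurableSet (U i)) ∧
    (∀ i j, i ≠ j → Disjoint (U i) (U j)) ∧ (⋃ i, U i) = univ ∧
    ∀ i, ∀ C : ((distPow G N).induce (U i)).ConnectedComponent, C.supp.Finite

section Basics

variable {Γ : Type u} [Group Γ] {S : Finset Γ} {X : Type v} [MulAction Γ X]

theorem adj_iff (hsymm : ∀ g ∈ S, g⁻¹ ∈ S) {x y : X} :
    (schreierGraph S X).Adj x y ↔ x ≠ y ∧ ∃ γ ∈ S, γ • x = y := by
  unfold schreierGraph
  rw [SimpleGraph.fromRel_adj]
  constructor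
  · rintro ⟨h, h' | ⟨γ, hγ, h'⟩⟩
    · exact ⟨h, h'⟩
    · refine ⟨h, γ⁻¹, hsymm γ hγ, ?_⟩
      rw [← h', inv_smul_smul]
  · rintro ⟨h, h'⟩
    exact ⟨h, Or.inl h'⟩

theorem adj_smul (hsymm : ∀ g ∈ S, g⁻¹ ∈ S) (h1 : (1 : Γ) ∉ S)
    (hfree : ∀ (γ : Γ) (x : X), γ • x = x → γ = 1) {γ : Γ} (hγ : γ ∈ S) (x : X) :
    (schreierGraph S X).Adj x (γ • x) := by
  rw [adj_iff hsymm]
  refine ⟨fun h => ?_, γ, hγ, rfl⟩
  have := hfree γ x h.symm
  exact h1 (this ▸ hγ)

theorem smul_left_cancel_free (hfree : ∀ (γ : Γ) (x : X), γ • x = x → γ = 1) {γ δ : Γ} {x : X}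
    (h : γ • x = δ • x) : γ = δ := by
  have : (δ⁻¹ * γ) • x = x := by rw [mul_smul, h, inv_smul_smul]
  have := hfree _ _ this
  exact (inv_mul_eq_one.mp this).symm

end Basics

section Colour

variable {Γ : Type u} [Group Γ] {S : Finset Γ} {X : Type v} [MeasurableSpace X]
  [StandardBorelSpace X] [MulAction Γ X]

omit [StandardBorelSpace X] in
/-- Lower bound. -/
theorem card_le_borelChromaticIndex [Nonempty X] (hsymm : ∀ g ∈ S, g⁻¹ ∈ S) (h1 : (1 : Γ) ∉ S)
    (hfree : ∀ (γ : Γ) (x : X), γ • x = x → γ = 1) :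
    (S.card : ℕ∞) ≤ borelChromaticIndex (schreierGraph S X) := by
  unfold borelChromaticIndex
  refine le_iInf fun k => le_iInf fun hk => ?_
  obtain ⟨c, hc⟩ := hk
  obtain ⟨x⟩ := ‹Nonempty X›
  have hinj : Function.Injective fun γ : S =>
      c ⟨(x, (γ : Γ) • x), adj_smul hsymm h1 hfree γ.2 x⟩ := by
    intro γ δ h
    by_contra hne
    refine hc.proper x _ _ (adj_smul hsymm h1 hfree γ.2 x) (adj_smul hsymm h1 hfree δ.2 x) ?_ h
    intro h'
    exact hne (Subtype.ext (smul_left_cancel_free hfree h'))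
  have := Fintype.card_le_of_injective _ hinj
  simp only [Fintype.card_coe, Fintype.card_fin] at this
  exact_mod_cast this

/-- A consistent family of colours of the directed edges gives a Borel edge colouring. -/
theorem borelChromaticIndex_le (hsymm : ∀ g ∈ S, g⁻¹ ∈ S)
    (hmeas : ∀ γ : Γ, Measurable fun x : X => γ • x)
    (hfree : ∀ (γ : Γ) (x : X), γ • x = x → γ = 1)
    (col : Γ → X → Γ) (hmc : ∀ γ ∈ S, ∀ δ, MeasurableSet {x | col γ x = δ})
    (hcS : ∀ γ ∈ S, ∀ x, col γ x ∈ S)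
    (hcomp : ∀ γ ∈ S, ∀ x, col γ⁻¹ (γ • x) = col γ x)
    (hinj : ∀ x, ∀ γ ∈ S, ∀ δ ∈ S, col γ x = col δ x → γ = δ) :
    borelChromaticIndex (schreierGraph S X) ≤ (S.card : ℕ∞) := by
  classical
  unfold borelChromaticIndex
  refine iInf₂_le_of_le S.card ?_ le_rfl
  have hex : ∀ p : {p : X × X // (schreierGraph S X).Adj p.1 p.2},
      ∃ γ ∈ S, γ • p.1.1 = p.1.2 := fun p => ((adj_iff hsymm).1 p.2).2
  choose dir hdirS hdir using hex
  let c : {p : X × X // (schreierGraph S X).Adj p.1 p.2} → Fin S.card :=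
    fun p => S.equivFin ⟨col (dir p) p.1.1, hcS _ (hdirS p) _⟩
  have hdir_eq : ∀ (p : {p : X × X // (schreierGraph S X).Adj p.1 p.2}) (γ : Γ),
      γ • p.1.1 = p.1.2 → dir p = γ := by
    intro p γ h
    refine smul_left_cancel_free hfree (x := p.1.1) ?_
    rw [hdir, h]
  refine ⟨c, ⟨?_, ?_, ?_⟩⟩
  · -- measurability
    refine measurable_to_countable' fun i => ?_
    have hset : c ⁻¹' {i} = ⋃ γ ∈ S, {p | γ • p.1.1 = p.1.2 ∧
        col γ p.1.1 = ((S.equivFin.symm i : S) : Γ)} := by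
      ext p
      simp only [mem_preimage, mem_singleton_iff, mem_iUnion, mem_ofPred_eq, c, exists_prop]
      constructor
      · intro h
        refine ⟨dir p, hdirS p, hdir p, ?_⟩
        rw [← h, Equiv.symm_apply_apply]
      · rintro ⟨γ, hγ, h, h'⟩
        have := hdir_eq p γ h
        rw [← Equiv.eq_symm_apply]
        apply Subtype.ext
        rw [← h', ← this]
    rw [hset]
    refine Finset.measurableSet_biUnion _ fun γ hγ => ?_
    have m1 : Measurable fun p : {p : X × X // (schreierGraph S X).Adj p.1 p.2} => p.1.1 :=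
      measurable_fst.comp measurable_subtype_coe
    have m2 : Measurable fun p : {p : X × X // (schreierGraph S X).Adj p.1 p.2} => p.1.2 :=
      measurable_snd.comp measurable_subtype_coe
    refine MeasurableSet.inter ?_ ?_
    · exact measurableSet_eq_fun ((hmeas γ).comp m1) m2
    · exact m1 (hmc γ hγ _)
  · intro x y h
    obtain ⟨-, γ, hγ, hxy⟩ := (adj_iff hsymm).1 h
    have e1 : dir ⟨(x, y), h⟩ = γ := hdir_eq ⟨(x, y), h⟩ γ hxy
    have e2 : dir ⟨(y, x), h.symm⟩ = γ⁻¹ := hdir_eq ⟨(y, x), h.symm⟩ γ⁻¹ (by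
      show γ⁻¹ • y = x
      rw [← hxy, inv_smul_smul])
    simp only [c, EmbeddingLike.apply_eq_iff_eq, Subtype.mk.injEq]
    rw [e1, e2, ← hcomp γ hγ x, hxy]
  · intro x y z h h' hne heq
    simp only [c, EmbeddingLike.apply_eq_iff_eq, Subtype.mk.injEq] at heq
    have := hinj x _ (hdirS _) _ (hdirS _) heq
    apply hne
    have a1 := hdir ⟨(x, y), h⟩
    have a2 := hdir ⟨(x, z), h'⟩
    simp only at a1 a2
    rw [← a1, ← a2, this]

end Colour

section Asi

variable {Γ : Type u} [Group Γ] {S : Finset Γ} {X : Type v} [MulAction Γ X]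

theorem exists_walk (hsymm : ∀ g ∈ S, g⁻¹ ∈ S)
    (hgen : Subgroup.closure (S : Set Γ) = ⊤) (γ : Γ) :
    ∃ N : ℕ, ∀ x y : X, γ • x = y → ∃ p : (schreierGraph S X).Walk x y, p.length ≤ N := by
  have hγ : γ ∈ Subgroup.closure (S : Set Γ) := by rw [hgen]; trivial
  induction hγ using Subgroup.closure_induction with
  | mem γ hγ =>
    refine ⟨1, fun x y hxy => ?_⟩
    by_cases h : x = y
    · subst h
      exact ⟨SimpleGraph.Walk.nil, by simp⟩
    · have hadj : (schreierGraph S X).Adj x y := (adj_iff hsymm).2 ⟨h, γ, hγ, hxy⟩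
      exact ⟨SimpleGraph.Walk.cons hadj SimpleGraph.Walk.nil, by simp⟩
  | one =>
    refine ⟨0, fun x y hxy => ?_⟩
    rw [one_smul] at hxy
    subst hxy
    exact ⟨SimpleGraph.Walk.nil, by simp⟩
  | mul γ δ _ _ ih1 ih2 =>
    obtain ⟨N1, h1⟩ := ih1
    obtain ⟨N2, h2⟩ := ih2
    refine ⟨N2 + N1, fun x y hxy => ?_⟩
    obtain ⟨p, hp⟩ := h2 x (δ • x) rfl
    obtain ⟨q, hq⟩ := h1 (δ • x) y (by rw [← mul_smul, hxy])
    exact ⟨p.append q, by rw [SimpleGraph.Walk.length_append]; omega⟩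
  | inv γ _ ih =>
    obtain ⟨N, h⟩ := ih
    refine ⟨N, fun x y hxy => ?_⟩
    obtain ⟨p, hp⟩ := h y x (by rw [← hxy, smul_inv_smul])
    exact ⟨p.reverse, by rwa [SimpleGraph.Walk.length_reverse]⟩

/-- The consequence of the separation index used below. -/
theorem asi_seq [MeasurableSpace X] (hsymm : ∀ g ∈ S, g⁻¹ ∈ S)
    (hgen : Subgroup.closure (S : Set Γ) = ⊤) (hasi : BorelAsiLe (schreierGraph S X) 1)
    {F : Set Γ} (hF : F.Finite) :
    ∃ U : Set X, MeasurableSet U ∧ ∀ u : ℕ → X, (∀ n, ∃ f ∈ F, f • u n = u (n + 1)) →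
      ((∀ n, u n ∈ U) ∨ (∀ n, u n ∉ U)) → (range u).Finite := by
  choose N hN using fun γ : Γ => exists_walk (X := X) hsymm hgen γ
  obtain ⟨U, hUm, hUd, hUc, hUf⟩ := hasi (hF.toFinset.sup N + 1) (by omega)
  have key : ∀ (i : Fin 2) (u : ℕ → X), (∀ n, ∃ f ∈ F, f • u n = u (n + 1)) →
      (∀ n, u n ∈ U i) → (range u).Finite := by
    intro i u hu hin
    have hreach : ∀ n, ((distPow (schreierGraph S X) (hF.toFinset.sup N + 1)).induce
        (U i)).Reachable ⟨u 0, hin 0⟩ ⟨u n, hin n⟩ := by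
      intro n
      induction n with
      | zero => exact SimpleGraph.Reachable.refl _
      | succ n ih =>
        refine ih.trans ?_
        by_cases h : u n = u (n + 1)
        · have : (⟨u n, hin n⟩ : U i) = ⟨u (n + 1), hin (n + 1)⟩ := Subtype.ext h
          rw [this]
        · refine SimpleGraph.Adj.reachable ?_
          rw [SimpleGraph.induce_adj]
          unfold distPow
          rw [SimpleGraph.fromRel_adj]
          refine ⟨h, Or.inl ?_⟩
          obtain ⟨f, hf, hfu⟩ := hu n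
          obtain ⟨p, hp⟩ := hN f (u n) (u (n + 1)) hfu
          have : N f ≤ hF.toFinset.sup N := Finset.le_sup (f := N) (hF.mem_toFinset.2 hf)
          exact ⟨p, by omega⟩
    have hfin := hUf i (SimpleGraph.connectedComponentMk _ ⟨u 0, hin 0⟩)
    refine (hfin.image Subtype.val).subset ?_
    rintro _ ⟨n, rfl⟩
    refine ⟨⟨u n, hin n⟩, ?_, rfl⟩
    rw [SimpleGraph.ConnectedComponent.mem_supp_iff, SimpleGraph.ConnectedComponent.eq]
    exact (hreach n).symm
  refine ⟨U 0, hUm 0, fun u hu hin => ?_⟩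
  rcases hin with h | h
  · exact key 0 u hu h
  · refine key 1 u hu fun n => ?_
    have : u n ∈ ⋃ i, U i := by rw [hUc]; trivial
    obtain ⟨i, hi⟩ := mem_iUnion.1 this
    fin_cases i
    · exact absurd hi (h n)
    · exact hi

end Asi

end Pool.Agent.Lib.MP_1822da_lc
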