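import Pool.Agent.Lib.MP_1822da_lc.TreeC
import Pool.Agent.Lib.MP_1822da_lc.Base

/-!
# Group level: blocks of generators and their Borel edge colourings
-/

namespace Pool.Agent.MP1822T

open Set MeasureTheory
open Pool.Agent.Lib.MP_1822da_lc

universe u v

/-- `T` is a *free block*: `T` is a finite symmetric set of group elements such that no nonempty
word in `T` is trivial in which a letter `a` is never followed by `a⁻¹`, and followed by `a` only
if `a` has infinite order; and `T` contains an element `g` of infinite order and an element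
different from `g` and `g⁻¹`. -/
def FreeBlock {Γ : Type u} [Group Γ] (T : Finset Γ) : Prop :=
  (∀ g ∈ T, g⁻¹ ∈ T) ∧
  (∀ l : List Γ, l ≠ [] → (∀ a ∈ l, a ∈ T) →
    l.IsChain (fun a b => b ≠ a⁻¹ ∧ (b = a → ¬ IsOfFinOrder a)) → l.prod ≠ 1) ∧
  ∃ g ∈ T, ¬ IsOfFinOrder g ∧ ∃ h ∈ T, h ≠ g ∧ h ≠ g⁻¹

section BC

variable {Γ : Type u} [Group Γ] {X : Type v} [MulAction Γ X] [MeasurableSpace X]

/-- consistent Borel colourings of the directed edges of type `T` with colours in `T` -/
def BC (X : Type v) [MulAction Γ X] [MeasurableSpace X] (T : Finset Γ) : Prop :=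
  ∃ col : Γ → X → Γ, (∀ γ ∈ T, FM (col γ)) ∧ (∀ γ ∈ T, ∀ x, col γ x ∈ T) ∧
    (∀ γ ∈ T, ∀ x, col γ⁻¹ (γ • x) = col γ x) ∧
    (∀ x, ∀ γ ∈ T, ∀ δ ∈ T, col γ x = col δ x → γ = δ)

lemma BC_empty : BC X (∅ : Finset Γ) :=
  ⟨fun γ _ => γ, by simp, by simp, by simp, by simp⟩

lemma BC_union [DecidableEq Γ] {T₁ T₂ : Finset Γ} (h₁ : BC X T₁) (h₂ : BC X T₂)
    (hd : Disjoint T₁ T₂) (hs₁ : ∀ g ∈ T₁, g⁻¹ ∈ T₁) :
    BC X (T₁ ∪ T₂) := by
  obtain ⟨c₁, m₁, v₁, e₁, i₁⟩ := h₁
  obtain ⟨c₂, m₂, v₂, e₂, i₂⟩ := h₂
  have hno : ∀ γ ∈ T₂, γ ∉ T₁ := fun γ h h' => Finset.disjoint_left.1 hd h' h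
  refine ⟨fun γ x => if γ ∈ T₁ then c₁ γ x else c₂ γ x, ?_, ?_, ?_, ?_⟩
  · intro γ hγ
    by_cases h : γ ∈ T₁
    · simp only [h, if_true]; exact m₁ γ h
    · simp only [h, if_false]
      exact m₂ γ ((Finset.mem_union.1 hγ).resolve_left h)
  · intro γ hγ x
    by_cases h : γ ∈ T₁
    · simp only [h, if_true]; exact Finset.mem_union_left _ (v₁ γ h x)
    · simp only [h, if_false]
      exact Finset.mem_union_right _ (v₂ γ ((Finset.mem_union.1 hγ).resolve_left h) x)
  · intro γ hγ x
    by_cases h : γ ∈ T₁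
    · simp only [h, hs₁ γ h, if_true]; exact e₁ γ h x
    · have h2 := (Finset.mem_union.1 hγ).resolve_left h
      have h3 : γ⁻¹ ∉ T₁ := fun h' => h (by simpa using hs₁ _ h')
      simp only [h, h3, if_false]
      exact e₂ γ h2 x
  · intro x γ hγ δ hδ he
    by_cases h : γ ∈ T₁
    · by_cases h' : δ ∈ T₁
      · simp only [h, h', if_true] at he
        exact i₁ x γ h δ h' he
      · have h2 := (Finset.mem_union.1 hδ).resolve_left h'
        simp only [h, h', if_true, if_false] at he
        have := v₁ γ h x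
        rw [he] at this
        exact absurd this (hno _ (v₂ δ h2 x))
    · have h1 := (Finset.mem_union.1 hγ).resolve_left h
      by_cases h' : δ ∈ T₁
      · simp only [h, h', if_true, if_false] at he
        have := v₁ δ h' x
        rw [← he] at this
        exact absurd this (hno _ (v₂ γ h1 x))
      · have h2 := (Finset.mem_union.1 hδ).resolve_left h'
        simp only [h, h', if_false] at he
        exact i₂ x γ h1 δ h2 he

lemma BC_biUnion [DecidableEq Γ] (P : Finset (Finset Γ))
    (hd : (P : Set (Finset Γ)).PairwiseDisjoint id) (hs : ∀ T ∈ P, ∀ g ∈ T, g⁻¹ ∈ T)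
    (hb : ∀ T ∈ P, BC X T) : BC X (P.biUnion id) := by
  induction P using Finset.induction_on with
  | empty => simpa using BC_empty
  | insert T P hT ih =>
    rw [Finset.biUnion_insert]
    refine BC_union (hb T (Finset.mem_insert_self _ _)) (ih ?_ ?_ ?_) ?_ ?_
    · exact hd.subset (by simp)
    · exact fun T' h => hs T' (Finset.mem_insert_of_mem h)
    · exact fun T' h => hb T' (Finset.mem_insert_of_mem h)
    · rw [Finset.disjoint_biUnion_right]
      intro T' hT'
      refine hd (by simp) (by simp [hT']) ?_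
      rintro rfl
      exact hT hT'
    · exact hs T (Finset.mem_insert_self _ _)

end BC

section rep

lemma exists_rep (Γ : Type u) [Group Γ] :
    ∃ r : Γ → Γ, (∀ γ, r γ = γ ∨ r γ = γ⁻¹) ∧ ∀ γ, r γ⁻¹ = r γ := by
  classical
  let _ : LinearOrder Γ := linearOrderOfSTO WellOrderingRel
  refine ⟨fun γ => min γ γ⁻¹, fun γ => min_choice _ _, fun γ => ?_⟩
  simp only [inv_inv]
  exact min_comm _ _

end rep

section even

variable {Γ : Type u} [Group Γ] {X : Type v} [MeasurableSpace X] [StandardBorelSpace X]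
  [MulAction Γ X]

/-- A Borel alternating set on the cycles of an element of even order. -/
theorem even_cycle (hmeas : ∀ γ : Γ, Measurable fun x : X => γ • x)
    (hfree : ∀ (γ : Γ) (x : X), γ • x = x → γ = 1) {s : Γ} (hs : IsOfFinOrder s)
    (hev : Even (orderOf s)) :
    ∃ E : Set X, MeasurableSet E ∧ ∀ x, s • x ∈ E ↔ x ∉ E := by
  have hι := measurableEmbedding_embeddingReal X
  -- `s ^ j • x` is the least point of the cycle of `x`
  let L : ℕ → Set X := fun j => {x | ∀ i : ℕ, embeddingReal X (s ^ j • x) ≤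
    embeddingReal X (s ^ i • x)}
  have hL : ∀ j, MeasurableSet (L j) := by
    intro j
    have : L j = ⋂ i : ℕ, {x | embeddingReal X (s ^ j • x) ≤ embeddingReal X (s ^ i • x)} := by
      ext x; simp [L]
    rw [this]
    exact MeasurableSet.iInter (fun i => measurableSet_le (hι.measurable.comp (hmeas _))
      (hι.measurable.comp (hmeas _)))
  have hpos : 0 < orderOf s := hs.orderOf_pos
  have hex : ∀ x : X, ∃ j, x ∈ L j := by
    intro x
    obtain ⟨j, hj, hmin⟩ := Finset.exists_min_image (Finset.range (orderOf s))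
      (fun i => embeddingReal X (s ^ i • x)) ⟨0, by simpa using hpos⟩
    refine ⟨j, fun i => ?_⟩
    have h1 := hmin (i % orderOf s) (by simpa using Nat.mod_lt _ hpos)
    rwa [pow_mod_orderOf] at h1
  have huniq : ∀ (x : X) (j j' : ℕ), x ∈ L j → x ∈ L j' → (Even j ↔ Even j') := by
    intro x j j' h h'
    have h1 := hι.injective (le_antisymm (h j') (h' j))
    have h2 : s ^ j = s ^ j' := smul_left_cancel_free hfree h1
    have h3 := pow_eq_pow_iff_modEq.1 h2
    obtain ⟨r, hr⟩ := hev
    have h4 : j ≡ j' [MOD 2] := h3.of_dvd ⟨r, by omega⟩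
    unfold Nat.ModEq at h4
    rw [Nat.even_iff, Nat.even_iff, h4]
  have hshift : ∀ (x : X) (j : ℕ), s • x ∈ L j ↔ x ∈ L (j + 1) := by
    intro x j
    have hp : ∀ i : ℕ, s ^ i • s • x = s ^ (i + 1) • x := by
      intro i
      rw [← mul_smul, ← pow_succ]
    simp only [L, Set.mem_ofPred_eq, hp]
    constructor
    · intro h i
      have h1 := h (i + (orderOf s - 1))
      have e : i + (orderOf s - 1) + 1 = i + orderOf s := by omega
      rw [e, pow_add s i, pow_orderOf_eq_one, mul_one] at h1
      exact h1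
    · intro h i
      exact h (i + 1)
  refine ⟨⋃ j ∈ {j : ℕ | Even j}, L j, MeasurableSet.biUnion (to_countable _)
    (fun j _ => hL j), ?_⟩
  intro x
  simp only [mem_iUnion, Set.mem_ofPred_eq, exists_prop, hshift]
  constructor
  · rintro ⟨j, hj, h⟩ ⟨j', hj', h'⟩
    have := (huniq x (j + 1) j' h h').2 hj'
    rw [Nat.even_add_one] at this
    exact this hj
  · intro hno
    obtain ⟨j, hj⟩ := hex x
    have hodd : ¬ Even j := fun he => hno ⟨j, he, hj⟩
    rcases j with _ | j
    · exact absurd (by simp) hodd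
    · rw [Nat.even_add_one, not_not] at hodd
      exact ⟨j, hodd, hj⟩

/-- the pair of an element of even order -/
lemma BC_even [DecidableEq Γ] (hmeas : ∀ γ : Γ, Measurable fun x : X => γ • x)
    (hfree : ∀ (γ : Γ) (x : X), γ • x = x → γ = 1) {s : Γ} (hs : IsOfFinOrder s)
    (hev : Even (orderOf s)) : BC X ({s, s⁻¹} : Finset Γ) := by
  classical
  obtain ⟨E, hE, hE'⟩ := even_cycle hmeas hfree hs hev
  have hE'' : ∀ x, s⁻¹ • x ∈ E ↔ x ∉ E := by
    intro x
    have := hE' (s⁻¹ • x)
    rw [smul_inv_smul] at this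
    tauto
  refine ⟨fun γ x => if x ∈ E then γ else γ⁻¹, ?_, ?_, ?_, ?_⟩
  · intro γ _
    exact FM.ite (P := fun x => x ∈ E) hE (FM.const _) (FM.const _)
  · intro γ hγ x
    simp only [Finset.mem_insert, Finset.mem_singleton] at hγ ⊢
    rcases hγ with rfl | rfl
    · by_cases h : x ∈ E
      · simp [h]
      · simp [h]
    · by_cases h : x ∈ E
      · simp [h]
      · simp [h]
  · intro γ hγ x
    have h1 : γ • x ∈ E ↔ x ∉ E := by
      simp only [Finset.mem_insert, Finset.mem_singleton] at hγ
      rcases hγ with rfl | rfl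
      · exact hE' x
      · exact hE'' x
    by_cases h : x ∈ E
    · simp [h1, h]
    · simp [h1, h]
  · intro x γ _ δ _ h
    by_cases hx : x ∈ E
    · simpa [hx] using h
    · simpa [hx] using h

end even

section asi

variable {Γ : Type u} [Group Γ] {S : Finset Γ} {X : Type v} [MulAction Γ X] [MeasurableSpace X]

/-- The form in which the separation index is used. -/
lemma asi_clusters (hasi : BorelAsiLe (schreierGraph S X) 1) (N : ℕ) (hN : 1 ≤ N) :
    ∃ U : Set X, MeasurableSet U ∧ ∀ Q : X → X → Prop,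
      (∀ a b, Q a b → ∃ p : (schreierGraph S X).Walk a b, p.length ≤ N) →
      (∀ x ∈ U, {y | Relation.ReflTransGen (fun a b => b ∈ U ∧ Q a b) x y}.Finite) ∧
      (∀ x ∈ Uᶜ, {y | Relation.ReflTransGen (fun a b => b ∈ Uᶜ ∧ Q a b) x y}.Finite) := by
  obtain ⟨U, hUm, hUd, hUc, hUf⟩ := hasi N hN
  have hcompl : (U 0)ᶜ = U 1 := by
    ext x
    constructor
    · intro hx
      have : x ∈ ⋃ i, U i := by rw [hUc]; trivial
      obtain ⟨i, hi⟩ := mem_iUnion.1 this
      fin_cases i
      · exact absurd hi hx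
      · exact hi
    · intro hx hx'
      exact Set.disjoint_left.1 (hUd 0 1 (by decide)) hx' hx
  refine ⟨U 0, hUm 0, fun Q hQ => ?_⟩
  have key : ∀ i : Fin 2, ∀ x ∈ U i,
      {y | Relation.ReflTransGen (fun a b => b ∈ U i ∧ Q a b) x y}.Finite := by
    intro i x hx
    have hfin := hUf i (SimpleGraph.connectedComponentMk _ ⟨x, hx⟩)
    refine (hfin.image Subtype.val).subset ?_
    intro y hy
    have hy' : ∃ h : y ∈ U i, ((distPow (schreierGraph S X) N).induce (U i)).Reachable
        ⟨x, hx⟩ ⟨y, h⟩ := by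
      have hy0 : Relation.ReflTransGen (fun a b => b ∈ U i ∧ Q a b) x y := hy
      clear hy
      induction hy0 with
      | refl => exact ⟨hx, SimpleGraph.Reachable.refl _⟩
      | @tail b c _ hbc ih =>
        obtain ⟨hb, hr⟩ := ih
        refine ⟨hbc.1, hr.trans ?_⟩
        by_cases h : b = c
        · subst h
          exact SimpleGraph.Reachable.refl _
        · refine SimpleGraph.Adj.reachable ?_
          rw [SimpleGraph.induce_adj]
          unfold distPow
          rw [SimpleGraph.fromRel_adj]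
          exact ⟨h, Or.inl (hQ b c hbc.2)⟩
    obtain ⟨h, hr⟩ := hy'
    refine ⟨⟨y, h⟩, ?_, rfl⟩
    rw [SimpleGraph.ConnectedComponent.mem_supp_iff, SimpleGraph.ConnectedComponent.eq]
    exact hr.symm
  refine ⟨key 0, ?_⟩
  rw [hcompl]
  exact key 1

end asi

section block

variable {Γ : Type u} [Group Γ] {X : Type v} [MeasurableSpace X] [StandardBorelSpace X]
  [MulAction Γ X]

/-- a free block has a consistent Borel colouring -/
theorem BC_freeBlock (hmeas : ∀ γ : Γ, Measurable fun x : X => γ • x)
    (hfree : ∀ (γ : Γ) (x : X), γ • x = x → γ = 1) {S T : Finset Γ} (hTS : T ⊆ S)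
    (h1 : (1 : Γ) ∉ S) (hsymm : ∀ g ∈ S, g⁻¹ ∈ S)
    (heven : ∀ g ∈ T, IsOfFinOrder g → Even (orderOf g))
    (hT : FreeBlock T) (hasi : BorelAsiLe (schreierGraph S X) 1) : BC X T := by
  classical
  obtain ⟨hTs, hTw, g, hg, hgo, h, hh, hhg, hhg'⟩ := hT
  obtain ⟨r, hr, hr'⟩ := exists_rep Γ
  -- alternating sets
  have hex : ∀ s : Γ, ∃ E : Set X, MeasurableSet E ∧
      (s ∈ T → IsOfFinOrder s → ∀ x, s • x ∈ E ↔ x ∉ E) := by
    intro s
    by_cases hs : s ∈ T ∧ IsOfFinOrder s
    · obtain ⟨E, h1, h2⟩ := even_cycle hmeas hfree hs.2 (heven s hs.1 hs.2)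
      exact ⟨E, h1, fun _ _ => h2⟩
    · exact ⟨∅, MeasurableSet.empty, fun a b => absurd ⟨a, b⟩ hs⟩
  choose E hEm hE using hex
  have hE' : ∀ s ∈ T, IsOfFinOrder s → ∀ x, s⁻¹ • x ∈ E s ↔ x ∉ E s := by
    intro s hs hso x
    have := hE s hs hso (s⁻¹ • x)
    rw [smul_inv_smul] at this
    tauto
  -- the ports
  let P : Type u := {s : Γ // s ∈ T ∧ (IsOfFinOrder s → r s = s)}
  have hPfin : Finite P := Finite.of_injective (fun p : P => (⟨p.1, p.2.1⟩ : T))
    (fun p q hpq => Subtype.ext (congrArg (fun t : T => (t : Γ)) hpq))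
  let _ : Fintype P := Fintype.ofFinite P
  have hinvP : ∀ p : P, ¬ IsOfFinOrder p.1 → (p.1⁻¹ ∈ T ∧ (IsOfFinOrder p.1⁻¹ → r p.1⁻¹ = p.1⁻¹)) := by
    intro p hp
    exact ⟨hTs _ p.2.1, fun h => absurd (isOfFinOrder_inv_iff.1 h) hp⟩
  let inv : P → P := fun p => if hp : IsOfFinOrder p.1 then p else ⟨p.1⁻¹, hinvP p hp⟩
  have inv_fin : ∀ p : P, IsOfFinOrder p.1 → inv p = p := fun p hp => dif_pos hp
  have inv_inf : ∀ p : P, ¬ IsOfFinOrder p.1 → (inv p).1 = p.1⁻¹ := fun p hp => by
    simp only [inv, dif_neg hp]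
  -- the letter used at `x`
  let lt : P → X → Γ := fun p x => if IsOfFinOrder p.1 ∧ x ∉ E p.1 then p.1⁻¹ else p.1
  have lt_inf : ∀ (p : P) x, ¬ IsOfFinOrder p.1 → lt p x = p.1 := fun p x hp => by
    simp only [lt]; rw [if_neg (fun h => hp h.1)]
  have lt_cases : ∀ (p : P) x, lt p x = p.1 ∨ lt p x = p.1⁻¹ := by
    intro p x
    simp only [lt]
    split_ifs
    · exact Or.inr rfl
    · exact Or.inl rfl
  have lt_T : ∀ (p : P) x, lt p x ∈ T := by
    intro p x
    rcases lt_cases p x with h | h
    · rw [h]; exact p.2.1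
    · rw [h]; exact hTs _ p.2.1
  have lt_fin : ∀ (p : P) x, IsOfFinOrder (lt p x) ↔ IsOfFinOrder p.1 := by
    intro p x
    rcases lt_cases p x with h | h
    · rw [h]
    · rw [h, isOfFinOrder_inv_iff]
  let 𝒯 : TTree P X :=
    { inv := inv
      inv_inv := by
        intro p
        by_cases hp : IsOfFinOrder p.1
        · rw [inv_fin p hp, inv_fin p hp]
        · have h1 := inv_inf p hp
          have h2 : ¬ IsOfFinOrder (inv p).1 := by rw [h1, isOfFinOrder_inv_iff]; exact hp
          apply Subtype.ext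
          rw [inv_inf _ h2, h1, inv_inv]
      act := fun p x => lt p x • x
      act_inv := by
        intro p x
        by_cases hp : IsOfFinOrder p.1
        · rw [inv_fin p hp]
          by_cases hx : x ∈ E p.1
          · have e1 : lt p x = p.1 := by simp only [lt]; rw [if_neg (fun h => h.2 hx)]
            have hx' : p.1 • x ∉ E p.1 := fun h => (hE _ p.2.1 hp x).1 h hx
            have e2 : lt p (p.1 • x) = p.1⁻¹ := by simp only [lt]; rw [if_pos ⟨hp, hx'⟩]
            simp only [e1, e2, inv_smul_smul]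
          · have e1 : lt p x = p.1⁻¹ := by simp only [lt]; rw [if_pos ⟨hp, hx⟩]
            have hx' : p.1⁻¹ • x ∈ E p.1 := (hE' _ p.2.1 hp x).2 hx
            have e2 : lt p (p.1⁻¹ • x) = p.1 := by simp only [lt]; rw [if_neg (fun h => h.2 hx')]
            simp only [e1, e2, smul_inv_smul]
        · have h1 := inv_inf p hp
          have h2 : ¬ IsOfFinOrder (inv p).1 := by rw [h1, isOfFinOrder_inv_iff]; exact hp
          simp only [lt_inf p x hp, lt_inf (inv p) _ h2, h1, inv_smul_smul] }
  have hact : ∀ t, Measurable (𝒯.act t) := by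
    intro p
    by_cases hp : IsOfFinOrder p.1
    · have e : 𝒯.act p = fun x => if x ∈ E p.1 then p.1 • x else p.1⁻¹ • x := by
        funext x
        show lt p x • x = _
        simp only [lt]
        by_cases hx : x ∈ E p.1
        · rw [if_neg (fun h => h.2 hx), if_pos hx]
        · rw [if_pos ⟨hp, hx⟩, if_neg hx]
      rw [e]
      exact Measurable.ite (hEm _) (hmeas _) (hmeas _)
    · have e : 𝒯.act p = fun x => p.1 • x := by
        funext x
        show lt p x • x = _
        rw [lt_inf p x hp]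
      rw [e]
      exact hmeas _
  -- words
  have hword : ∀ (l : List P) (x : X), ∃ m : List Γ, m.length = l.length ∧
      (∀ a ∈ m, a ∈ T) ∧ 𝒯.run l x = m.reverse.prod • x ∧
      (𝒯.Red l → m.IsChain (fun a b => b ≠ a⁻¹ ∧ (b = a → ¬ IsOfFinOrder a))) ∧
      (∀ a ∈ m.head?, ∀ p ∈ l.head?, a = lt p x) := by
    intro l
    induction l with
    | nil => intro x; exact ⟨[], rfl, by simp, by simp, fun _ => List.IsChain.nil, by simp⟩
    | cons p l ih =>
      intro x
      obtain ⟨m, m1, m2, m3, m4, m5⟩ := ih (𝒯.act p x)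
      refine ⟨lt p x :: m, by simp [m1], ?_, ?_, ?_, ?_⟩
      · intro a ha
        rcases List.mem_cons.1 ha with rfl | ha
        · exact lt_T p x
        · exact m2 a ha
      · rw [TTree.run_cons, m3, List.reverse_cons, List.prod_append, List.prod_singleton,
          mul_smul]
      · intro hl
        cases l with
        | nil =>
          simp only [List.length_nil, List.length_eq_zero_iff] at m1
          subst m1
          exact List.IsChain.singleton _
        | cons q l =>
          cases m with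
          | nil => simp at m1
          | cons b m =>
            have hb := m5 b (by simp) q (by simp)
            obtain ⟨hl1, hl2⟩ := 𝒯.red_cons.1 hl
            refine List.IsChain.cons_cons ?_ (m4 hl2)
            rw [hb]
            have hl1' : q ≠ inv p := hl1
            by_cases hp : IsOfFinOrder p.1
            · rw [inv_fin p hp] at hl1'
              have hne : ∀ c, c = lt p x ∨ c = (lt p x)⁻¹ → lt q (𝒯.act p x) ≠ c := by
                intro c hc heq
                have hcp : c = p.1 ∨ c = p.1⁻¹ := by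
                  rcases lt_cases p x with h | h <;> rw [h] at hc
                  · exact hc
                  · rw [inv_inv] at hc; exact hc.symm
                have hqp : q.1 = p.1 ∨ q.1 = p.1⁻¹ := by
                  rcases lt_cases q (𝒯.act p x) with h | h <;> rw [h] at heq
                  · rw [heq]; exact hcp
                  · rcases hcp with h' | h'
                    · right; rw [← h', ← heq, inv_inv]
                    · left; rw [h'] at heq; exact inv_injective heq
                have hqf : IsOfFinOrder q.1 := by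
                  rcases hqp with h | h
                  · rw [h]; exact hp
                  · rw [h, isOfFinOrder_inv_iff]; exact hp
                have e1 := q.2.2 hqf
                have e2 := p.2.2 hp
                apply hl1'
                apply Subtype.ext
                rw [← e1, ← e2]
                rcases hqp with h | h
                · rw [h]
                · rw [h, hr']
              exact ⟨hne _ (Or.inr rfl), fun h => absurd h (hne _ (Or.inl rfl))⟩
            · rw [lt_inf p x hp]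
              refine ⟨?_, fun _ => hp⟩
              intro heq
              have hqi : ¬ IsOfFinOrder q.1 := by
                rw [← lt_fin q (𝒯.act p x), heq, isOfFinOrder_inv_iff]; exact hp
              rw [lt_inf q _ hqi] at heq
              apply hl1'
              apply Subtype.ext
              rw [inv_inf p hp]; exact heq
      · intro a ha q hq
        simp only [List.head?_cons, Option.mem_def, Option.some.injEq] at ha hq
        rw [← ha, ← hq]
  have hF : 𝒯.Free := by
    intro l hl hne x hx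
    obtain ⟨m, m1, m2, m3, m4, -⟩ := hword l x
    have h2 := m4 hl
    rw [hx] at m3
    have h3 := hfree _ x m3.symm
    refine hTw m.reverse ?_ ?_ ?_ h3
    · intro h
      apply hne
      rw [List.reverse_eq_nil_iff] at h
      rw [h] at m1
      exact List.length_eq_zero_iff.1 m1.symm
    · intro a ha
      exact m2 a (List.mem_reverse.1 ha)
    · rw [List.isChain_reverse]
      refine List.IsChain.imp ?_ h2
      intro a b hab
      refine ⟨fun h => hab.1 (by rw [h, inv_inv]), fun h => ?_⟩
      rw [← h]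
      exact hab.2 h.symm
  -- three ports
  have h3 : 3 ≤ Fintype.card P := by
    have hgi : IsOfFinOrder g⁻¹ → r g⁻¹ = g⁻¹ := fun h => absurd (isOfFinOrder_inv_iff.1 h) hgo
    let p1 : P := ⟨g, hg, fun h => absurd h hgo⟩
    let p2 : P := ⟨g⁻¹, hTs g hg, hgi⟩
    obtain ⟨p3, hp3⟩ : ∃ p3 : P, p3.1 = h ∨ p3.1 = h⁻¹ := by
      by_cases ho : IsOfFinOrder h
      · rcases hr h with e | e
        · exact ⟨⟨h, hh, fun _ => e⟩, Or.inl rfl⟩
        · exact ⟨⟨h⁻¹, hTs h hh, fun _ => by rw [hr']; exact e⟩, Or.inr rfl⟩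
      · exact ⟨⟨h, hh, fun h' => absurd h' ho⟩, Or.inl rfl⟩
    have n12 : p1 ≠ p2 := by
      intro e
      have e' : g = g⁻¹ := congrArg Subtype.val e
      apply hgo
      rw [isOfFinOrder_iff_pow_eq_one]
      refine ⟨2, by norm_num, ?_⟩
      rw [pow_two]
      nth_rewrite 1 [e']
      exact inv_mul_cancel g
    have n13 : p1 ≠ p3 := by
      intro e
      have e' : g = p3.1 := congrArg Subtype.val e
      rcases hp3 with h' | h'
      · exact hhg (by rw [e', h'])
      · exact hhg' (by rw [e', h', inv_inv])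
    have n23 : p2 ≠ p3 := by
      intro e
      have e' : g⁻¹ = p3.1 := congrArg Subtype.val e
      rcases hp3 with h' | h'
      · exact hhg' (by rw [e', h'])
      · exact hhg (by rw [← inv_inv g, e', h', inv_inv])
    have : ({p1, p2, p3} : Finset P).card = 3 := Finset.card_eq_three.2
      ⟨p1, p2, p3, n12, n13, n23, rfl⟩
    rw [← this]
    exact Finset.card_le_univ _
  -- the separating set
  obtain ⟨U, hUm, hU⟩ := asi_clusters hasi 7 (by norm_num)
  have hwalk : ∀ (l : List P) (x : X), ∃ p : (schreierGraph S X).Walk x (𝒯.run l x),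
      p.length = l.length := by
    intro l
    induction l with
    | nil => intro x; exact ⟨SimpleGraph.Walk.nil, rfl⟩
    | cons p l ih =>
      intro x
      obtain ⟨w, hw⟩ := ih (𝒯.act p x)
      have hadj : (schreierGraph S X).Adj x (𝒯.act p x) :=
        adj_smul hsymm h1 hfree (hTS (lt_T p x)) x
      exact ⟨SimpleGraph.Walk.cons hadj w, by simp [hw]⟩
  obtain ⟨hA, hB⟩ := hU (𝒯.Near 7) (by
    rintro a b ⟨l, hl, rfl⟩
    obtain ⟨w, hw⟩ := hwalk l a
    exact ⟨w, by omega⟩)
  obtain ⟨c, hc1, hc2, hc3⟩ := 𝒯.exists_colouring h3 hact hF U hUm hA hB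
  -- the colouring of the block
  have hrT : ∀ γ ∈ T, IsOfFinOrder γ → r γ ∈ T ∧ (IsOfFinOrder (r γ) → r (r γ) = r γ) := by
    intro γ hγ _
    rcases hr γ with e | e
    · rw [e]; exact ⟨hγ, fun _ => e⟩
    · rw [e]; exact ⟨hTs γ hγ, fun _ => by rw [hr']; exact e⟩
  -- the port of `γ`
  let po : Γ → P := fun γ => if hγ : γ ∈ T then (if hf : IsOfFinOrder γ then ⟨r γ, hrT γ hγ hf⟩
    else ⟨γ, hγ, fun h => absurd h hf⟩) else ⟨g, hg, fun h => absurd h hgo⟩
  have po_fin : ∀ γ ∈ T, IsOfFinOrder γ → (po γ).1 = r γ := by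
    intro γ hγ hf
    simp only [po, dif_pos hγ, dif_pos hf]
  have po_inf : ∀ γ ∈ T, ¬ IsOfFinOrder γ → (po γ).1 = γ := by
    intro γ hγ hf
    simp only [po, dif_pos hγ, dif_neg hf]
  -- the edge `(x, γ x)` belongs to the forest
  let Q : Γ → X → Prop := fun γ x => ¬ IsOfFinOrder γ ∨ (γ = r γ ∧ x ∈ E (r γ)) ∨
    (γ = (r γ)⁻¹ ∧ x ∉ E (r γ))
  have hQm : ∀ γ, MeasurableSet {x | Q γ x} := by
    intro γ
    have : {x | Q γ x} = {_x | ¬ IsOfFinOrder γ} ∪ (({_x | γ = r γ} ∩ E (r γ)) ∪
        ({_x | γ = (r γ)⁻¹} ∩ (E (r γ))ᶜ)) := by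
      ext x; rfl
    rw [this]
    exact (MeasurableSet.const _).union (((MeasurableSet.const _).inter (hEm _)).union
      ((MeasurableSet.const _).inter (hEm _).compl))
  have hrfin : ∀ γ, IsOfFinOrder γ → IsOfFinOrder (r γ) := by
    intro γ hf
    rcases hr γ with e | e
    · rw [e]; exact hf
    · rw [e, isOfFinOrder_inv_iff]; exact hf
  have hQact : ∀ γ ∈ T, ∀ x, Q γ x → 𝒯.act (po γ) x = γ • x := by
    intro γ hγ x hQ
    show lt (po γ) x • x = γ • x
    by_cases hf : IsOfFinOrder γ
    · have e := po_fin γ hγ hf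
      have hf' : IsOfFinOrder (po γ).1 := by rw [e]; exact hrfin γ hf
      rcases hQ with h | ⟨h, h'⟩ | ⟨h, h'⟩
      · exact absurd hf h
      · have : lt (po γ) x = (po γ).1 := by
          simp only [lt]; rw [if_neg (fun hc => hc.2 (by rw [e]; exact h'))]
        rw [this, e, ← h]
      · have : lt (po γ) x = (po γ).1⁻¹ := by
          simp only [lt]; rw [if_pos ⟨hf', by rw [e]; exact h'⟩]
        rw [this, e, ← h]
    · have e := po_inf γ hγ hf
      rw [lt_inf _ _ (by rw [e]; exact hf), e]
  have hpoinv : ∀ γ ∈ T, inv (po γ) = po γ⁻¹ := by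
    intro γ hγ
    by_cases hf : IsOfFinOrder γ
    · have e := po_fin γ hγ hf
      have hf' : IsOfFinOrder (po γ).1 := by rw [e]; exact hrfin γ hf
      rw [inv_fin _ hf']
      apply Subtype.ext
      rw [e, po_fin γ⁻¹ (hTs γ hγ) (isOfFinOrder_inv_iff.2 hf), hr']
    · have e := po_inf γ hγ hf
      apply Subtype.ext
      rw [inv_inf _ (by rw [e]; exact hf), e, po_inf γ⁻¹ (hTs γ hγ)
        (fun h => hf (isOfFinOrder_inv_iff.1 h))]
  have hQinv : ∀ γ ∈ T, ∀ x, Q γ⁻¹ (γ • x) ↔ Q γ x := by
    intro γ hγ x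
    simp only [Q]
    rw [isOfFinOrder_inv_iff, hr']
    by_cases hf : IsOfFinOrder γ
    · have hrm := hrT γ hγ hf
      have hal : γ • x ∈ E (r γ) ↔ x ∉ E (r γ) := by
        rcases hr γ with e | e
        · have := hE (r γ) hrm.1 (hrfin γ hf) x
          rw [e] at this ⊢; exact this
        · have := hE' (r γ) hrm.1 (hrfin γ hf) x
          have e' : γ = (r γ)⁻¹ := by rw [e, inv_inv]
          rw [← e'] at this
          exact this
      have i1 : γ⁻¹ = r γ ↔ γ = (r γ)⁻¹ := inv_eq_iff_eq_inv
      have i2 : γ⁻¹ = (r γ)⁻¹ ↔ γ = r γ := inv_inj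
      rw [i1, i2, hal]
      tauto
    · simp [hf]
  refine ⟨fun γ x => if Q γ x then (c x (po γ)).1 else (r γ)⁻¹, ?_, ?_, ?_, ?_⟩
  · intro γ hγ
    exact FM.ite (hQm γ) (hc1.comp (fun β => (β (po γ)).1)) (FM.const _)
  · intro γ hγ x
    by_cases hQ : Q γ x
    · simp only [hQ, if_true]; exact (c x (po γ)).2.1
    · simp only [hQ, if_false]
      have hf : IsOfFinOrder γ := by
        by_contra h; exact hQ (Or.inl h)
      exact hTs _ (hrT γ hγ hf).1
  · intro γ hγ x
    by_cases hQ : Q γ x
    · have hQ' := (hQinv γ hγ x).2 hQ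
      simp only [hQ, hQ', if_true]
      have := hc3 x (po γ)
      rw [hQact γ hγ x hQ] at this
      rw [← hpoinv γ hγ]
      exact congrArg Subtype.val this
    · have hQ' : ¬ Q γ⁻¹ (γ • x) := fun h => hQ ((hQinv γ hγ x).1 h)
      simp only [hQ, hQ', if_false, hr']
  · intro x γ hγ δ hδ he
    have hfinQ : ∀ ε, ¬ Q ε x → IsOfFinOrder ε := fun ε h => by
      by_contra h'; exact h (Or.inl h')
    -- a colour of a non-forest edge is not a port
    have hnp : ∀ ε ∈ T, ¬ Q ε x → ∀ p : P, p.1 ≠ (r ε)⁻¹ := by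
      intro ε hε hQ p hp
      have hf := hfinQ ε hQ
      have h1 : IsOfFinOrder p.1 := by rw [hp, isOfFinOrder_inv_iff]; exact hrfin ε hf
      have h2 := p.2.2 h1
      rw [hp, hr'] at h2
      have hrr : r (r ε) = r ε := (hrT ε hε hf).2 (hrfin ε hf)
      rw [hrr] at h2
      apply hQ
      have h4 : ε = r ε := by
        rcases hr ε with e | e
        · exact e.symm
        · rw [h2, e, inv_inv]
      by_cases hx : x ∈ E (r ε)
      · exact Or.inr (Or.inl ⟨h4, hx⟩)
      · exact Or.inr (Or.inr ⟨by rw [← h2]; exact h4, hx⟩)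
    by_cases hQ : Q γ x
    · by_cases hQ' : Q δ x
      · simp only [hQ, hQ', if_true] at he
        have h1 := hc2 x (Subtype.ext he)
        by_cases hf : IsOfFinOrder γ
        · by_cases hf' : IsOfFinOrder δ
          · have h2 := congrArg Subtype.val h1
            rw [po_fin γ hγ hf, po_fin δ hδ hf'] at h2
            rcases hQ with q | ⟨q, q'⟩ | ⟨q, q'⟩
            · exact absurd hf q
            · rcases hQ' with w | ⟨w, w'⟩ | ⟨w, w'⟩
              · exact absurd hf' w
              · rw [q, w, h2]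
              · rw [h2] at q'; exact absurd q' w'
            · rcases hQ' with w | ⟨w, w'⟩ | ⟨w, w'⟩
              · exact absurd hf' w
              · rw [h2] at q'; exact absurd w' q'
              · rw [q, w, h2]
          · exfalso
            have h2 := congrArg Subtype.val h1
            rw [po_fin γ hγ hf, po_inf δ hδ hf'] at h2
            rw [← h2] at hf'
            exact hf' (hrfin γ hf)
        · by_cases hf' : IsOfFinOrder δ
          · exfalso
            have h2 := congrArg Subtype.val h1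
            rw [po_inf γ hγ hf, po_fin δ hδ hf'] at h2
            rw [h2] at hf
            exact hf (hrfin δ hf')
          · have h2 := congrArg Subtype.val h1
            rw [po_inf γ hγ hf, po_inf δ hδ hf'] at h2
            exact h2
      · simp only [hQ, hQ', if_true, if_false] at he
        exact absurd he (hnp δ hδ hQ' _)
    · by_cases hQ' : Q δ x
      · simp only [hQ, hQ', if_true, if_false] at he
        exact absurd he.symm (hnp γ hγ hQ _)
      · simp only [hQ, hQ', if_false] at he
        have h2 : r γ = r δ := inv_injective he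
        have side : ∀ ε, ¬ Q ε x → ε = (if x ∈ E (r ε) then (r ε)⁻¹ else r ε) := by
          intro ε hQε
          by_cases hx : x ∈ E (r ε)
          · rw [if_pos hx]
            rcases hr ε with e | e
            · exact absurd (Or.inr (Or.inl ⟨e.symm, hx⟩)) hQε
            · rw [e, inv_inv]
          · rw [if_neg hx]
            rcases hr ε with e | e
            · exact e.symm
            · exact absurd (Or.inr (Or.inr ⟨by rw [e, inv_inv], hx⟩)) hQε
        rw [side γ hQ, side δ hQ', h2]

end block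

end Pool.Agent.MP1822T
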