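import Mathlib

/-!
# Virtually cyclic groups and finite extensions of `ℤ`: definitions
-/

namespace Pool.Agent.Lib.MP_1822da_lc

universe u

/-- The group `H` is virtually cyclic: some cyclic subgroup has finite index. -/
def IsVirtuallyCyclic (H : Type u) [Group H] : Prop :=
  ∃ z : H, (Subgroup.zpowers z).FiniteIndex

/-- `Γ` is a finite extension of `ℤ`: it has a finite normal subgroup `Δ` with `Γ ⧸ Δ ≃ ℤ`. -/
def IsFiniteExtensionOfInt (Γ : Type u) [Group Γ] : Prop :=
  ∃ (Δ : Subgroup Γ) (_ : Δ.Normal), Finite Δ ∧ Nonempty (Γ ⧸ Δ ≃* Multiplicative ℤ)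

end Pool.Agent.Lib.MP_1822da_lc
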