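import Pool.Agent.Lib.MP_1822da_lc.TreeD
import Pool.Agent.Lib.MP_1822da_lc.VDefs

/-!
# Finite partners (helper48's proof of `VirtuallyCyclic`, with the set `S₁` of coloured letters
separated from the generating set `S` which carries the separation index)
-/

namespace Pool.Agent.MP1822V

open Set MeasureTheory Pointwise
open Pool.Agent.Lib.MP_1822da_lc

universe u v

section Line

/-- `n` is the first element of `A` in `{0, 1, 2, …}`. -/
def FirstR (A : Set ℤ) (n : ℕ) : Prop := (n : ℤ) ∈ A ∧ ∀ m : ℕ, m < n → (m : ℤ) ∉ A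

/-- `-n-1` is the first element of `A` in `{-1, -2, …}`. -/
def FirstL (A : Set ℤ) (n : ℕ) : Prop :=
  (-(n : ℤ) - 1) ∈ A ∧ ∀ m : ℕ, m < n → (-(m : ℤ) - 1) ∉ A

/-- The right end is chosen. -/
def ChR (A : Set ℤ) (l : ℤ → ℝ) (n : ℕ) : Prop :=
  FirstR A n ∧ ∀ m : ℕ, FirstL A m → l n < l (-m)

/-- The left end is chosen. -/
def ChL (A : Set ℤ) (l : ℤ → ℝ) (m : ℕ) : Prop :=
  FirstL A m ∧ ∀ n : ℕ, FirstR A n → l (-m) < l n

/-- The alternating colour. -/
def Alt (A : Set ℤ) (l : ℤ → ℝ) : Prop :=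
  (∃ n : ℕ, Odd n ∧ ChR A l n) ∨ (∃ m : ℕ, Even m ∧ ChL A l m)

theorem FirstR.unique {A : Set ℤ} {n m : ℕ} (h : FirstR A n) (h' : FirstR A m) : n = m := by
  rcases lt_trichotomy n m with hlt | heq | hgt
  · exact absurd h.1 (h'.2 n hlt)
  · exact heq
  · exact absurd h'.1 (h.2 m hgt)

theorem FirstL.unique {A : Set ℤ} {n m : ℕ} (h : FirstL A n) (h' : FirstL A m) : n = m := by
  rcases lt_trichotomy n m with hlt | heq | hgt
  · exact absurd h.1 (h'.2 n hlt)
  · exact heq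
  · exact absurd h'.1 (h.2 m hgt)

theorem exists_first {A : Set ℤ} (h : A.Nonempty) : (∃ n, FirstR A n) ∨ (∃ m, FirstL A m) := by
  classical
  obtain ⟨a, ha⟩ := h
  rcases le_or_gt 0 a with h0 | h0
  · left
    have hex : ∃ n : ℕ, (n : ℤ) ∈ A := ⟨a.toNat, by rwa [Int.toNat_of_nonneg h0]⟩
    exact ⟨Nat.find hex, Nat.find_spec hex, fun m hm => Nat.find_min hex hm⟩
  · right
    have hex : ∃ n : ℕ, (-(n : ℤ) - 1) ∈ A := ⟨(-a - 1).toNat, by
      rw [Int.toNat_of_nonneg (by omega)]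
      convert ha using 1
      ring⟩
    exact ⟨Nat.find hex, Nat.find_spec hex, fun m hm => Nat.find_min hex hm⟩

/-- Exactly one end is chosen. -/
theorem chosen_cases {A : Set ℤ} {l : ℤ → ℝ} (hA : A.Nonempty) (h0 : ¬((0 : ℤ) ∈ A ∧ (-1 : ℤ) ∈ A))
    (hl : Function.Injective l) :
    ((∃ n, ChR A l n) ∧ ¬ ∃ m, ChL A l m) ∨ ((∃ m, ChL A l m) ∧ ¬ ∃ n, ChR A l n) := by
  have key : ∀ n m, FirstR A n → FirstL A m → l n ≠ l (-m) := by
    intro n m hn hm h
    have := hl h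
    have hn0 : n = 0 := by omega
    have hm0 : m = 0 := by omega
    subst hn0; subst hm0
    exact h0 ⟨by simpa using hn.1, by simpa using hm.1⟩
  by_cases hR : ∃ n, FirstR A n
  · obtain ⟨n, hn⟩ := hR
    by_cases hL : ∃ m, FirstL A m
    · obtain ⟨m, hm⟩ := hL
      rcases lt_or_gt_of_ne (key n m hn hm) with hlt | hgt
      · left
        refine ⟨⟨n, hn, fun m' hm' => by rw [← hm.unique hm']; exact hlt⟩, ?_⟩
        rintro ⟨m', hm', h'⟩
        have := h' n hn
        rw [← hm.unique hm'] at this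
        exact absurd hlt (not_lt.2 this.le)
      · right
        refine ⟨⟨m, hm, fun n' hn' => by rw [← hn.unique hn']; exact hgt⟩, ?_⟩
        rintro ⟨n', hn', h'⟩
        have := h' m hm
        rw [← hn.unique hn'] at this
        exact absurd hgt (not_lt.2 this.le)
    · left
      exact ⟨⟨n, hn, fun m hm => absurd ⟨m, hm⟩ hL⟩, fun ⟨m, hm, _⟩ => hL ⟨m, hm⟩⟩
  · right
    obtain ⟨m, hm⟩ := (exists_first hA).resolve_left hR
    exact ⟨⟨m, hm, fun n hn => absurd ⟨n, hn⟩ hR⟩, fun ⟨n, hn, _⟩ => hR ⟨n, hn⟩⟩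

theorem alt_iff_of_chR {A : Set ℤ} {l : ℤ → ℝ} {n : ℕ} (hn : ChR A l n)
    (hno : ¬ ∃ m, ChL A l m) : Alt A l ↔ Odd n := by
  constructor
  · rintro (⟨n', ho, h'⟩ | ⟨m, -, h'⟩)
    · rwa [hn.1.unique h'.1]
    · exact absurd ⟨m, h'⟩ hno
  · intro h
    exact Or.inl ⟨n, h, hn⟩

theorem alt_iff_of_chL {A : Set ℤ} {l : ℤ → ℝ} {m : ℕ} (hm : ChL A l m)
    (hno : ¬ ∃ n, ChR A l n) : Alt A l ↔ Even m := by
  constructor
  · rintro (⟨n, -, h'⟩ | ⟨m', ho, h'⟩)
    · exact absurd ⟨n, h'⟩ hno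
    · rwa [hm.1.unique h'.1]
  · intro h
    exact Or.inr ⟨m, h, hm⟩

/-- Reflection. -/
theorem firstR_refl {A B : Set ℤ} (h : ∀ n : ℤ, n ∈ B ↔ (-n - 1) ∈ A) (n : ℕ) :
    FirstR B n ↔ FirstL A n := by
  unfold FirstR FirstL
  simp only [h]

theorem firstL_refl {A B : Set ℤ} (h : ∀ n : ℤ, n ∈ B ↔ (-n - 1) ∈ A) (n : ℕ) :
    FirstL B n ↔ FirstR A n := by
  unfold FirstR FirstL
  simp only [h]
  have : ∀ k : ℤ, -(-k - 1) - 1 = k := fun k => by ring
  simp only [this]

theorem alt_refl {A B : Set ℤ} {l l' : ℤ → ℝ} (h : ∀ n : ℤ, n ∈ B ↔ (-n - 1) ∈ A)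
    (hl' : ∀ n : ℤ, l' n = l (-n)) (hA : A.Nonempty) (h0 : ¬((0 : ℤ) ∈ A ∧ (-1 : ℤ) ∈ A))
    (hl : Function.Injective l) : Alt B l' ↔ ¬ Alt A l := by
  have hR : ∀ n, ChR B l' n ↔ ChL A l n := by
    intro n
    unfold ChR ChL
    simp only [firstR_refl h, firstL_refl h, hl', neg_neg]
  have hL : ∀ n, ChL B l' n ↔ ChR A l n := by
    intro n
    unfold ChR ChL
    simp only [firstR_refl h, firstL_refl h, hl', neg_neg]
  rcases chosen_cases hA h0 hl with ⟨⟨n, hn⟩, hno⟩ | ⟨⟨m, hm⟩, hno⟩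
  · rw [alt_iff_of_chR hn hno, alt_iff_of_chL (m := n) ((hL n).2 hn)
      (fun ⟨m, hm⟩ => hno ⟨m, (hR m).1 hm⟩), Nat.not_odd_iff_even]
  · rw [alt_iff_of_chL hm hno, alt_iff_of_chR (n := m) ((hR m).2 hm)
      (fun ⟨n, hn⟩ => hno ⟨n, (hL n).1 hn⟩), Nat.not_even_iff_odd]

/-- Shift. -/
theorem alt_shift {A B : Set ℤ} {l l' : ℤ → ℝ} (h : ∀ n : ℤ, n ∈ B ↔ (n + 1) ∈ A)
    (hl' : ∀ n : ℤ, l' n = l (n + 1)) (hA : A.Nonempty) (h0 : (0 : ℤ) ∉ A)
    (hl : Function.Injective l) : Alt B l' ↔ ¬ Alt A l := by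
  have hR : ∀ n, FirstR B n ↔ FirstR A (n + 1) := by
    intro n
    unfold FirstR
    constructor
    · rintro ⟨h1, h2⟩
      refine ⟨by exact_mod_cast (h n).1 h1, ?_⟩
      intro m hm hmA
      rcases m with _ | m
      · exact h0 (by simpa using hmA)
      · exact h2 m (by omega) ((h m).2 (by exact_mod_cast hmA))
    · rintro ⟨h1, h2⟩
      refine ⟨(h n).2 (by exact_mod_cast h1), ?_⟩
      intro m hm hmB
      exact h2 (m + 1) (by omega) (by exact_mod_cast (h m).1 hmB)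
  have hR0 : ¬ FirstR A 0 := fun h => h0 (by simpa using h.1)
  have hL : ∀ n, FirstL B (n + 1) ↔ FirstL A n := by
    intro n
    unfold FirstL
    constructor
    · rintro ⟨h1, h2⟩
      refine ⟨?_, ?_⟩
      · have := (h _).1 h1
        convert this using 1
        push_cast; ring
      intro m hm hmA
      refine h2 (m + 1) (by omega) ((h _).2 ?_)
      convert hmA using 1
      push_cast; ring
    · rintro ⟨h1, h2⟩
      refine ⟨(h _).2 ?_, ?_⟩
      · convert h1 using 1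
        push_cast; ring
      intro m hm hmB
      have hmB' := (h _).1 hmB
      rcases m with _ | m
      · exact h0 (by simpa using hmB')
      · refine h2 m (by omega) ?_
        convert hmB' using 1
        push_cast; ring
  have hL0 : ¬ FirstL B 0 := fun hb => h0 (by
    have := (h _).1 hb.1
    simpa using this)
  have hChR : ∀ n, ChR B l' n ↔ ChR A l (n + 1) := by
    intro n
    unfold ChR
    rw [hR]
    refine and_congr_right fun _ => ?_
    constructor
    · intro hh m hm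
      have := hh (m + 1) ((hL m).2 hm)
      rw [hl', hl'] at this
      convert this using 2
      · push_cast; ring
      · push_cast; ring
    · intro hh m hm
      rcases m with _ | m
      · exact absurd hm hL0
      · have := hh m ((hL m).1 hm)
        rw [hl', hl']
        convert this using 2
        · push_cast; ring
        · push_cast; ring
  have hChL : ∀ n, ChL B l' (n + 1) ↔ ChL A l n := by
    intro n
    unfold ChL
    rw [hL]
    refine and_congr_right fun _ => ?_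
    constructor
    · intro hh m hm
      rcases m with _ | m
      · exact absurd hm hR0
      · have := hh m ((hR m).2 hm)
        rw [hl', hl'] at this
        convert this using 2
        · push_cast; ring
        · push_cast; ring
    · intro hh m hm
      have := hh (m + 1) ((hR m).1 hm)
      rw [hl', hl']
      convert this using 2
      · push_cast; ring
      · push_cast; ring
  have h0' : ¬((0 : ℤ) ∈ A ∧ (-1 : ℤ) ∈ A) := fun hh => h0 hh.1
  rcases chosen_cases hA h0' hl with ⟨⟨n, hn⟩, hno⟩ | ⟨⟨m, hm⟩, hno⟩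
  · rcases n with _ | n
    · exact absurd hn.1 hR0
    · rw [alt_iff_of_chR hn hno, alt_iff_of_chR ((hChR n).2 hn), Nat.odd_add_one, not_not]
      rintro ⟨m, hm⟩
      rcases m with _ | m
      · exact absurd hm.1 hL0
      · exact hno ⟨m, (hChL m).1 hm⟩
  · rw [alt_iff_of_chL hm hno, alt_iff_of_chL ((hChL m).2 hm), Nat.even_add_one]
    rintro ⟨n, hn⟩
    exact hno ⟨n + 1, (hChR n).1 hn⟩

end Line

section Orbit

variable {Γ : Type u} [Group Γ] {X : Type v} [MeasurableSpace X] [StandardBorelSpace X]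
  [MulAction Γ X]

/-- The minimum over the `K`-orbit of a fixed Borel injection of `X` into `ℝ`. -/
noncomputable def orbMin (K : Subgroup Γ) (x : X) : ℝ :=
  ⨅ k : K, embeddingReal X ((k : Γ) • x)

theorem orbMin_smul (K : Subgroup Γ) {k : Γ} (hk : k ∈ K) (x : X) :
    orbMin K (k • x) = orbMin K x := by
  unfold orbMin
  refine Equiv.iInf_congr (Equiv.mulRight (⟨k, hk⟩ : K)) fun j => ?_
  simp [mul_smul]

theorem exists_orbMin (K : Subgroup Γ) [Finite K] (x : X) :
    ∃ k ∈ K, embeddingReal X (k • x) = orbMin K x := by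
  obtain ⟨k, hk⟩ := exists_eq_ciInf_of_finite (f := fun k : K => embeddingReal X ((k : Γ) • x))
  exact ⟨k, k.2, hk⟩

theorem orbMin_eq (K : Subgroup Γ) [Finite K] {x y : X} (h : orbMin K x = orbMin K y) :
    ∃ k ∈ K, k • x = y := by
  obtain ⟨k, hk, hkx⟩ := exists_orbMin K x
  obtain ⟨j, hj, hjy⟩ := exists_orbMin K y
  rw [h, ← hjy] at hkx
  have := (measurableEmbedding_embeddingReal X).injective hkx
  refine ⟨j⁻¹ * k, K.mul_mem (K.inv_mem hj) hk, ?_⟩
  rw [mul_smul, this, inv_smul_smul]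

theorem measurable_orbMin (hmeas : ∀ γ : Γ, Measurable fun x : X => γ • x) (K : Subgroup Γ)
    [Finite K] : Measurable (orbMin K : X → ℝ) := by
  unfold orbMin
  exact Measurable.iInf fun k =>
    (measurableEmbedding_embeddingReal X).measurable.comp (hmeas k)

/-- A Borel alternating set on the cycles of an element of even order. -/
theorem even_cycle (hmeas : ∀ γ : Γ, Measurable fun x : X => γ • x)
    (hfree : ∀ (γ : Γ) (x : X), γ • x = x → γ = 1) {s : Γ} (hs : IsOfFinOrder s)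
    (hev : Even (orderOf s)) :
    ∃ E : Set X, MeasurableSet E ∧ ∀ x, s • x ∈ E ↔ x ∉ E := by
  have hfin : Finite (Subgroup.zpowers s) := finite_zpowers.2 hs
  have hex : ∀ x : X, ∃ j : ℕ, embeddingReal X (s ^ j • x) = orbMin (Subgroup.zpowers s) x := by
    intro x
    obtain ⟨k, hk, hkx⟩ := exists_orbMin (Subgroup.zpowers s) x
    obtain ⟨j, hj⟩ := (hs.mem_powers_iff_mem_zpowers).2 hk
    exact ⟨j, by rw [← hkx, ← hj]⟩
  have huniq : ∀ (x : X) (j j' : ℕ), embeddingReal X (s ^ j • x) = embeddingReal X (s ^ j' • x) →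
      (Even j ↔ Even j') := by
    intro x j j' h
    have h1 := (measurableEmbedding_embeddingReal X).injective h
    have h2 : s ^ j = s ^ j' := by
      have : ((s ^ j')⁻¹ * s ^ j) • x = x := by rw [mul_smul, h1, inv_smul_smul]
      exact (inv_mul_eq_one.mp (hfree _ _ this)).symm
    have h3 := pow_eq_pow_iff_modEq.1 h2
    obtain ⟨r, hr⟩ := hev
    have h4 : j ≡ j' [MOD 2] := h3.of_dvd ⟨r, by omega⟩
    unfold Nat.ModEq at h4
    rw [Nat.even_iff, Nat.even_iff, h4]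
  refine ⟨{x | ∃ j : ℕ, Even j ∧
    embeddingReal X (s ^ j • x) = orbMin (Subgroup.zpowers s) x}, ?_, ?_⟩
  · have : {x : X | ∃ j : ℕ, Even j ∧
        embeddingReal X (s ^ j • x) = orbMin (Subgroup.zpowers s) x} =
        ⋃ j ∈ {j : ℕ | Even j},
          {x : X | embeddingReal X (s ^ j • x) = orbMin (Subgroup.zpowers s) x} := by
      ext x
      simp
    rw [this]
    refine MeasurableSet.biUnion (to_countable _) fun j _ => ?_
    exact measurableSet_eq_fun
      ((measurableEmbedding_embeddingReal X).measurable.comp (hmeas (s ^ j)))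
      (measurable_orbMin hmeas _)
  · intro x
    have hM : orbMin (Subgroup.zpowers s) (s • x) = orbMin (Subgroup.zpowers s) x :=
      orbMin_smul _ (Subgroup.mem_zpowers s) x
    have hpow : ∀ j : ℕ, s ^ j • s • x = s ^ (j + 1) • x := by
      intro j
      rw [← mul_smul, ← pow_succ]
    simp only [mem_ofPred_eq, hM, hpow]
    constructor
    · rintro ⟨j, hj, h⟩ ⟨j', hj', h'⟩
      have := (huniq x (j + 1) j' (h.trans h'.symm)).2 hj'
      rw [Nat.even_add_one] at this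
      exact this hj
    · intro hno
      obtain ⟨j, hj⟩ := hex x
      have hodd : ¬ Even j := fun he => hno ⟨j, he, hj⟩
      rcases j with _ | j
      · exact absurd (by simp) hodd
      · rw [Nat.even_add_one, not_not] at hodd
        exact ⟨j, hodd, hj⟩

/-- Conjugates of `k` by powers of `g` stay in `K`. -/
def TypeP (g : Γ) (K : Subgroup Γ) (k : Γ) : Prop := ∀ n : ℤ, g ^ n * k * g ^ (-n) ∈ K

/-- The elements `g ^ n * k * g ^ n` stay in `K`. -/
def TypeM (g : Γ) (K : Subgroup Γ) (k : Γ) : Prop := ∀ n : ℤ, g ^ n * k * g ^ n ∈ K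

/-- Every element of `K` has one of the two types. -/
def Twist (g : Γ) (K : Subgroup Γ) : Prop := ∀ k ∈ K, TypeP g K k ∨ TypeM g K k

theorem TypeP.mem {g : Γ} {K : Subgroup Γ} {k : Γ} (h : TypeP g K k) : k ∈ K := by
  simpa using h 0

theorem TypeM.mem {g : Γ} {K : Subgroup Γ} {k : Γ} (h : TypeM g K k) : k ∈ K := by
  simpa using h 0

theorem TypeP.conj {g : Γ} {K : Subgroup Γ} {k : Γ} (h : TypeP g K k) (m : ℤ) :
    TypeP g K (g ^ m * k * g ^ (-m)) := by
  intro n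
  have := h (n + m)
  convert this using 1
  rw [zpow_add, neg_add_rev, zpow_add]
  group

theorem TypeM.conj {g : Γ} {K : Subgroup Γ} {k : Γ} (h : TypeM g K k) (m : ℤ) :
    TypeM g K (g ^ m * k * g ^ m) := by
  intro n
  have := h (n + m)
  convert this using 1
  have e : g ^ (n + m) = g ^ n * g ^ m := zpow_add g n m
  have e' : g ^ (n + m) = g ^ m * g ^ n := by rw [add_comm, zpow_add]
  calc g ^ n * (g ^ m * k * g ^ m) * g ^ n = (g ^ n * g ^ m) * k * (g ^ m * g ^ n) := by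
        simp only [mul_assoc]
    _ = g ^ (n + m) * k * g ^ (n + m) := by rw [← e, ← e']

/-- An element of infinite order has no nonzero power in a finite subgroup. -/
theorem zpow_mem_finite {g : Γ} {K : Subgroup Γ} [Finite K] (hg : ¬ IsOfFinOrder g) {j : ℤ}
    (h : g ^ j ∈ K) : j = 0 := by
  have h1 : IsOfFinOrder (⟨g ^ j, h⟩ : K) := isOfFinOrder_of_finite _
  obtain ⟨n, hn, hn1⟩ := isOfFinOrder_iff_pow_eq_one.1 h1
  have h2 : (g ^ j) ^ n = 1 := by
    have := congrArg (Subtype.val) hn1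
    simpa using this
  have h3 : g ^ (j * n) = g ^ (0 : ℤ) := by
    rw [zpow_mul, zpow_natCast, h2, zpow_zero]
  have h4 : j * n = 0 := (injective_zpow_iff_not_isOfFinOrder.2 hg) h3
  rcases mul_eq_zero.1 h4 with h5 | h5
  · exact h5
  · omega

theorem exists_alt (hmeas : ∀ γ : Γ, Measurable fun x : X => γ • x)
    (hfree : ∀ (γ : Γ) (x : X), γ • x = x → γ = 1) {g : Γ} {K : Subgroup Γ} [Finite K]
    (hg : ¬ IsOfFinOrder g) {A : Set X} (hA : MeasurableSet A)
    (hP : ∀ k, TypeP g K k → ∀ x : X, k • x ∈ A ↔ x ∈ A)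
    (hM : ∀ k, TypeM g K k → ∀ x : X, k • x ∈ A ↔ g⁻¹ • x ∈ A)
    (h2 : ∀ x, ¬ (x ∈ A ∧ g⁻¹ • x ∈ A)) (hne : ∀ x : X, ∃ n : ℤ, g ^ n • x ∈ A) :
    ∃ E : Set X, MeasurableSet E ∧ (∀ x, x ∉ A → (g • x ∈ E ↔ x ∉ E)) ∧
      (∀ k, TypeP g K k → ∀ x, k • x ∈ E ↔ x ∈ E) ∧
      (∀ k, TypeM g K k → ∀ x, k • x ∈ E ↔ x ∉ E) := by
  have hinj : ∀ x : X, Function.Injective fun n : ℤ => orbMin K (g ^ n • x) := by
    intro x n m h
    obtain ⟨k, hk, hkx⟩ := orbMin_eq K h
    have h3 : k * g ^ n = g ^ m := by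
      rw [← mul_smul] at hkx
      have : ((g ^ m)⁻¹ * (k * g ^ n)) • x = x := by rw [mul_smul, hkx, inv_smul_smul]
      exact (inv_mul_eq_one.mp (hfree _ _ this)).symm
    have h4 : k = g ^ (m - n) := by
      rw [zpow_sub, ← h3, mul_inv_cancel_right]
    have := zpow_mem_finite hg (h4 ▸ hk)
    omega
  have hne' : ∀ x : X, {n : ℤ | g ^ n • x ∈ A}.Nonempty := fun x => hne x
  have h0 : ∀ x : X, ¬ ((0 : ℤ) ∈ {n : ℤ | g ^ n • x ∈ A} ∧ (-1 : ℤ) ∈ {n : ℤ | g ^ n • x ∈ A}) := by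
    rintro x ⟨ha, hb⟩
    exact h2 x ⟨by simpa using ha, by simpa using hb⟩
  refine ⟨{x | Alt {n : ℤ | g ^ n • x ∈ A} (fun n => orbMin K (g ^ n • x))}, ?_, ?_, ?_, ?_⟩
  · -- measurability
    have mA : ∀ n : ℤ, Measurable fun x : X => g ^ n • x ∈ A := by
      intro n
      exact measurableSet_setOfPred.1 ((hmeas (g ^ n)) hA)
    have mO : ∀ n : ℤ, Measurable fun x : X => orbMin K (g ^ n • x) := fun n =>
      (measurable_orbMin hmeas K).comp (hmeas _)
    have mlt : ∀ n m : ℤ, Measurable fun x : X =>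
        orbMin K (g ^ n • x) < orbMin K (g ^ m • x) := by
      intro n m
      exact measurableSet_setOfPred.1 (measurableSet_lt (mO n) (mO m))
    have mR : ∀ n : ℕ, Measurable fun x : X => FirstR {n : ℤ | g ^ n • x ∈ A} n := by
      intro n
      unfold FirstR
      simp only [mem_ofPred_eq]
      exact (mA _).and (Measurable.forall fun m => Measurable.imp measurable_const (mA _).not)
    have mL : ∀ n : ℕ, Measurable fun x : X => FirstL {n : ℤ | g ^ n • x ∈ A} n := by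
      intro n
      unfold FirstL
      simp only [mem_ofPred_eq]
      exact (mA _).and (Measurable.forall fun m => Measurable.imp measurable_const (mA _).not)
    rw [measurableSet_setOfPred]
    unfold Alt ChR ChL
    refine Measurable.or ?_ ?_
    · refine Measurable.exists fun n => measurable_const.and ((mR n).and ?_)
      exact Measurable.forall fun m => (mL m).imp (mlt _ _)
    · refine Measurable.exists fun n => measurable_const.and ((mL n).and ?_)
      exact Measurable.forall fun m => (mR m).imp (mlt _ _)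
  · intro x hx
    refine alt_shift (A := {n : ℤ | g ^ n • x ∈ A}) ?_ ?_ (hne' x) ?_ (hinj x)
    · intro n
      simp only [mem_ofPred_eq]
      rw [← mul_smul, ← zpow_add_one]
    · intro n
      rw [← mul_smul, ← zpow_add_one]
    · simpa using hx
  · intro k hk x
    have e : ∀ n : ℤ, g ^ n • k • x = (g ^ n * k * g ^ (-n)) • g ^ n • x := by
      intro n
      rw [← mul_smul, ← mul_smul, zpow_neg, inv_mul_cancel_right]
    have e1 : {n : ℤ | g ^ n • k • x ∈ A} = {n : ℤ | g ^ n • x ∈ A} := by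
      ext n
      simp only [mem_ofPred_eq]
      rw [e n, hP _ (hk.conj n)]
    have e2 : (fun n : ℤ => orbMin K (g ^ n • k • x)) = fun n : ℤ => orbMin K (g ^ n • x) := by
      funext n
      rw [e n, orbMin_smul K (hk n)]
    simp only [mem_ofPred_eq]
    rw [e1, e2]
  · intro k hk x
    have e : ∀ n : ℤ, g ^ n • k • x = (g ^ n * k * g ^ n) • g ^ (-n) • x := by
      intro n
      rw [← mul_smul, ← mul_smul, zpow_neg, mul_inv_cancel_right]
    refine alt_refl (A := {n : ℤ | g ^ n • x ∈ A}) ?_ ?_ (hne' x) (h0 x) (hinj x)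
    · intro n
      simp only [mem_ofPred_eq]
      rw [e n, hM _ (hk.conj n), ← mul_smul]
      have : g⁻¹ * g ^ (-n) = g ^ (-n - 1) := by
        rw [zpow_sub_one, ← zpow_neg_one, ← zpow_add, ← zpow_add, add_comm]
      rw [this]
    · intro n
      rw [e n, orbMin_smul K (hk n)]

end Orbit

section Zones

variable {Γ : Type u} [Group Γ] {X : Type v} [MulAction Γ X]

/-- The points from which `U` can be reached by an element of `F ^ n`. -/
def zone (F : Set Γ) (U : Set X) (n : ℕ) : Set X := {x | ∃ γ ∈ F ^ n, γ • x ∈ U}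

theorem zone_zero (F : Set Γ) (U : Set X) : zone F U 0 = U := by
  ext x
  simp [zone]

theorem zone_of_smul {F : Set Γ} {U : Set X} {n : ℕ} {δ : Γ} (hδ : δ ∈ F) {x : X}
    (h : δ • x ∈ zone F U n) : x ∈ zone F U (n + 1) := by
  obtain ⟨γ, hγ, hx⟩ := h
  refine ⟨γ * δ, ?_, by rwa [mul_smul]⟩
  rw [pow_succ]
  exact Set.mul_mem_mul hγ hδ

theorem zone_succ {F : Set Γ} (h1 : (1 : Γ) ∈ F) (U : Set X) (n : ℕ) :
    zone F U n ⊆ zone F U (n + 1) := fun x hx => zone_of_smul h1 (by rwa [one_smul])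

theorem zone_mono {F : Set Γ} (h1 : (1 : Γ) ∈ F) (U : Set X) {n m : ℕ} (h : n ≤ m) :
    zone F U n ⊆ zone F U m := by
  induction m, h using Nat.le_induction with
  | base => exact subset_rfl
  | succ m _ ih => exact ih.trans (zone_succ h1 U m)

theorem smul_zone {F : Set Γ} (hinv : ∀ γ ∈ F, γ⁻¹ ∈ F) {U : Set X} {n : ℕ} {δ : Γ} (hδ : δ ∈ F)
    {x : X} (h : x ∈ zone F U n) : δ • x ∈ zone F U (n + 1) :=
  zone_of_smul (hinv δ hδ) (by rwa [inv_smul_smul])

theorem finite_pow {F : Set Γ} (hF : F.Finite) (n : ℕ) : (F ^ n).Finite := by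
  induction n with
  | zero => simp
  | succ n ih => rw [pow_succ]; exact ih.mul hF

theorem measurable_zone [MeasurableSpace X] (hmeas : ∀ γ : Γ, Measurable fun x : X => γ • x)
    {F : Set Γ} (hF : F.Finite) {U : Set X} (hU : MeasurableSet U) (n : ℕ) :
    MeasurableSet (zone F U n) := by
  have : zone F U n = ⋃ γ ∈ F ^ n, (fun x : X => γ • x) ⁻¹' U := by
    ext x
    simp [zone]
  rw [this]
  exact MeasurableSet.biUnion (finite_pow hF n).countable fun γ _ => hmeas γ hU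

/-- The `K`-saturation. -/
def sat (K : Subgroup Γ) (Z : Set X) : Set X := {x | ∃ k ∈ K, k • x ∈ Z}

/-- `K`-invariance. -/
def Inv (K : Subgroup Γ) (V : Set X) : Prop := ∀ k ∈ K, ∀ x : X, k • x ∈ V ↔ x ∈ V

theorem sat_inv (K : Subgroup Γ) (Z : Set X) : Inv K (sat K Z) := by
  intro k hk x
  constructor
  · rintro ⟨j, hj, h⟩
    exact ⟨j * k, K.mul_mem hj hk, by rwa [mul_smul]⟩
  · rintro ⟨j, hj, h⟩
    exact ⟨j * k⁻¹, K.mul_mem hj (K.inv_mem hk), by rwa [mul_smul, inv_smul_smul]⟩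

theorem measurable_sat [MeasurableSpace X] (hmeas : ∀ γ : Γ, Measurable fun x : X => γ • x)
    (K : Subgroup Γ) [Finite K] {Z : Set X} (hZ : MeasurableSet Z) : MeasurableSet (sat K Z) := by
  have : sat K Z = ⋃ k ∈ (K : Set Γ), (fun x : X => k • x) ⁻¹' Z := by
    ext x
    simp [sat]
  rw [this]
  exact MeasurableSet.biUnion (Set.toFinite _).countable fun γ _ => hmeas γ hZ

/-- Remove the isolated points along the `g`-lines. -/
def opn (g : Γ) (V : Set X) : Set X := {x | x ∈ V ∧ (g • x ∈ V ∨ g⁻¹ • x ∈ V)}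

/-- Fill the isolated gaps along the `g`-lines. -/
def clo (g : Γ) (V : Set X) : Set X := {x | x ∈ V ∨ (g • x ∈ V ∧ g⁻¹ • x ∈ V)}

theorem measurable_opn [MeasurableSpace X] (hmeas : ∀ γ : Γ, Measurable fun x : X => γ • x)
    (g : Γ) {V : Set X} (hV : MeasurableSet V) : MeasurableSet (opn g V) :=
  hV.inter ((hmeas g hV).union (hmeas g⁻¹ hV))

theorem measurable_clo [MeasurableSpace X] (hmeas : ∀ γ : Γ, Measurable fun x : X => γ • x)
    (g : Γ) {V : Set X} (hV : MeasurableSet V) : MeasurableSet (clo g V) :=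
  hV.union ((hmeas g hV).inter (hmeas g⁻¹ hV))

theorem Inv.typeP {K : Subgroup Γ} {V : Set X} (hV : Inv K V) {g k : Γ} (hk : TypeP g K k)
    (x : X) : (g • k • x ∈ V ↔ g • x ∈ V) ∧ (g⁻¹ • k • x ∈ V ↔ g⁻¹ • x ∈ V) := by
  have h1 := hk 1
  have h2 := hk (-1)
  simp only [zpow_one, zpow_neg, neg_neg, Int.reduceNeg] at h1 h2
  constructor
  · have e : g • k • x = (g * k * g⁻¹) • g • x := by
      rw [← mul_smul, ← mul_smul, inv_mul_cancel_right]
    rw [e]; exact hV _ h1 _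
  · have e : g⁻¹ • k • x = (g⁻¹ * k * g) • g⁻¹ • x := by
      rw [← mul_smul, ← mul_smul, mul_inv_cancel_right]
    rw [e]; exact hV _ h2 _

theorem Inv.typeM {K : Subgroup Γ} {V : Set X} (hV : Inv K V) {g k : Γ} (hk : TypeM g K k)
    (x : X) : (g • k • x ∈ V ↔ g⁻¹ • x ∈ V) ∧ (g⁻¹ • k • x ∈ V ↔ g • x ∈ V) := by
  have h1 := hk 1
  have h2 := hk (-1)
  simp only [zpow_one, zpow_neg, Int.reduceNeg] at h1 h2
  constructor
  · have e : g • k • x = (g * k * g) • g⁻¹ • x := by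
      rw [← mul_smul, ← mul_smul, mul_inv_cancel_right]
    rw [e]; exact hV _ h1 _
  · have e : g⁻¹ • k • x = (g⁻¹ * k * g⁻¹) • g • x := by
      rw [← mul_smul, ← mul_smul, inv_mul_cancel_right]
    rw [e]; exact hV _ h2 _

theorem Inv.opn {K : Subgroup Γ} {V : Set X} (hV : Inv K V) {g : Γ} (hK : Twist g K) :
    Inv K (opn g V) := by
  intro k hk x
  have h0 := hV k hk x
  rcases hK k hk with h | h
  · have := hV.typeP h x
    simp only [MP1822V.opn, mem_ofPred_eq, h0, this.1, this.2]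
  · have := hV.typeM h x
    simp only [MP1822V.opn, mem_ofPred_eq, h0, this.1, this.2]
    tauto

theorem Inv.clo {K : Subgroup Γ} {V : Set X} (hV : Inv K V) {g : Γ} (hK : Twist g K) :
    Inv K (clo g V) := by
  intro k hk x
  have h0 := hV k hk x
  rcases hK k hk with h | h
  · have := hV.typeP h x
    simp only [MP1822V.clo, mem_ofPred_eq, h0, this.1, this.2]
  · have := hV.typeM h x
    simp only [MP1822V.clo, mem_ofPred_eq, h0, this.1, this.2]
    tauto

/-- The boundary set. -/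
def bdry (g : Γ) (W : Set X) : Set X := {x | ¬(x ∈ W ↔ g • x ∈ W)}

theorem measurable_bdry [MeasurableSpace X] (hmeas : ∀ γ : Γ, Measurable fun x : X => γ • x)
    (g : Γ) {W : Set X} (hW : MeasurableSet W) : MeasurableSet (bdry g W) := by
  have h1 : Measurable fun x : X => x ∈ W := measurableSet_setOfPred.1 hW
  have h2 : Measurable fun x : X => g • x ∈ W := measurableSet_setOfPred.1 (hmeas g hW)
  exact measurableSet_setOfPred.2 (h1.iff h2).not

theorem bdry_two (g : Γ) (V : Set X) (x : X) :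
    ¬ (x ∈ bdry g (clo g (opn g V)) ∧ g⁻¹ • x ∈ bdry g (clo g (opn g V))) := by
  rintro ⟨h1, h2⟩
  unfold bdry at h1 h2
  rw [mem_ofPred_eq] at h1
  rw [mem_ofPred_eq, smul_inv_smul] at h2
  by_cases hx : x ∈ clo g (opn g V)
  · have g1 : g • x ∉ clo g (opn g V) := fun h => h1 (iff_of_true hx h)
    have g2 : g⁻¹ • x ∉ clo g (opn g V) := fun h => h2 (iff_of_true h hx)
    have o1 : g • x ∉ opn g V := fun h => g1 (Or.inl h)
    have o2 : g⁻¹ • x ∉ opn g V := fun h => g2 (Or.inl h)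
    have o : x ∈ opn g V := hx.resolve_right fun h => o1 h.1
    obtain ⟨hv, hv1 | hv2⟩ := o
    · exact o1 ⟨hv1, Or.inr (by rwa [inv_smul_smul])⟩
    · exact o2 ⟨hv2, Or.inl (by rwa [smul_inv_smul])⟩
  · have g1 : g • x ∈ clo g (opn g V) := by
      by_contra h
      exact h1 (iff_of_false hx h)
    have g2 : g⁻¹ • x ∈ clo g (opn g V) := by
      by_contra h
      exact h2 (iff_of_false h hx)
    have o : x ∉ opn g V := fun h => hx (Or.inl h)
    have o1 : g • x ∈ opn g V := g1.resolve_right fun h => o (by simpa using h.2)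
    have o2 : g⁻¹ • x ∈ opn g V := g2.resolve_right fun h => o (by simpa using h.1)
    exact hx (Or.inr ⟨o1, o2⟩)

theorem bdry_typeP {K : Subgroup Γ} {W : Set X} (hW : Inv K W) {g k : Γ} (hk : TypeP g K k)
    (x : X) : k • x ∈ bdry g W ↔ x ∈ bdry g W := by
  have h0 := hW k hk.mem x
  have := hW.typeP hk x
  simp only [bdry, mem_ofPred_eq, h0, this.1]

theorem bdry_typeM {K : Subgroup Γ} {W : Set X} (hW : Inv K W) {g k : Γ} (hk : TypeM g K k)
    (x : X) : k • x ∈ bdry g W ↔ g⁻¹ • x ∈ bdry g W := by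
  have h0 := hW k hk.mem x
  have := hW.typeM hk x
  simp only [bdry, mem_ofPred_eq, h0, this.1, smul_inv_smul]
  tauto

/-- The boundary of `W = clo (opn V)` is near the boundary of the zone. -/
theorem bdry_zone {F : Set Γ} (h1 : (1 : Γ) ∈ F) (hinv : ∀ γ ∈ F, γ⁻¹ ∈ F) {U V : Set X} {p : ℕ}
    {g : Γ} (hg : g ∈ F) (hV1 : zone F U (p + 2) ⊆ V) (hV2 : V ⊆ zone F U (p + 3)) {x : X}
    (hx : x ∈ bdry g (clo g (opn g V)) ∨ g⁻¹ • x ∈ bdry g (clo g (opn g V))) :
    x ∈ zone F U (p + 5) ∧ x ∉ zone F U p := by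
  have hgi := hinv g hg
  have hW : ∀ y, y ∈ clo g (opn g V) → ∃ ε ∈ F, ε • y ∈ V := by
    intro y hy
    rcases hy with h | h
    · exact ⟨1, h1, by rw [one_smul]; exact h.1⟩
    · exact ⟨g, hg, h.1.1⟩
  have hW' : ∀ y, y ∉ clo g (opn g V) → ∃ ε ∈ F, ε • y ∉ V := by
    intro y hy
    by_contra hcon
    push Not at hcon
    have a1 := hcon 1 h1
    rw [one_smul] at a1
    exact hy (Or.inl ⟨a1, Or.inl (hcon g hg)⟩)
  have key : (∃ δ ∈ F, δ • x ∈ clo g (opn g V)) ∧ (∃ δ ∈ F, δ • x ∉ clo g (opn g V)) := by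
    rcases hx with h | h
    · unfold bdry at h
      rw [mem_ofPred_eq] at h
      by_cases hxW : x ∈ clo g (opn g V)
      · exact ⟨⟨1, h1, by rwa [one_smul]⟩, ⟨g, hg, fun h' => h (iff_of_true hxW h')⟩⟩
      · exact ⟨⟨g, hg, by by_contra h'; exact h (iff_of_false hxW h')⟩, ⟨1, h1, by rwa [one_smul]⟩⟩
    · unfold bdry at h
      rw [mem_ofPred_eq, smul_inv_smul] at h
      by_cases hxW : x ∈ clo g (opn g V)
      · exact ⟨⟨1, h1, by rwa [one_smul]⟩, ⟨g⁻¹, hgi, fun h' => h (iff_of_true h' hxW)⟩⟩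
      · exact ⟨⟨g⁻¹, hgi, by by_contra h'; exact h (iff_of_false h' hxW)⟩,
          ⟨1, h1, by rwa [one_smul]⟩⟩
  obtain ⟨⟨δ, hδ, hδW⟩, ⟨δ', hδ', hδW'⟩⟩ := key
  constructor
  · obtain ⟨ε, hε, hεV⟩ := hW _ hδW
    exact zone_of_smul hδ (zone_of_smul hε (hV2 hεV))
  · intro hxz
    obtain ⟨ε, hε, hεV⟩ := hW' _ hδW'
    exact hεV (hV1 (smul_zone hinv hε (smul_zone hinv hδ' hxz)))

/-- Every `g`-line crosses the boundary. -/
theorem bdry_cross {F : Set Γ} (h1 : (1 : Γ) ∈ F) (hinv : ∀ γ ∈ F, γ⁻¹ ∈ F) {U V : Set X} {p : ℕ}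
    {g : Γ} (hg : g ∈ F) (hV1 : zone F U (p + 2) ⊆ V) (hV2 : V ⊆ zone F U (p + 3))
    (hU1 : ∀ x : X, ∃ n : ℕ, g ^ n • x ∈ U)
    (hU2 : ∀ x : X, ∃ n : ℕ, g ^ n • x ∉ zone F U (p + 4)) (x : X) :
    ∃ n : ℤ, g ^ n • x ∈ bdry g (clo g (opn g V)) := by
  by_contra hcon
  push Not at hcon
  have hstep : ∀ n : ℕ, (g ^ n • x ∈ clo g (opn g V) ↔ x ∈ clo g (opn g V)) := by
    intro n
    induction n with
    | zero => simp
    | succ n ih =>
      have := hcon n
      unfold bdry at this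
      rw [mem_ofPred_eq, not_not, zpow_natCast, ← mul_smul, ← pow_succ'] at this
      rw [← this, ih]
  obtain ⟨a, ha⟩ := hU1 x
  obtain ⟨b, hb⟩ := hU2 x
  have ha' : g ^ a • x ∈ clo g (opn g V) := by
    left
    refine ⟨hV1 ?_, Or.inl (hV1 ?_)⟩
    · exact zone_mono h1 U (by omega) (by rw [zone_zero]; exact ha : g ^ a • x ∈ zone F U 0)
    · exact zone_mono h1 U (by omega)
        (smul_zone hinv hg (by rw [zone_zero]; exact ha : g ^ a • x ∈ zone F U 0))
  have hb' : g ^ b • x ∉ clo g (opn g V) := by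
    have hb0 : g ^ b • x ∉ V := fun h => hb (zone_succ h1 U _ (hV2 h))
    have hb1 : g • g ^ b • x ∉ V := fun h => hb (zone_of_smul hg (hV2 h))
    rintro (h | h)
    · exact hb0 h.1
    · exact hb1 h.1.1
  exact hb' ((hstep b).2 ((hstep a).1 ha'))

end Zones

section Asi2

variable {Γ : Type u} [Group Γ] {S : Finset Γ} {X : Type v} [MulAction Γ X]

theorem injective_orbit (hfree : ∀ (γ : Γ) (x : X), γ • x = x → γ = 1) {g : Γ}
    (hg : ¬ IsOfFinOrder g) (x : X) : Function.Injective fun n : ℕ => g ^ n • x := by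
  intro n m h
  have h1 : g ^ n = g ^ m := smul_left_cancel_free hfree h
  exact (injective_pow_iff_not_isOfFinOrder.2 hg) h1

/-- All the zones needed. -/
theorem exists_zones [MeasurableSpace X] (hsymm : ∀ g ∈ S, g⁻¹ ∈ S)
    (hgen : Subgroup.closure (S : Set Γ) = ⊤) (hfree : ∀ (γ : Γ) (x : X), γ • x = x → γ = 1)
    (hasi : BorelAsiLe (schreierGraph S X) 1)
    {F : Set Γ} (hF : F.Finite) (Q : ℕ) :
    ∃ U : Set X, MeasurableSet U ∧ ∀ g ∈ F, ¬ IsOfFinOrder g →
      (∀ x : X, ∃ n : ℕ, g ^ n • x ∈ U) ∧ (∀ x : X, ∃ n : ℕ, g ^ n • x ∉ zone F U Q) := by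
  have hfin := finite_pow hF Q
  obtain ⟨U, hUm, hU⟩ := asi_seq (X := X) hsymm hgen hasi
    (F := F ∪ (F ^ Q * F) * (F ^ Q)⁻¹) (hF.union ((hfin.mul hF).mul hfin.inv))
  refine ⟨U, hUm, fun g hg hgo => ⟨fun x => ?_, fun x => ?_⟩⟩
  · by_contra hcon
    push Not at hcon
    have := hU (fun n => g ^ n • x) (fun n => ⟨g, Or.inl hg, by
      rw [← mul_smul, ← pow_succ']⟩) (Or.inr hcon)
    exact (infinite_range_of_injective (injective_orbit hfree hgo x)) this
  · by_contra hcon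
    push Not at hcon
    have hcon' : ∀ n : ℕ, ∃ γ ∈ F ^ Q, γ • g ^ n • x ∈ U := hcon
    choose c hc hcU using hcon'
    have h2 := hU (fun n => c n • g ^ n • x) (fun n => ⟨c (n + 1) * g * (c n)⁻¹, Or.inr
      (Set.mul_mem_mul (Set.mul_mem_mul (hc _) hg) (Set.inv_mem_inv.2 (hc n))), by
      rw [mul_smul, inv_smul_smul, mul_smul, ← mul_smul g, ← pow_succ']⟩) (Or.inl hcU)
    have h3 : (⋃ γ ∈ F ^ Q, (fun y : X => γ⁻¹ • y) '' (range fun n => c n • g ^ n • x)).Finite :=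
      hfin.biUnion fun γ _ => h2.image _
    refine (infinite_range_of_injective (injective_orbit hfree hgo x)) (h3.subset ?_)
    rintro _ ⟨n, rfl⟩
    refine mem_biUnion (hc n) ⟨c n • g ^ n • x, ⟨n, rfl⟩, ?_⟩
    simp

end Asi2

section Assembly

/-- A function with values in `Γ` which depends only on the membership in finitely many
measurable sets has measurable fibres. -/
theorem measurable_fibre {Γ : Type u} {S : Finset Γ} {X : Type v} [MeasurableSpace X]
    {B E : Γ → Set X}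
    (hBm : ∀ γ ∈ S, MeasurableSet (B γ)) (hEm : ∀ γ ∈ S, MeasurableSet (E γ)) (f : X → Γ)
    (hf : ∀ x y : X, (∀ γ ∈ S, x ∈ B γ ↔ y ∈ B γ) → (∀ γ ∈ S, x ∈ E γ ↔ y ∈ E γ) → f x = f y)
    (δ : Γ) : MeasurableSet {x | f x = δ} := by
  let τ : X → (S → Prop) × (S → Prop) := fun x => (fun γ => x ∈ B γ, fun γ => x ∈ E γ)
  have hτ : Measurable τ := by
    refine Measurable.prodMk ?_ ?_
    · exact measurable_pi_lambda _ fun γ => measurableSet_setOfPred.1 (hBm γ γ.2)
    · exact measurable_pi_lambda _ fun γ => measurableSet_setOfPred.1 (hEm γ γ.2)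
  have : {x | f x = δ} = τ ⁻¹' (τ '' {x | f x = δ}) := by
    apply Set.Subset.antisymm (subset_preimage_image _ _)
    rintro x ⟨y, hy, hyx⟩
    have h1 : (fun γ : S => y ∈ B γ) = fun γ : S => x ∈ B γ := congrArg Prod.fst hyx
    have h2 : (fun γ : S => y ∈ E γ) = fun γ : S => x ∈ E γ := congrArg Prod.snd hyx
    have h3 := hf y x (fun γ hγ => Eq.to_iff (congrFun h1 ⟨γ, hγ⟩))
      (fun γ hγ => Eq.to_iff (congrFun h2 ⟨γ, hγ⟩))
    rw [mem_ofPred_eq] at hy ⊢
    rw [← h3, hy]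
  rw [this]
  exact hτ (Set.toFinite _).measurableSet

variable {Γ : Type u} [Group Γ] {S : Finset Γ} {X : Type v}

open Classical in
/-- The basic colour of the directed edge `(x, γ • x)`. -/
noncomputable def bet (E : Γ → Set X) (γ : Γ) (x : X) : Γ := if x ∈ E γ then γ else γ⁻¹

theorem bet_cases (E : Γ → Set X) (γ : Γ) (x : X) : bet E γ x = γ ∨ bet E γ x = γ⁻¹ := by
  unfold bet
  split_ifs
  · exact Or.inl rfl
  · exact Or.inr rfl

theorem bet_inv {E : Γ → Set X} {γ : Γ} (h : E γ⁻¹ = E γ) (x : X) :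
    bet E γ⁻¹ x = (bet E γ x)⁻¹ := by
  unfold bet
  rw [h]
  split_ifs
  · rfl
  · rfl

theorem bet_fin (E : Γ → Set X) (γ : Γ) (x : X) :
    IsOfFinOrder (bet E γ x) ↔ IsOfFinOrder γ := by
  rcases bet_cases E γ x with h | h
  · rw [h]
  · rw [h, isOfFinOrder_inv_iff]

theorem bet_inj {E : Γ → Set X} (D2 : ∀ γ ∈ S, E γ⁻¹ = E γ) {x : X}
    {γ δ : Γ} (hγ : γ ∈ S) (h : bet E γ x = bet E δ x) : γ = δ := by
  have h1 : δ = γ ∨ δ = γ⁻¹ := by
    rcases bet_cases E γ x with h1 | h1 <;> rcases bet_cases E δ x with h2 | h2 <;>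
      rw [h1, h2] at h
    · exact Or.inl h.symm
    · right; rw [h, inv_inv]
    · exact Or.inr h.symm
    · exact Or.inl (inv_injective h).symm
  rcases h1 with h1 | h1
  · exact h1.symm
  · have h2 : bet E γ x = (bet E γ x)⁻¹ := by
      rw [← bet_inv (D2 γ hγ), ← h1]
      exact h
    have h3 : γ = γ⁻¹ := by
      rcases bet_cases E γ x with h3 | h3
      · rwa [h3] at h2
      · rw [h3, inv_inv] at h2; exact h2.symm
    rw [h1]; exact h3

open Classical in
/-- The swap at `x`. -/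
noncomputable def sw (S : Finset Γ) (B E : Γ → Set X) (s : Γ → Γ) (x : X) : Equiv.Perm Γ :=
  if h : ∃ δ ∈ S, x ∈ B δ then Equiv.swap (s h.choose) (bet E h.choose x) else 1

open Classical in
theorem sw_of {B E : Γ → Set X} {s : Γ → Γ}
    (D4 : ∀ x, ∀ γ ∈ S, ∀ δ ∈ S, x ∈ B γ → x ∈ B δ → γ = δ) {x : X} {δ : Γ} (hδ : δ ∈ S)
    (hx : x ∈ B δ) : sw S B E s x = Equiv.swap (s δ) (bet E δ x) := by
  have h : ∃ δ ∈ S, x ∈ B δ := ⟨δ, hδ, hx⟩
  unfold sw
  rw [dif_pos h]
  have := D4 x _ h.choose_spec.1 _ hδ h.choose_spec.2 hx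
  rw [this]

theorem sw_not {B E : Γ → Set X} {s : Γ → Γ} {x : X} (h : ¬ ∃ δ ∈ S, x ∈ B δ) :
    sw S B E s x = 1 := by
  unfold sw
  rw [dif_neg h]

theorem assemble [MulAction Γ X] [MeasurableSpace X]
    (hsymm : ∀ g ∈ S, g⁻¹ ∈ S) (B E : Γ → Set X) (s : Γ → Γ)
    (hBm : ∀ γ ∈ S, MeasurableSet (B γ)) (hEm : ∀ γ ∈ S, MeasurableSet (E γ))
    (hBfin : ∀ γ ∈ S, IsOfFinOrder γ → B γ = ∅)
    (hs : ∀ γ ∈ S, ¬ IsOfFinOrder γ → s γ ∈ S ∧ IsOfFinOrder (s γ) ∧ s γ⁻¹ = s γ)
    (D1 : ∀ γ ∈ S, ∀ x, x ∈ B γ⁻¹ ↔ γ⁻¹ • x ∈ B γ)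
    (D2 : ∀ γ ∈ S, E γ⁻¹ = E γ)
    (D3 : ∀ γ ∈ S, ∀ x, x ∉ B γ → (γ • x ∈ E γ ↔ x ∉ E γ))
    (D4 : ∀ x, ∀ γ ∈ S, ∀ δ ∈ S, x ∈ B γ → x ∈ B δ → γ = δ)
    (D7 : ∀ γ ∈ S, ∀ x, x ∈ B γ → ∀ t, (t = s γ ∨ t = (s γ)⁻¹) →
      ∃ δ, (δ = γ ∨ δ = γ⁻¹) ∧ t • x ∈ B δ ∧ bet E δ (t • x) = bet E γ x) :
    Pool.Agent.MP1822T.BC X S := by
  classical
  have hinf : ∀ γ ∈ S, ∀ x, x ∈ B γ → ¬ IsOfFinOrder γ := by
    intro γ hγ x hx hfin
    rw [hBfin γ hγ hfin] at hx
    exact hx
  have hbS : ∀ γ ∈ S, ∀ x, bet E γ x ∈ S := by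
    intro γ hγ x
    rcases bet_cases E γ x with h | h
    · rwa [h]
    · rw [h]; exact hsymm γ hγ
  have hD3 : ∀ γ ∈ S, ∀ x, x ∉ B γ → bet E γ⁻¹ (γ • x) = bet E γ x := by
    intro γ hγ x hx
    have := D3 γ hγ x hx
    unfold bet
    rw [D2 γ hγ]
    by_cases hxE : x ∈ E γ
    · have h2 : γ • x ∉ E γ := fun h => (this.1 h) hxE
      rw [if_neg h2, if_pos hxE, inv_inv]
    · have h2 : γ • x ∈ E γ := this.2 hxE
      rw [if_pos h2, if_neg hxE]
  -- the colour of unborrowed edges of infinite order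
  have c1 : ∀ γ ∈ S, ¬ IsOfFinOrder γ → ∀ x, x ∉ B γ → sw S B E s x (bet E γ x) = bet E γ x := by
    intro γ hγ hγo x hx
    by_cases h : ∃ δ ∈ S, x ∈ B δ
    · obtain ⟨δ, hδ, hxδ⟩ := h
      rw [sw_of D4 hδ hxδ]
      have hδo := hinf δ hδ x hxδ
      refine Equiv.swap_apply_of_ne_of_ne ?_ ?_
      · intro h2
        have h3 := (bet_fin E γ x).2.mt
        apply hγo
        rw [← bet_fin E γ x, h2]
        exact (hs δ hδ hδo).2.1
      · intro h2
        have := bet_inj D2 hγ h2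
        subst this
        exact hx hxδ
    · rw [sw_not h]; rfl
  -- colours of finite order
  have c2 : ∀ (c : Γ) (x : X) (δ : Γ), δ ∈ S → x ∈ B δ → s δ = c →
      sw S B E s x c = bet E δ x := by
    intro c x δ hδ hx hc
    rw [sw_of D4 hδ hx, hc, Equiv.swap_apply_left]
  have c3 : ∀ (c : Γ) (x : X), IsOfFinOrder c → (¬ ∃ δ ∈ S, x ∈ B δ ∧ s δ = c) →
      sw S B E s x c = c := by
    intro c x hc hno
    by_cases h : ∃ δ ∈ S, x ∈ B δ
    · obtain ⟨δ, hδ, hxδ⟩ := h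
      rw [sw_of D4 hδ hxδ]
      refine Equiv.swap_apply_of_ne_of_ne ?_ ?_
      · intro h2
        exact hno ⟨δ, hδ, hxδ, h2.symm⟩
      · intro h2
        have := hinf δ hδ x hxδ
        rw [h2, bet_fin] at hc
        exact this hc
    · rw [sw_not h]; rfl
  have c4 : ∀ (c : Γ) (x : X) (t : Γ), (t = c ∨ t = c⁻¹) → ∀ δ ∈ S, x ∈ B δ → s δ = c →
      ∃ δ' ∈ S, t • x ∈ B δ' ∧ s δ' = c ∧ bet E δ' (t • x) = bet E δ x := by
    intro c x t ht δ hδ hx hc
    obtain ⟨δ', hδ', hB, hb⟩ := D7 δ hδ x hx t (by rwa [hc])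
    refine ⟨δ', ?_, hB, ?_, hb⟩
    · rcases hδ' with h | h
      · rwa [h]
      · rw [h]; exact hsymm δ hδ
    · rcases hδ' with h | h
      · rwa [h]
      · rw [h, (hs δ hδ (hinf δ hδ x hx)).2.2, hc]
  refine ⟨fun γ x => sw S B E s x (bet E γ x), ?_, ?_, ?_, ?_⟩
  · -- measurability
    intro γ hγ
    refine measurable_fibre hBm hEm _ ?_
    intro x y hB hE
    have hb : ∀ δ ∈ S, bet E δ x = bet E δ y := by
      intro δ hδ
      unfold bet
      simp only [hE δ hδ]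
    have hsw : sw S B E s x = sw S B E s y := by
      by_cases h : ∃ δ ∈ S, x ∈ B δ
      · obtain ⟨δ, hδ, hxδ⟩ := h
        rw [sw_of D4 hδ hxδ, sw_of D4 hδ ((hB δ hδ).1 hxδ), hb δ hδ]
      · have h' : ¬ ∃ δ ∈ S, y ∈ B δ := by
          rintro ⟨δ, hδ, hy⟩
          exact h ⟨δ, hδ, (hB δ hδ).2 hy⟩
        rw [sw_not h, sw_not h']
    beta_reduce
    rw [hsw, hb γ hγ]
  · intro γ hγ x
    beta_reduce
    by_cases h : ∃ δ ∈ S, x ∈ B δ
    · obtain ⟨δ, hδ, hxδ⟩ := h
      have hδo := hinf δ hδ x hxδ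
      rw [sw_of D4 hδ hxδ, Equiv.swap_apply_def]
      split_ifs
      · exact hbS δ hδ x
      · exact (hs δ hδ hδo).1
      · exact hbS γ hγ x
    · rw [sw_not h]
      exact hbS γ hγ x
  · intro γ hγ x
    beta_reduce
    by_cases hγo : IsOfFinOrder γ
    · -- finite order
      have hx : x ∉ B γ := by rw [hBfin γ hγ hγo]; exact notMem_empty x
      rw [hD3 γ hγ x hx]
      set c := bet E γ x with hc
      have hcfin : IsOfFinOrder c := (bet_fin E γ x).2 hγo
      have ht1 : γ = c ∨ γ = c⁻¹ := by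
        rcases bet_cases E γ x with h | h
        · left; rw [hc, h]
        · right; rw [hc, h, inv_inv]
      have ht2 : γ⁻¹ = c ∨ γ⁻¹ = c⁻¹ := by
        rcases ht1 with h | h
        · right; rw [h]
        · left; rw [h, inv_inv]
      by_cases h : ∃ δ ∈ S, x ∈ B δ ∧ s δ = c
      · obtain ⟨δ, hδ, hxδ, hsδ⟩ := h
        obtain ⟨δ', hδ', hB', hs', hb'⟩ := c4 c x γ ht1 δ hδ hxδ hsδ
        rw [c2 c x δ hδ hxδ hsδ, c2 c (γ • x) δ' hδ' hB' hs', hb']
      · have h' : ¬ ∃ δ ∈ S, γ • x ∈ B δ ∧ s δ = c := by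
          rintro ⟨δ, hδ, hxδ, hsδ⟩
          obtain ⟨δ', hδ', hB', hs', -⟩ := c4 c (γ • x) γ⁻¹ ht2 δ hδ hxδ hsδ
          rw [inv_smul_smul] at hB'
          exact h ⟨δ', hδ', hB', hs'⟩
        rw [c3 c x hcfin h, c3 c (γ • x) hcfin h']
    · have hγ' := hsymm γ hγ
      by_cases hx : x ∈ B γ
      · have hx' : γ • x ∈ B γ⁻¹ := (D1 γ hγ _).2 (by rwa [inv_smul_smul])
        rw [sw_of D4 hγ hx, sw_of D4 hγ' hx', Equiv.swap_apply_right, Equiv.swap_apply_right]
        exact (hs γ hγ hγo).2.2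
      · have hx' : γ • x ∉ B γ⁻¹ := by
          rw [D1 γ hγ, inv_smul_smul]
          exact hx
        rw [c1 γ hγ hγo x hx, c1 γ⁻¹ hγ' (by rwa [isOfFinOrder_inv_iff]) _ hx', hD3 γ hγ x hx]
  · intro x γ hγ δ hδ h
    exact bet_inj D2 hγ ((sw S B E s x).injective h)

end Assembly

section Main

variable {Γ : Type u} [Group Γ] {S : Finset Γ} {X : Type v} [MeasurableSpace X]
  [StandardBorelSpace X] [MulAction Γ X]

theorem exists_rep (Γ : Type u) [Group Γ] :
    ∃ r : Γ → Γ, (∀ γ, r γ = γ ∨ r γ = γ⁻¹) ∧ ∀ γ, r γ⁻¹ = r γ := by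
  classical
  let _ : LinearOrder Γ := linearOrderOfSTO WellOrderingRel
  refine ⟨fun γ => min γ γ⁻¹, fun γ => min_choice _ _, fun γ => ?_⟩
  simp only [inv_inv]
  exact min_comm _ _

/-- The data attached to one generator of infinite order. -/
theorem per_g (hmeas : ∀ γ : Γ, Measurable fun x : X => γ • x)
    (hfree : ∀ (γ : Γ) (x : X), γ • x = x → γ = 1) {F : Set Γ} (hF : F.Finite)
    (h1 : (1 : Γ) ∈ F) (hinv : ∀ γ ∈ F, γ⁻¹ ∈ F) {U : Set X} (hU : MeasurableSet U) {p : ℕ}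
    {g : Γ} (hg : g ∈ F) (hgo : ¬ IsOfFinOrder g) {K : Subgroup Γ} (hKf : Finite K)
    (hK : Twist g K) (hKF : ∀ k ∈ K, k ∈ F)
    (hU1 : ∀ x : X, ∃ n : ℕ, g ^ n • x ∈ U)
    (hU2 : ∀ x : X, ∃ n : ℕ, g ^ n • x ∉ zone F U (p + 4)) :
    ∃ A E : Set X, MeasurableSet A ∧ MeasurableSet E ∧ (∀ x, ¬ (x ∈ A ∧ g⁻¹ • x ∈ A)) ∧
      (∀ x, (x ∈ A ∨ g⁻¹ • x ∈ A) → x ∈ zone F U (p + 5) ∧ x ∉ zone F U p) ∧
      (∀ x, x ∉ A → (g • x ∈ E ↔ x ∉ E)) ∧
      ∀ k ∈ K, (∀ x, (k • x ∈ A ↔ x ∈ A) ∧ (g⁻¹ • k • x ∈ A ↔ g⁻¹ • x ∈ A) ∧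
          (k • x ∈ E ↔ x ∈ E)) ∨
        (∀ x, (k • x ∈ A ↔ g⁻¹ • x ∈ A) ∧ (g⁻¹ • k • x ∈ A ↔ x ∈ A) ∧
          (k • x ∈ E ↔ x ∉ E)) := by
  set V : Set X := sat K (zone F U (p + 2)) with hVdef
  have hVinv : Inv K V := sat_inv K _
  have hV1 : zone F U (p + 2) ⊆ V := fun x hx => ⟨1, K.one_mem, by rwa [one_smul]⟩
  have hV2 : V ⊆ zone F U (p + 3) := by
    rintro x ⟨k, hk, hx⟩
    exact zone_of_smul (hKF k hk) hx
  have hVm : MeasurableSet V := measurable_sat hmeas K (measurable_zone hmeas hF hU _)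
  set W : Set X := clo g (opn g V) with hWdef
  have hWinv : Inv K W := (hVinv.opn hK).clo hK
  have hWm : MeasurableSet W := measurable_clo hmeas g (measurable_opn hmeas g hVm)
  have hAm : MeasurableSet (bdry g W) := measurable_bdry hmeas g hWm
  have h2 : ∀ x, ¬ (x ∈ bdry g W ∧ g⁻¹ • x ∈ bdry g W) := bdry_two g V
  obtain ⟨E, hEm, hE1, hE2, hE3⟩ := exists_alt hmeas hfree hgo hAm
    (fun k hk x => bdry_typeP hWinv hk x) (fun k hk x => bdry_typeM hWinv hk x) h2
    (bdry_cross h1 hinv hg hV1 hV2 hU1 hU2)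
  refine ⟨bdry g W, E, hAm, hEm, h2, fun x hx => bdry_zone h1 hinv hg hV1 hV2 hx, hE1, ?_⟩
  intro k hk
  rcases hK k hk with h | h
  · left
    intro x
    refine ⟨bdry_typeP hWinv h x, ?_, hE2 k h x⟩
    have e : g⁻¹ • k • x = (g ^ (-1 : ℤ) * k * g ^ (-(-1) : ℤ)) • g⁻¹ • x := by
      rw [← mul_smul, ← mul_smul]
      simp
    rw [e]
    exact bdry_typeP hWinv (h.conj (-1)) _
  · right
    intro x
    refine ⟨bdry_typeM hWinv h x, ?_, hE3 k h x⟩
    have e : g⁻¹ • k • x = (g ^ (-1 : ℤ) * k * g ^ (-1 : ℤ)) • g • x := by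
      rw [← mul_smul, ← mul_smul]
      simp
    rw [e, bdry_typeM hWinv (h.conj (-1)), inv_smul_smul]

open Classical in
/-- The borrowed edges in direction `γ`. -/
noncomputable def bor (S : Finset Γ) (r : Γ → Γ) (A : Γ → Set X) (γ : Γ) : Set X :=
  if γ ∈ S ∧ ¬ IsOfFinOrder γ then (if r γ = γ then A γ else {x | γ • x ∈ A (r γ)}) else ∅

open Classical in
/-- The alternating sets. -/
noncomputable def alts (r : Γ → Γ) (E Ec : Γ → Set X) (γ : Γ) : Set X :=
  if IsOfFinOrder γ then Ec (r γ) else E (r γ)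

theorem ne_inv_of_infinite {γ : Γ} (h : ¬ IsOfFinOrder γ) : γ ≠ γ⁻¹ := by
  intro h'
  apply h
  rw [isOfFinOrder_iff_pow_eq_one]
  refine ⟨2, by norm_num, ?_⟩
  rw [pow_two]
  nth_rewrite 1 [h']
  exact inv_mul_cancel γ

theorem upper_bound {S₀ : Finset Γ} (hsymm₀ : ∀ g ∈ S₀, g⁻¹ ∈ S₀)
    (hgen : Subgroup.closure (S₀ : Set Γ) = ⊤) (hsymm : ∀ g ∈ S, g⁻¹ ∈ S)
    (hodd : ∀ g ∈ S, ¬ Odd (orderOf g)) (hmeas : ∀ γ : Γ, Measurable fun x : X => γ • x)
    (hfree : ∀ (γ : Γ) (x : X), γ • x = x → γ = 1) (hasi : BorelAsiLe (schreierGraph S₀ X) 1)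
    (hL : ∀ g ∈ S, ¬ IsOfFinOrder g → ∃ K : Subgroup Γ, Finite K ∧ Twist g K ∧
      ∃ s ∈ S, s ∈ K) :
    Pool.Agent.MP1822T.BC X S := by
  classical
  obtain ⟨r, hr, hr'⟩ := exists_rep Γ
  choose! K hKf hKt s hsS hsK using hL
  -- the finite symmetric set
  set F : Set Γ := {1} ∪ (S : Set Γ) ∪ ⋃ g ∈ {g | g ∈ S ∧ ¬ IsOfFinOrder g}, (K g : Set Γ)
    with hFdef
  have hF1 : (1 : Γ) ∈ F := Or.inl (Or.inl rfl)
  have hFS : ∀ g ∈ S, g ∈ F := fun g hg => Or.inl (Or.inr hg)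
  have hFK : ∀ g ∈ S, ¬ IsOfFinOrder g → ∀ k ∈ K g, k ∈ F := by
    intro g hg hgo k hk
    exact Or.inr (mem_biUnion (show g ∈ {g | g ∈ S ∧ ¬ IsOfFinOrder g} from ⟨hg, hgo⟩) hk)
  have hFfin : F.Finite := by
    refine ((finite_singleton _).union S.finite_toSet).union ?_
    refine Set.Finite.biUnion (S.finite_toSet.subset fun g hg => hg.1) ?_
    rintro g ⟨hg, hgo⟩
    have := hKf g hg hgo
    exact Set.toFinite _
  have hFinv : ∀ γ ∈ F, γ⁻¹ ∈ F := by
    rintro γ ((h | h) | h)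
    · rw [mem_singleton_iff] at h
      rw [h, inv_one]; exact hF1
    · exact hFS _ (hsymm γ h)
    · obtain ⟨g, ⟨hg, hgo⟩, hγ⟩ := mem_iUnion₂.1 h
      exact hFK g hg hgo _ ((K g).inv_mem hγ)
  -- the indices
  obtain ⟨i, hi⟩ := Set.countable_iff_exists_injOn.1 (S.countable_toSet)
  obtain ⟨U, hUm, hU⟩ := exists_zones hsymm₀ hgen hfree hasi hFfin
    (S.sup fun g => 5 * i g + 4)
  have hper : ∀ g ∈ S, ¬ IsOfFinOrder g →
      ∃ A E : Set X, MeasurableSet A ∧ MeasurableSet E ∧ (∀ x, ¬ (x ∈ A ∧ g⁻¹ • x ∈ A)) ∧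
      (∀ x, (x ∈ A ∨ g⁻¹ • x ∈ A) → x ∈ zone F U (5 * i g + 5) ∧ x ∉ zone F U (5 * i g)) ∧
      (∀ x, x ∉ A → (g • x ∈ E ↔ x ∉ E)) ∧
      ∀ k ∈ K g, (∀ x, (k • x ∈ A ↔ x ∈ A) ∧ (g⁻¹ • k • x ∈ A ↔ g⁻¹ • x ∈ A) ∧
          (k • x ∈ E ↔ x ∈ E)) ∨
        (∀ x, (k • x ∈ A ↔ g⁻¹ • x ∈ A) ∧ (g⁻¹ • k • x ∈ A ↔ x ∈ A) ∧
          (k • x ∈ E ↔ x ∉ E)) := by
    intro g hg hgo
    obtain ⟨hU1, hU2⟩ := hU g (hFS g hg) hgo
    refine per_g hmeas hfree hFfin hF1 hFinv hUm (hFS g hg) hgo (hKf g hg hgo) (hKt g hg hgo)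
      (hFK g hg hgo) hU1 fun x => ?_
    obtain ⟨n, hn⟩ := hU2 x
    refine ⟨n, fun h => hn (zone_mono hF1 U ?_ h)⟩
    exact Finset.le_sup (f := fun g => 5 * i g + 4) hg
  choose! A E hAm hEm hA2 hAz hAE hAK using hper
  have hcyc : ∀ g ∈ S, IsOfFinOrder g → ∃ E : Set X, MeasurableSet E ∧
      ∀ x, g • x ∈ E ↔ x ∉ E := by
    intro g hg hgo
    exact even_cycle hmeas hfree hgo (Nat.not_odd_iff_even.1 (hodd g hg))
  choose! Ec hEcm hEc using hcyc
  have hrS : ∀ γ ∈ S, r γ ∈ S := by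
    intro γ hγ
    rcases hr γ with h | h
    · rwa [h]
    · rw [h]; exact hsymm γ hγ
  have hrfin : ∀ γ, IsOfFinOrder (r γ) ↔ IsOfFinOrder γ := by
    intro γ
    rcases hr γ with h | h
    · rw [h]
    · rw [h, isOfFinOrder_inv_iff]
  have hborP : ∀ γ ∈ S, ¬ IsOfFinOrder γ → r γ = γ → bor S r A γ = A γ := by
    intro γ hγ hγo h
    unfold bor
    rw [if_pos ⟨hγ, hγo⟩, if_pos h]
  have hborN : ∀ γ ∈ S, ¬ IsOfFinOrder γ → r γ ≠ γ → bor S r A γ = {x | γ • x ∈ A (r γ)} := by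
    intro γ hγ hγo h
    unfold bor
    rw [if_pos ⟨hγ, hγo⟩, if_neg h]
  have hbor0 : ∀ γ ∈ S, IsOfFinOrder γ → bor S r A γ = ∅ := by
    intro γ hγ hγo
    unfold bor
    rw [if_neg fun h => h.2 hγo]
  refine assemble hsymm (bor S r A) (alts r E Ec) (fun γ => s (r γ))
    ?_ ?_ hbor0 ?_ ?_ ?_ ?_ ?_ ?_
  · -- hBm
    intro γ hγ
    by_cases hγo : IsOfFinOrder γ
    · rw [hbor0 γ hγ hγo]; exact MeasurableSet.empty
    · by_cases h : r γ = γ
      · rw [hborP γ hγ hγo h]; exact hAm γ hγ hγo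
      · rw [hborN γ hγ hγo h]
        exact hmeas γ (hAm (r γ) (hrS γ hγ) (by rwa [hrfin]))
  · -- hEm
    intro γ hγ
    unfold alts
    by_cases hγo : IsOfFinOrder γ
    · rw [if_pos hγo]; exact hEcm (r γ) (hrS γ hγ) (by rwa [hrfin])
    · rw [if_neg hγo]; exact hEm (r γ) (hrS γ hγ) (by rwa [hrfin])
  · -- partner
    intro γ hγ hγo
    have hγo' : ¬ IsOfFinOrder (r γ) := by rwa [hrfin]
    refine ⟨hsS _ (hrS γ hγ) hγo', ?_, ?_⟩
    · have := hKf _ (hrS γ hγ) hγo'
      have h2 : IsOfFinOrder (⟨s (r γ), hsK _ (hrS γ hγ) hγo'⟩ : K (r γ)) :=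
        isOfFinOrder_of_finite _
      exact Submonoid.isOfFinOrder_coe.2 h2
    · simp only [hr']
  · -- D1
    intro γ hγ x
    have hγ' := hsymm γ hγ
    by_cases hγo : IsOfFinOrder γ
    · rw [hbor0 γ hγ hγo, hbor0 γ⁻¹ hγ' (by rwa [isOfFinOrder_inv_iff])]
      simp
    · have hγo' : ¬ IsOfFinOrder γ⁻¹ := by rwa [isOfFinOrder_inv_iff]
      have hne := ne_inv_of_infinite hγo
      by_cases h : r γ = γ
      · have h2 : r γ⁻¹ ≠ γ⁻¹ := by rw [hr', h]; exact hne
        rw [hborP γ hγ hγo h, hborN γ⁻¹ hγ' hγo' h2, hr', h]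
        rfl
      · have h2 : r γ = γ⁻¹ := (hr γ).resolve_left h
        have h3 : r γ⁻¹ = γ⁻¹ := by rw [hr', h2]
        rw [hborN γ hγ hγo h, hborP γ⁻¹ hγ' hγo' h3, h2, mem_ofPred_eq, smul_inv_smul]
  · -- D2
    intro γ hγ
    unfold alts
    rw [hr', isOfFinOrder_inv_iff]
  · -- D3
    intro γ hγ x hx
    by_cases hγo : IsOfFinOrder γ
    · unfold alts
      rw [if_pos hγo]
      rcases hr γ with h | h
      · rw [h]; exact hEc γ hγ hγo x
      · have h2 := hEc γ⁻¹ (hsymm γ hγ) (by rwa [isOfFinOrder_inv_iff]) (γ • x)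
        rw [inv_smul_smul] at h2
        rw [h]
        tauto
    · unfold alts
      rw [if_neg hγo]
      by_cases h : r γ = γ
      · rw [hborP γ hγ hγo h] at hx
        rw [h]
        exact hAE γ hγ hγo x hx
      · have h2 : r γ = γ⁻¹ := (hr γ).resolve_left h
        rw [hborN γ hγ hγo h, mem_ofPred_eq, h2] at hx
        have h3 := hAE γ⁻¹ (hsymm γ hγ) (by rwa [isOfFinOrder_inv_iff]) (γ • x) hx
        rw [inv_smul_smul] at h3
        rw [h2]
        tauto
  · -- D4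
    intro x γ hγ δ hδ hxγ hxδ
    have key : ∀ ε ∈ S, x ∈ bor S r A ε → ¬ IsOfFinOrder ε ∧
        ((ε = r ε ∧ x ∈ A (r ε)) ∨ (ε = (r ε)⁻¹ ∧ (r ε)⁻¹ • x ∈ A (r ε))) := by
      intro ε hε hx
      by_cases hεo : IsOfFinOrder ε
      · rw [hbor0 ε hε hεo] at hx
        exact absurd hx (notMem_empty x)
      · refine ⟨hεo, ?_⟩
        by_cases h : r ε = ε
        · rw [hborP ε hε hεo h] at hx
          left
          exact ⟨h.symm, by rwa [h]⟩
        · have h2 : r ε = ε⁻¹ := (hr ε).resolve_left h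
          rw [hborN ε hε hεo h, mem_ofPred_eq] at hx
          right
          exact ⟨by rw [h2, inv_inv], by rw [h2, inv_inv]; rwa [h2] at hx⟩
    obtain ⟨hγo, hγc⟩ := key γ hγ hxγ
    obtain ⟨hδo, hδc⟩ := key δ hδ hxδ
    have z1 := hAz (r γ) (hrS γ hγ) (by rwa [hrfin]) x (by
      rcases hγc with h | h
      · exact Or.inl h.2
      · exact Or.inr h.2)
    have z2 := hAz (r δ) (hrS δ hδ) (by rwa [hrfin]) x (by
      rcases hδc with h | h
      · exact Or.inl h.2
      · exact Or.inr h.2)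
    have hidx : i (r γ) = i (r δ) := by
      rcases lt_trichotomy (i (r γ)) (i (r δ)) with hlt | heq | hgt
      · exact absurd (zone_mono hF1 U (by omega) z1.1) z2.2
      · exact heq
      · exact absurd (zone_mono hF1 U (by omega) z2.1) z1.2
    have hrr : r γ = r δ := hi (hrS γ hγ) (hrS δ hδ) hidx
    have h2 := hA2 (r δ) (hrS δ hδ) (by rwa [hrfin]) x
    rw [hrr] at hγc
    rcases hγc with h | h <;> rcases hδc with h' | h'
    · rw [h.1, ← h'.1]
    · exact absurd ⟨h.2, h'.2⟩ h2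
    · exact absurd ⟨h'.2, h.2⟩ h2
    · rw [h.1, ← h'.1]
  · -- D7
    intro γ hγ x hx t ht
    have hγo : ¬ IsOfFinOrder γ := by
      intro h
      rw [hbor0 γ hγ h] at hx
      exact hx
    have hγ' := hsymm γ hγ
    have hγo' : ¬ IsOfFinOrder γ⁻¹ := by rwa [isOfFinOrder_inv_iff]
    have hne := ne_inv_of_infinite hγo
    have htK : t ∈ K (r γ) := by
      have := hsK (r γ) (hrS γ hγ) (by rwa [hrfin])
      rcases ht with h | h
      · rw [h]; exact this
      · rw [h]; exact (K (r γ)).inv_mem this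
    have hAK' := hAK (r γ) (hrS γ hγ) (by rwa [hrfin]) t htK
    have halt : alts r E Ec γ = E (r γ) := by unfold alts; rw [if_neg hγo]
    have halt' : alts r E Ec γ⁻¹ = E (r γ) := by unfold alts; rw [if_neg hγo', hr']
    by_cases h : r γ = γ
    · -- `γ` is the representative
      have h2 : r γ⁻¹ ≠ γ⁻¹ := by rw [hr', h]; exact hne
      rw [hborP γ hγ hγo h] at hx
      rw [h] at hAK' halt halt'
      rcases hAK' with hk | hk
      · refine ⟨γ, Or.inl rfl, ?_, ?_⟩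
        · rw [hborP γ hγ hγo h]; exact (hk x).1.2 hx
        · unfold bet
          rw [halt]
          simp only [(hk x).2.2]
      · refine ⟨γ⁻¹, Or.inr rfl, ?_, ?_⟩
        · rw [hborN γ⁻¹ hγ' hγo' h2, hr', h, mem_ofPred_eq]
          exact (hk x).2.1.2 hx
        · unfold bet
          rw [halt, halt']
          by_cases hxE : x ∈ E γ
          · rw [if_pos hxE, if_neg fun h => (hk x).2.2.1 h hxE, inv_inv]
          · rw [if_neg hxE, if_pos ((hk x).2.2.2 hxE)]
    · -- `γ⁻¹` is the representative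
      have h2 : r γ = γ⁻¹ := (hr γ).resolve_left h
      have h3 : r γ⁻¹ = γ⁻¹ := by rw [hr', h2]
      rw [hborN γ hγ hγo h, mem_ofPred_eq, h2] at hx
      rw [h2, inv_inv] at hAK'
      rw [h2] at halt halt'
      rcases hAK' with hk | hk
      · refine ⟨γ, Or.inl rfl, ?_, ?_⟩
        · rw [hborN γ hγ hγo h, h2, mem_ofPred_eq]
          exact (hk x).2.1.2 hx
        · unfold bet
          rw [halt]
          simp only [(hk x).2.2]
      · refine ⟨γ⁻¹, Or.inr rfl, ?_, ?_⟩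
        · rw [hborP γ⁻¹ hγ' hγo' h3]
          exact (hk x).1.2 hx
        · unfold bet
          rw [halt, halt']
          by_cases hxE : x ∈ E γ⁻¹
          · rw [if_pos hxE, if_neg fun h => (hk x).2.2.1 h hxE, inv_inv]
          · rw [if_neg hxE, if_pos ((hk x).2.2.2 hxE)]

end Main

section Groups

variable {H : Type u} [Group H]

theorem zpow_inj_of {c : H} (hc : ¬ IsOfFinOrder c) {i j : ℤ} (h : c ^ i = c ^ j) : i = j :=
  (injective_zpow_iff_not_isOfFinOrder.2 hc) h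

/-- With a central element generating a subgroup of finite index, some power map is a
homomorphism with values in that subgroup. -/
theorem exists_power_hom {c : H} (hc : ∀ h : H, h * c = c * h)
    (hfi : (Subgroup.zpowers c).FiniteIndex) :
    ∃ M : ℕ, 0 < M ∧ ∃ f : H →* H, (∀ h, f h = h ^ M) ∧ ∀ h, f h ∈ Subgroup.zpowers c := by
  have hle : Subgroup.zpowers c ≤ Subgroup.center H := by
    rw [Subgroup.zpowers_le, Subgroup.mem_center_iff]
    exact hc
  have hcen : (Subgroup.center H).FiniteIndex := Subgroup.finiteIndex_of_le hle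
  have hnor : (Subgroup.zpowers c).Normal := by
    refine ⟨fun n hn g => ?_⟩
    have h1 := Subgroup.mem_center_iff.1 (hle hn) g
    rw [h1, mul_inv_cancel_right]
    exact hn
  let f : H →* H :=
    { toFun := fun h => h ^ ((Subgroup.center H).index * (Subgroup.zpowers c).index)
      map_one' := one_pow _
      map_mul' := by
        intro a b
        have h1 : (a * b) ^ (Subgroup.center H).index =
            a ^ (Subgroup.center H).index * b ^ (Subgroup.center H).index :=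
          congrArg Subtype.val ((MonoidHom.transferCenterPow H).map_mul a b)
        have h2 : Commute (a ^ (Subgroup.center H).index) (b ^ (Subgroup.center H).index) :=
          Subgroup.mem_center_iff.1 (Subgroup.pow_index_mem _ b) _
        rw [pow_mul, h1, h2.mul_pow, ← pow_mul, ← pow_mul] }
  refine ⟨(Subgroup.center H).index * (Subgroup.zpowers c).index,
    Nat.mul_pos (Nat.pos_of_ne_zero hcen.index_ne_zero) (Nat.pos_of_ne_zero hfi.index_ne_zero),
    f, fun h => rfl, ?_⟩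
  intro h
  show h ^ ((Subgroup.center H).index * (Subgroup.zpowers c).index) ∈ Subgroup.zpowers c
  rw [pow_mul]
  exact Subgroup.pow_index_mem _ _

/-- A virtually cyclic group with an element of infinite order has a normal infinite cyclic
subgroup of finite index. -/
theorem exists_core (hv : IsVirtuallyCyclic H) {g : H} (hg : ¬ IsOfFinOrder g) :
    ∃ c : H, ¬ IsOfFinOrder c ∧ (Subgroup.zpowers c).FiniteIndex ∧
      ∀ h : H, h * c * h⁻¹ = c ∨ h * c * h⁻¹ = c⁻¹ := by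
  obtain ⟨z, hz⟩ := hv
  have hN : (Subgroup.zpowers z).normalCore.FiniteIndex := Subgroup.finiteIndex_normalCore _
  have hNn : (Subgroup.zpowers z).normalCore.Normal := Subgroup.normalCore_normal _
  have hNc : IsCyclic (Subgroup.zpowers z).normalCore :=
    Subgroup.isCyclic_of_le (Subgroup.normalCore_le _)
  obtain ⟨c, hc⟩ := ((Subgroup.zpowers z).normalCore.isCyclic_iff_exists_zpowers_eq_top).mp hNc
  rw [← hc] at hN hNn
  have hco : ¬ IsOfFinOrder c := by
    intro hfin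
    obtain ⟨m, hm, -, hgm⟩ := Subgroup.exists_pow_mem_of_index_ne_zero hN.index_ne_zero g
    obtain ⟨j, hj⟩ := Subgroup.mem_zpowers_iff.1 hgm
    apply hg
    have : IsOfFinOrder (g ^ m) := by rw [← hj]; exact hfin.zpow
    exact this.of_pow hm.ne'
  refine ⟨c, hco, hN, fun h => ?_⟩
  have hcm : c ∈ Subgroup.zpowers c := Subgroup.mem_zpowers c
  obtain ⟨k, hk⟩ := Subgroup.mem_zpowers_iff.1 (hNn.conj_mem c hcm h)
  obtain ⟨l, hl⟩ := Subgroup.mem_zpowers_iff.1 (hNn.conj_mem c hcm h⁻¹)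
  rw [inv_inv] at hl
  have h1 : c ^ (k * l) = c ^ (1 : ℤ) := by
    rw [zpow_mul, hk, conj_zpow, hl, zpow_one]
    group
  have h2 : k * l = 1 := zpow_inj_of hco h1
  rcases Int.eq_one_or_neg_one_of_mul_eq_one h2 with h3 | h3
  · left; rw [← hk, h3, zpow_one]
  · right; rw [← hk, h3, zpow_neg, zpow_one]

/-- An element with a nontrivial power in `⟨c⟩` and reversing `c` has finite order. -/
theorem finite_of_reverse {c : H} (hco : ¬ IsOfFinOrder c)
    (hfi : (Subgroup.zpowers c).FiniteIndex) {s : H} (hs : s * c * s⁻¹ = c⁻¹) :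
    IsOfFinOrder s := by
  obtain ⟨m, hm, -, hgm⟩ := Subgroup.exists_pow_mem_of_index_ne_zero hfi.index_ne_zero s
  obtain ⟨j, hj⟩ := Subgroup.mem_zpowers_iff.1 hgm
  have h1 : s * c ^ j * s⁻¹ = c ^ j := by
    rw [hj]
    have : s * s ^ m = s ^ m * s := (pow_mul_comm' s m).symm
    rw [this, mul_inv_cancel_right]
  have h2 : c ^ (-j) = c ^ j := by
    rw [← h1, ← conj_zpow, hs, inv_zpow, zpow_neg]
  have h3 : j = 0 := by
    have := zpow_inj_of hco h2
    omega
  rw [h3, zpow_zero] at hj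
  rw [isOfFinOrder_iff_pow_eq_one]
  exact ⟨m, hm, hj.symm⟩

/-- The torsion part of the centralizer of `c`. -/
theorem exists_torsion {c : H} (hco : ¬ IsOfFinOrder c) (hfi : (Subgroup.zpowers c).FiniteIndex)
    (hconj : ∀ h : H, h * c * h⁻¹ = c ∨ h * c * h⁻¹ = c⁻¹) :
    ∃ (M : ℕ) (T : Subgroup H), 0 < M ∧ Finite T ∧ T.Normal ∧
      (∀ h, h ∈ T ↔ h * c = c * h ∧ h ^ M = 1) ∧
      (∀ a b, a * c = c * a → b * c = c * b → (a * b) ^ M = a ^ M * b ^ M) ∧
      (∀ a, a * c = c * a → a ^ M ∈ Subgroup.zpowers c) := by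
  set H0 : Subgroup H := Subgroup.centralizer {c} with hH0
  have hmem : ∀ a : H, a ∈ H0 ↔ a * c = c * a := by
    intro a
    rw [hH0, Subgroup.mem_centralizer_singleton_iff]
  have hcH : c ∈ H0 := (hmem c).2 rfl
  have hcen : ∀ h : H0, h * ⟨c, hcH⟩ = ⟨c, hcH⟩ * h := by
    intro h
    apply Subtype.ext
    exact (hmem h).1 h.2
  have hfi0 : (Subgroup.zpowers (⟨c, hcH⟩ : H0)).FiniteIndex := by
    have : Subgroup.zpowers (⟨c, hcH⟩ : H0) = (Subgroup.zpowers c).subgroupOf H0 := by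
      ext x
      rw [Subgroup.mem_subgroupOf, Subgroup.mem_zpowers_iff, Subgroup.mem_zpowers_iff]
      refine exists_congr fun k => ?_
      rw [← Subtype.coe_inj]
      simp
    rw [this]
    infer_instance
  obtain ⟨M, hM, f, hf, hfz⟩ := exists_power_hom hcen hfi0
  have hmul : ∀ a b, a * c = c * a → b * c = c * b → (a * b) ^ M = a ^ M * b ^ M := by
    intro a b ha hb
    have h1 := f.map_mul ⟨a, (hmem a).2 ha⟩ ⟨b, (hmem b).2 hb⟩
    rw [hf, hf, hf] at h1
    have := congrArg Subtype.val h1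
    simpa using this
  have hz : ∀ a, a * c = c * a → a ^ M ∈ Subgroup.zpowers c := by
    intro a ha
    have h1 := hfz ⟨a, (hmem a).2 ha⟩
    rw [hf, Subgroup.mem_zpowers_iff] at h1
    obtain ⟨k, hk⟩ := h1
    rw [Subgroup.mem_zpowers_iff]
    refine ⟨k, ?_⟩
    have := congrArg Subtype.val hk
    simpa using this
  let T : Subgroup H :=
    { carrier := {h | h * c = c * h ∧ h ^ M = 1}
      mul_mem' := by
        rintro a b ⟨ha, ha1⟩ ⟨hb, hb1⟩
        refine ⟨?_, ?_⟩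
        · rw [mul_assoc, hb, ← mul_assoc, ha, mul_assoc]
        · rw [hmul a b ha hb, ha1, hb1, one_mul]
      one_mem' := ⟨by rw [one_mul, mul_one], one_pow _⟩
      inv_mem' := by
        rintro a ⟨ha, ha1⟩
        refine ⟨?_, ?_⟩
        · rw [inv_mul_eq_iff_eq_mul, ← mul_assoc, ha, mul_inv_cancel_right]
        · rw [inv_pow, ha1, inv_one] }
  have hT : ∀ h, h ∈ T ↔ h * c = c * h ∧ h ^ M = 1 := fun h => Iff.rfl
  refine ⟨M, T, hM, ?_, ?_, hT, hmul, hz⟩
  · -- finiteness: `T` injects into the quotient by `⟨c⟩`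
    have hinj : Function.Injective fun t : T => ((t : H) : H ⧸ Subgroup.zpowers c) := by
      intro a b hab
      have h1 := QuotientGroup.eq.1 hab
      have h2 : (a : H)⁻¹ * b ∈ T := T.mul_mem (T.inv_mem a.2) b.2
      obtain ⟨k, hk⟩ := Subgroup.mem_zpowers_iff.1 h1
      have h3 : c ^ (k * M) = c ^ (0 : ℤ) := by
        rw [zpow_mul, hk, zpow_natCast, h2.2, zpow_zero]
      have h4 : k * M = 0 := zpow_inj_of hco h3
      have h5 : k = 0 := by
        rcases mul_eq_zero.1 h4 with h | h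
        · exact h
        · omega
      rw [h5, zpow_zero] at hk
      exact Subtype.ext (inv_mul_eq_one.1 hk.symm)
    exact Finite.of_injective _ hinj
  · refine ⟨fun t ht k => ?_⟩
    obtain ⟨ht1, ht2⟩ := ht
    refine ⟨?_, ?_⟩
    · -- `k t k⁻¹` commutes with `k c k⁻¹ = c ^ ±1`
      have hcomm : (k * t * k⁻¹) * (k * c * k⁻¹) = (k * c * k⁻¹) * (k * t * k⁻¹) := by
        have e1 : (k * t * k⁻¹) * (k * c * k⁻¹) = k * (t * c) * k⁻¹ := by group
        have e2 : (k * c * k⁻¹) * (k * t * k⁻¹) = k * (c * t) * k⁻¹ := by group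
        rw [e1, e2, ht1]
      rcases hconj k with h | h
      · rwa [h] at hcomm
      · rw [h] at hcomm
        have := (Commute.inv_right_iff (a := k * t * k⁻¹) (b := c)).1 hcomm
        exact this
    · rw [conj_pow, ht2]
      group

/-- The finite subgroup with the twist property. -/
theorem exists_twist (hv : IsVirtuallyCyclic H) {g s : H} (hg : ¬ IsOfFinOrder g)
    (hs : IsOfFinOrder s) : ∃ K : Subgroup H, Finite K ∧ Twist g K ∧ s ∈ K := by
  obtain ⟨c, hco, hfi, hconj⟩ := exists_core hv hg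
  obtain ⟨M, T, hM, hTf, hTn, hT, hmul, hz⟩ := exists_torsion hco hfi hconj
  -- `g` commutes with `c`
  have hgc : g * c = c * g := by
    rcases hconj g with h | h
    · exact mul_inv_eq_iff_eq_mul.1 h
    · exact absurd (finite_of_reverse hco hfi h) hg
  have hgn : ∀ n : ℤ, g ^ n * c = c * g ^ n := by
    intro n
    exact (Commute.zpow_left (h := (hgc : Commute g c)) n)
  have htor : ∀ a : H, a * c = c * a → IsOfFinOrder a → a ∈ T := by
    intro a ha hao
    rw [hT]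
    refine ⟨ha, ?_⟩
    obtain ⟨k, hk⟩ := Subgroup.mem_zpowers_iff.1 (hz a ha)
    have h1 : IsOfFinOrder (c ^ k) := by rw [hk]; exact hao.pow
    by_cases hk0 : k = 0
    · rw [← hk, hk0, zpow_zero]
    · exfalso
      obtain ⟨n, hn, hn1⟩ := isOfFinOrder_iff_pow_eq_one.1 h1
      have h2 : c ^ (k * n) = c ^ (0 : ℤ) := by rw [zpow_mul, zpow_natCast, hn1, zpow_zero]
      rcases mul_eq_zero.1 (zpow_inj_of hco h2) with h | h
      · exact hk0 h
      · omega
  rcases hconj s with hsc | hsc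
  · -- `s` commutes with `c`
    have hsc' : s * c = c * s := mul_inv_eq_iff_eq_mul.1 hsc
    refine ⟨T, hTf, fun k hk => Or.inl fun n => ?_, htor s hsc' hs⟩
    rw [zpow_neg]
    exact hTn.conj_mem k hk _
  · -- `s` reverses `c`
    have hs2 : s * s ∈ T := by
      refine htor _ ?_ ?_
      · have e1 : s * c = c⁻¹ * s := mul_inv_eq_iff_eq_mul.1 hsc
        have e2 : s * c⁻¹ = c * s := by
          have : s * c⁻¹ * s⁻¹ = c := by
            have := congrArg (fun y => y⁻¹) hsc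
            simp only [mul_inv_rev, inv_inv] at this
            rw [← mul_assoc] at this
            exact this
          exact mul_inv_eq_iff_eq_mul.1 this
        rw [mul_assoc, e1, ← mul_assoc, e2, mul_assoc]
      · have := hs.pow (n := 2)
        rwa [pow_two] at this
    let K : Subgroup H :=
      { carrier := {k | k ∈ T ∨ k * s⁻¹ ∈ T}
        mul_mem' := by
          rintro a b (ha | ha) (hb | hb)
          · exact Or.inl (T.mul_mem ha hb)
          · right
            have := T.mul_mem ha hb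
            rwa [← mul_assoc] at this
          · right
            have := T.mul_mem ha (hTn.conj_mem b hb s)
            have e : a * s⁻¹ * (s * b * s⁻¹) = a * b * s⁻¹ := by group
            rwa [e] at this
          · left
            have := T.mul_mem (T.mul_mem ha (hTn.conj_mem _ hb s)) hs2
            have e : a * s⁻¹ * (s * (b * s⁻¹) * s⁻¹) * (s * s) = a * b := by group
            rwa [e] at this
        one_mem' := Or.inl T.one_mem
        inv_mem' := by
          rintro a (ha | ha)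
          · exact Or.inl (T.inv_mem ha)
          · right
            have := T.inv_mem (T.mul_mem (hTn.conj_mem _ ha s) hs2)
            have e : (s * (a * s⁻¹) * s⁻¹ * (s * s))⁻¹ = a⁻¹ * s⁻¹ := by group
            rwa [e] at this }
    have hKmem : ∀ k, k ∈ K ↔ k ∈ T ∨ k * s⁻¹ ∈ T := fun k => Iff.rfl
    refine ⟨K, ?_, ?_, ?_⟩
    · have : (K : Set H) ⊆ (T : Set H) ∪ (fun t => t * s) '' (T : Set H) := by
        rintro k (hk | hk)
        · exact Or.inl hk
        · exact Or.inr ⟨k * s⁻¹, hk, by simp⟩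
      have hfin : ((T : Set H) ∪ (fun t => t * s) '' (T : Set H)).Finite :=
        (Set.toFinite _).union ((Set.toFinite _).image _)
      exact (hfin.subset this).to_subtype
    · intro k hk
      rcases hk with hk | hk
      · left
        intro n
        rw [zpow_neg]
        exact Or.inl (hTn.conj_mem k hk _)
      · right
        intro n
        right
        -- `g^n k g^n s⁻¹ = (g^n t g^{-n}) (g^n (s g^n s⁻¹))`
        have h1 : g ^ n * (s * g ^ n * s⁻¹) ∈ T := by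
          have hsg : (s * g ^ n * s⁻¹) * c = c * (s * g ^ n * s⁻¹) := by
            have e1 : (s * g ^ n * s⁻¹) * (s * c * s⁻¹) = (s * c * s⁻¹) * (s * g ^ n * s⁻¹) := by
              have e2 : (s * g ^ n * s⁻¹) * (s * c * s⁻¹) = s * (g ^ n * c) * s⁻¹ := by group
              have e3 : (s * c * s⁻¹) * (s * g ^ n * s⁻¹) = s * (c * g ^ n) * s⁻¹ := by group
              rw [e2, e3, hgn]
            rw [hsc] at e1
            exact (Commute.inv_right_iff (a := s * g ^ n * s⁻¹) (b := c)).1 e1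
          rw [hT]
          refine ⟨?_, ?_⟩
          · rw [mul_assoc (g ^ n), hsg, ← mul_assoc, hgn, mul_assoc]
          · rw [hmul _ _ (hgn n) hsg, conj_pow]
            obtain ⟨j, hj⟩ := Subgroup.mem_zpowers_iff.1 (hz (g ^ n) (hgn n))
            rw [← hj, ← conj_zpow, hsc, inv_zpow, mul_inv_cancel]
        have h2 := T.mul_mem (hTn.conj_mem _ hk (g ^ n)) h1
        have e : g ^ n * (k * s⁻¹) * (g ^ n)⁻¹ * (g ^ n * (s * g ^ n * s⁻¹)) =
            g ^ n * k * g ^ n * s⁻¹ := by group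
        rwa [e] at h2
    · right
      rw [mul_inv_cancel]
      exact T.one_mem

/-- If `c` is central then the group is a finite extension of `ℤ`. -/
theorem finiteExtension_of_central {c : H} (hco : ¬ IsOfFinOrder c)
    (hfi : (Subgroup.zpowers c).FiniteIndex) (hc : ∀ h : H, h * c = c * h) :
    IsFiniteExtensionOfInt H := by
  obtain ⟨M, T, hM, hTf, hTn, hT, hmul, hz⟩ := exists_torsion hco hfi
    (fun h => Or.inl (by rw [hc, mul_inv_cancel_right]))
  let f : H →* Subgroup.zpowers c :=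
    { toFun := fun h => ⟨h ^ M, hz h (hc h)⟩
      map_one' := Subtype.ext (one_pow _)
      map_mul' := fun a b => Subtype.ext (hmul a b (hc a) (hc b)) }
  have hker : f.ker = T := by
    ext h
    rw [MonoidHom.mem_ker, hT]
    constructor
    · intro h1
      exact ⟨hc h, congrArg Subtype.val h1⟩
    · intro h1
      exact Subtype.ext h1.2
  have hcyc : IsCyclic f.range := inferInstance
  have hinf : Infinite f.range := by
    refine Infinite.of_injective (fun n : ℤ => (⟨f (c ^ n), ⟨c ^ n, rfl⟩⟩ : f.range)) ?_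
    intro n m h
    have h1 : (c ^ n) ^ M = (c ^ m) ^ M := by
      have := congrArg (fun y : f.range => ((y : Subgroup.zpowers c) : H)) h
      exact this
    rw [← zpow_natCast, ← zpow_natCast, ← zpow_mul, ← zpow_mul] at h1
    have h2 := zpow_inj_of hco h1
    have hM' : (M : ℤ) ≠ 0 := by omega
    exact mul_right_cancel₀ hM' h2
  refine ⟨T, hTn, hTf, ⟨?_⟩⟩
  have e1 : H ⧸ T ≃* H ⧸ f.ker := QuotientGroup.quotientMulEquivOfEq hker.symm
  have e2 : H ⧸ f.ker ≃* f.range := QuotientGroup.quotientKerEquivRange f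
  exact (e1.trans e2).trans (intCyclicMulEquiv (G := f.range)).symm

end Groups


section Pairing

variable {Γ : Type u} [Group Γ]

/-- The pairing condition gives the finite subgroups. -/
theorem twist_of_pairing {g s : Γ} (hg : ¬ IsOfFinOrder g) (hs : IsOfFinOrder s)
    (hv : IsVirtuallyCyclic (Subgroup.closure {g, s})) :
    ∃ K : Subgroup Γ, Finite K ∧ Twist g K ∧ s ∈ K := by
  have hgm : g ∈ Subgroup.closure {g, s} := Subgroup.subset_closure (by simp)
  have hsm : s ∈ Subgroup.closure {g, s} := Subgroup.subset_closure (by simp)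
  have hg' : ¬ IsOfFinOrder (⟨g, hgm⟩ : Subgroup.closure {g, s}) := by
    intro h
    exact hg (Submonoid.isOfFinOrder_coe.2 h)
  have hs' : IsOfFinOrder (⟨s, hsm⟩ : Subgroup.closure {g, s}) :=
    Submonoid.isOfFinOrder_coe.1 hs
  obtain ⟨K, hKf, hK, hsK⟩ := exists_twist hv hg' hs'
  refine ⟨K.map (Subgroup.closure {g, s}).subtype, ?_, ?_, ?_⟩
  · have : ((K.map (Subgroup.closure {g, s}).subtype : Subgroup Γ) : Set Γ).Finite := by
      rw [Subgroup.coe_map]
      exact (Set.toFinite (SetLike.coe K)).image _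
    exact this.to_subtype
  · intro k hk
    obtain ⟨k', hk', rfl⟩ := Subgroup.mem_map.1 hk
    rcases hK k' hk' with h | h
    · left
      intro n
      refine Subgroup.mem_map.2 ⟨_, h n, ?_⟩
      simp
    · right
      intro n
      refine Subgroup.mem_map.2 ⟨_, h n, ?_⟩
      simp
  · exact Subgroup.mem_map.2 ⟨_, hsK, rfl⟩

end Pairing

end Pool.Agent.MP1822V
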