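import Mathlib

/-!
# Acyclic Borel graphs with labelled ports: words, root words, measurability
-/

namespace Pool.Agent.MP1822T

open MeasureTheory

/-- fibrewise measurable maps into an arbitrary type -/
def FM {X κ : Type*} [MeasurableSpace X] (f : X → κ) : Prop :=
  ∀ k, MeasurableSet {x | f x = k}

section FM

variable {X κ κ' : Type*} [MeasurableSpace X]

lemma FM.set [Countable κ] {f : X → κ} (hf : FM f) (S : Set κ) :
    MeasurableSet {x | f x ∈ S} := by
  have : {x | f x ∈ S} = ⋃ k ∈ S, {x | f x = k} := by ext x; simp
  rw [this]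
  exact MeasurableSet.biUnion (Set.to_countable S) (fun k _ => hf k)

lemma FM.comp [Countable κ] {f : X → κ} (hf : FM f) (g : κ → κ') :
    FM (fun x => g (f x)) := by
  intro k
  exact hf.set {a | g a = k}

lemma FM.pair {f : X → κ} {g : X → κ'} (hf : FM f) (hg : FM g) :
    FM (fun x => (f x, g x)) := by
  rintro ⟨a, b⟩
  have : {x | (f x, g x) = (a, b)} = {x | f x = a} ∩ {x | g x = b} := by ext x; simp
  rw [this]; exact (hf a).inter (hg b)

lemma FM.pi {ι : Type*} [Countable ι] {f : ι → X → κ} (hf : ∀ i, FM (f i)) :
    FM (fun x => fun i => f i x) := by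
  intro k
  have : {x | (fun i => f i x) = k} = ⋂ i, {x | f i x = k i} := by
    ext x; simp [funext_iff]
  rw [this]; exact MeasurableSet.iInter (fun i => hf i (k i))

lemma FM.comp_meas {f : X → κ} (hf : FM f) {σ : X → X} (hσ : Measurable σ) :
    FM (fun x => f (σ x)) := fun k => hσ (hf k)

lemma FM.const (a : κ) : FM (fun _ : X => a) := by
  intro k
  by_cases h : a = k
  · simp [h]
  · simp [h]

lemma FM.of_prop {P : X → Prop} (h : MeasurableSet {x | P x}) : FM P := by
  intro q
  by_cases hq : q
  · have : {x | P x = q} = {x | P x} := by ext x; simp [hq]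
    rw [this]; exact h
  · have : {x | P x = q} = {x | P x}ᶜ := by ext x; simp [hq]
    rw [this]; exact h.compl

lemma FM.ite {P : X → Prop} (h : MeasurableSet {x | P x}) {f g : X → κ} (hf : FM f) (hg : FM g)
    [∀ x, Decidable (P x)] : FM (fun x => if P x then f x else g x) := by
  intro k
  have : {x | (if P x then f x else g x) = k} =
      ({x | P x} ∩ {x | f x = k}) ∪ ({x | P x}ᶜ ∩ {x | g x = k}) := by
    ext x
    by_cases hx : P x <;> simp [hx]
  rw [this]
  exact (h.inter (hf k)).union (h.compl.inter (hg k))

end FM

/-- A labelled system of ports: `act t` moves a point along its port `t`, and `inv t` is the port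
at the other end of that edge. -/
structure TTree (T X : Type*) where
  inv : T → T
  inv_inv : ∀ t, inv (inv t) = t
  act : T → X → X
  act_inv : ∀ t x, act (inv t) (act t x) = x

namespace TTree

variable {T X : Type*} (S : TTree T X)

lemma act_inv' (t : T) (x : X) : S.act t (S.act (S.inv t) x) = x := by
  have := S.act_inv (S.inv t) x
  rwa [S.inv_inv] at this

lemma inv_eq_iff {s t : T} : S.inv s = t ↔ s = S.inv t := by
  constructor
  · rintro rfl; exact (S.inv_inv s).symm
  · rintro rfl; exact S.inv_inv t

/-- walking along a word, first letter first -/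
def run : List T → X → X
  | [], x => x
  | a :: l, x => run l (S.act a x)

/-- the word never goes straight back -/
def Red (l : List T) : Prop := l.IsChain (fun a b => b ≠ S.inv a)

/-- there are no closed reduced walks -/
def Free : Prop := ∀ l, S.Red l → l ≠ [] → ∀ x, S.run l x ≠ x

def rev (l : List T) : List T := (l.map S.inv).reverse

/-- the walk along `l` from `x` stays in `V` -/
def path (V : Set X) : List T → X → Prop
  | [], x => x ∈ V
  | a :: l, x => x ∈ V ∧ path V l (S.act a x)

@[simp] lemma run_nil (x : X) : S.run [] x = x := rfl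

@[simp] lemma run_cons (a : T) (l : List T) (x : X) :
    S.run (a :: l) x = S.run l (S.act a x) := rfl

@[simp] lemma path_nil (V : Set X) (x : X) : S.path V [] x ↔ x ∈ V := Iff.rfl

@[simp] lemma path_cons (V : Set X) (a : T) (l : List T) (x : X) :
    S.path V (a :: l) x ↔ x ∈ V ∧ S.path V l (S.act a x) := Iff.rfl

lemma run_append (l m : List T) (x : X) : S.run (l ++ m) x = S.run m (S.run l x) := by
  induction l generalizing x with
  | nil => rfl
  | cons a l ih => simp [ih]

lemma rev_cons (a : T) (l : List T) : S.rev (a :: l) = S.rev l ++ [S.inv a] := by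
  simp [rev]

lemma run_rev (l : List T) (x : X) : S.run (S.rev l) (S.run l x) = x := by
  induction l generalizing x with
  | nil => rfl
  | cons a l ih =>
    rw [rev_cons, run_append]
    simp [ih, S.act_inv]

lemma path_head {V : Set X} {l : List T} {x : X} (h : S.path V l x) : x ∈ V := by
  cases l with
  | nil => exact h
  | cons a l => exact h.1

lemma path_last {V : Set X} {l : List T} {x : X} (h : S.path V l x) : S.run l x ∈ V := by
  induction l generalizing x with
  | nil => exact h
  | cons a l ih => exact ih h.2

lemma path_append {V : Set X} {l m : List T} {x : X} (h : S.path V l x)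
    (h' : S.path V m (S.run l x)) : S.path V (l ++ m) x := by
  induction l generalizing x with
  | nil => exact h'
  | cons a l ih => exact ⟨h.1, ih h.2 h'⟩

lemma path_rev {V : Set X} {l : List T} {x : X} (h : S.path V l x) :
    S.path V (S.rev l) (S.run l x) := by
  induction l generalizing x with
  | nil => exact h
  | cons a l ih =>
    rw [rev_cons]
    have h2 := ih h.2
    refine S.path_append h2 ?_
    rw [run_cons, run_rev]
    refine ⟨S.path_head h.2, ?_⟩
    rw [S.act_inv]
    exact h.1

lemma exists_red {V : Set X} (l : List T) : ∀ {x : X}, S.path V l x →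
    ∃ l', S.Red l' ∧ S.path V l' x ∧ S.run l' x = S.run l x := by
  induction l with
  | nil => intro x h; exact ⟨[], List.IsChain.nil, h, rfl⟩
  | cons a l ih =>
    intro x h
    obtain ⟨m, hm, hp, hr⟩ := ih h.2
    cases m with
    | nil => exact ⟨[a], List.IsChain.singleton a, ⟨h.1, hp⟩, by simpa using hr⟩
    | cons b m =>
      by_cases hb : b = S.inv a
      · subst hb
        refine ⟨m, hm.tail, ?_, ?_⟩
        · have := hp.2
          rwa [S.act_inv] at this
        · rw [run_cons, ← hr, run_cons, S.act_inv]
      · exact ⟨a :: b :: m, List.IsChain.cons_cons hb hm, ⟨h.1, hp⟩, by simpa using hr⟩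

lemma red_cons {a b : T} {l : List T} : S.Red (a :: b :: l) ↔ b ≠ S.inv a ∧ S.Red (b :: l) :=
  List.isChain_cons_cons

lemma red_tail {a : T} {l : List T} (h : S.Red (a :: l)) : S.Red l := List.IsChain.tail h

lemma red_rev {l : List T} (h : S.Red l) : S.Red (S.rev l) := by
  unfold Red rev at *
  rw [List.isChain_reverse, List.isChain_map]
  refine List.IsChain.imp ?_ h
  intro a b hab hc
  apply hab
  rw [S.inv_inv] at hc
  exact hc.symm

lemma red_unique (hF : S.Free) : ∀ (l l' : List T) (x : X), S.Red l → S.Red l' →
    S.run l x = S.run l' x → l = l' := by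
  intro l
  induction l with
  | nil =>
    intro l' x _ hl' h
    by_contra hne
    exact hF l' hl' (fun h0 => hne h0.symm) x h.symm
  | cons a l ih =>
    intro l' x hl hl' h
    cases l' with
    | nil => exact absurd h (hF _ hl (by simp) x)
    | cons b l' =>
      by_cases hab : a = b
      · subst hab
        rw [ih l' _ (S.red_tail hl) (S.red_tail hl') h]
      · exfalso
        have hred : S.Red (S.rev (a :: l) ++ (b :: l')) := by
          unfold Red
          rw [List.isChain_append]
          refine ⟨S.red_rev hl, hl', ?_⟩
          intro u hu v hv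
          rw [rev_cons] at hu
          simp only [List.getLast?_append, List.getLast?_singleton, Option.mem_def,
            Option.some_or, Option.some.injEq] at hu
          simp only [List.head?_cons, Option.mem_def, Option.some.injEq] at hv
          subst hu; subst hv
          rw [S.inv_inv]
          exact fun h => hab h.symm
        refine hF _ hred (by simp) (S.run (a :: l) x) ?_
        rw [run_append, run_rev]
        exact h.symm

/-! ### root words -/

variable (ι : X → ℝ)

/-- `r` is the `ι`-least point of its `V`-component -/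
def IsRoot (V : Set X) (r : X) : Prop := ∀ l, S.path V l r → ι r ≤ ι (S.run l r)

def Good (V : Set X) (l : List T) (x : X) : Prop :=
  S.Red l ∧ S.path V l x ∧ S.IsRoot ι V (S.run l x)

def block (V : Set X) (x : X) : Set X := {y | ∃ l, S.path V l x ∧ S.run l x = y}

variable {ι}

lemma good_unique (hF : S.Free) (hι : Function.Injective ι) {V : Set X} {l l' : List T} {x : X}
    (h : S.Good ι V l x) (h' : S.Good ι V l' x) : l = l' := by
  refine S.red_unique hF l l' x h.1 h'.1 (hι (le_antisymm ?_ ?_))
  · have := h.2.2 (S.rev l ++ l') (S.path_append (S.path_rev h.2.1)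
      (by rw [S.run_rev]; exact h'.2.1))
    rwa [S.run_append, S.run_rev] at this
  · have := h'.2.2 (S.rev l' ++ l) (S.path_append (S.path_rev h'.2.1)
      (by rw [S.run_rev]; exact h.2.1))
    rwa [S.run_append, S.run_rev] at this

lemma good_exists (ι : X → ℝ) {V : Set X} {x : X} (hfin : (S.block V x).Finite) (hx : x ∈ V) :
    ∃ l, S.Good ι V l x := by
  obtain ⟨r, ⟨l, hl, hr⟩, hmin⟩ := Set.exists_min_image (S.block V x) ι hfin ⟨x, [], hx, rfl⟩
  obtain ⟨l', h1, h2, h3⟩ := S.exists_red l hl
  refine ⟨l', h1, h2, ?_⟩
  intro m hm
  rw [h3, hr] at hm ⊢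
  refine hmin _ ⟨l ++ m, S.path_append hl (by rw [hr]; exact hm), ?_⟩
  rw [S.run_append, hr]

open Classical in
/-- the reduced word from `x` to the root of its `V`-component -/
noncomputable def word (ι : X → ℝ) (V : Set X) (x : X) : List T :=
  if h : ∃ l, S.Good ι V l x then h.choose else []

/-- the port of `x` towards the root -/
noncomputable def par (ι : X → ℝ) (V : Set X) (x : X) : Option T := (S.word ι V x).head?

lemma word_eq (hF : S.Free) (hι : Function.Injective ι) {V : Set X} {l : List T} {x : X}
    (h : S.Good ι V l x) : S.word ι V x = l := by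
  have hex : ∃ l, S.Good ι V l x := ⟨l, h⟩
  unfold word
  rw [dif_pos hex]
  exact S.good_unique hF hι hex.choose_spec h

lemma word_spec {V : Set X} {x : X} (hfin : (S.block V x).Finite) (hx : x ∈ V) :
    S.Good ι V (S.word ι V x) x := by
  have hex := S.good_exists ι hfin hx
  unfold word
  rw [dif_pos hex]
  exact hex.choose_spec

lemma word_cons (hF : S.Free) (hι : Function.Injective ι) {V : Set X}
    (hfin : ∀ x, (S.block V x).Finite) {x : X} (hx : x ∈ V) {s : T}
    (h : S.par ι V x = some s) :
    S.word ι V x = s :: S.word ι V (S.act s x) ∧ S.act s x ∈ V := by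
  have hg := S.word_spec (ι := ι) (hfin x) hx
  unfold par at h
  cases hw : S.word ι V x with
  | nil => rw [hw] at h; simp at h
  | cons a l =>
    rw [hw] at h hg
    simp only [List.head?_cons, Option.some.injEq] at h
    subst h
    have hg' : S.Good ι V l (S.act a x) := ⟨S.red_tail hg.1, hg.2.1.2, hg.2.2⟩
    rw [S.word_eq hF hι hg']
    exact ⟨rfl, S.path_head hg.2.1.2⟩

/-- O1 -/
lemma par_or (hF : S.Free) (hι : Function.Injective ι) {V : Set X}
    (hfin : ∀ x, (S.block V x).Finite) {x : X} (hx : x ∈ V) {s : T} (hy : S.act s x ∈ V) :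
    S.par ι V x = some s ∨ S.par ι V (S.act s x) = some (S.inv s) := by
  have hg := S.word_spec (ι := ι) (hfin _) hy
  cases hw : S.word ι V (S.act s x) with
  | nil =>
    left
    rw [hw] at hg
    have : S.Good ι V [s] x := ⟨List.IsChain.singleton s, ⟨hx, hg.2.1⟩, hg.2.2⟩
    unfold par
    rw [S.word_eq hF hι this]; rfl
  | cons a l =>
    rw [hw] at hg
    by_cases ha : a = S.inv s
    · right
      unfold par
      rw [hw, ha]; rfl
    · left
      have : S.Good ι V (s :: a :: l) x :=
        ⟨List.IsChain.cons_cons ha hg.1, ⟨hx, hg.2.1⟩, hg.2.2⟩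
      unfold par
      rw [S.word_eq hF hι this]; rfl

/-- O2 -/
lemma par_not (hF : S.Free) (hι : Function.Injective ι) {V : Set X}
    (hfin : ∀ x, (S.block V x).Finite) {x : X} (hx : x ∈ V) {s : T}
    (h : S.par ι V x = some s) : S.par ι V (S.act s x) ≠ some (S.inv s) := by
  intro h'
  obtain ⟨h1, h2⟩ := S.word_cons hF hι hfin hx h
  obtain ⟨h3, -⟩ := S.word_cons hF hι hfin h2 h'
  rw [S.act_inv] at h3
  have := congrArg List.length h1
  rw [h3] at this
  simp at this
  omega

/-- O3 -/
lemma par_mem (hF : S.Free) (hι : Function.Injective ι) {V : Set X}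
    (hfin : ∀ x, (S.block V x).Finite) {x : X} (hx : x ∈ V) {s : T}
    (h : S.par ι V x = some s) : S.act s x ∈ V := (S.word_cons hF hι hfin hx h).2

/-! ### measurability -/

section meas

variable [MeasurableSpace X] (hact : ∀ t, Measurable (S.act t))

include hact

lemma measurable_run (l : List T) : Measurable (S.run l) := by
  induction l with
  | nil => exact measurable_id
  | cons a l ih => exact ih.comp (hact a)

lemma measurableSet_path {V : Set X} (hV : MeasurableSet V) (l : List T) :
    MeasurableSet {x | S.path V l x} := by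
  induction l with
  | nil => exact hV
  | cons a l ih => exact hV.inter (hact a ih)

variable [Countable T]

lemma measurableSet_isRoot (hι : Measurable ι) {V : Set X} (hV : MeasurableSet V) :
    MeasurableSet {x | S.IsRoot ι V x} := by
  have : {x | S.IsRoot ι V x} =
      ⋂ l : List T, ({x | S.path V l x}ᶜ ∪ {x | ι x ≤ ι (S.run l x)}) := by
    ext x
    simp only [IsRoot, Set.mem_ofPred_eq, Set.mem_iInter, Set.mem_union, Set.mem_compl_iff]
    exact forall_congr' (fun l => by tauto)
  rw [this]
  exact MeasurableSet.iInter (fun l => (S.measurableSet_path hact hV l).compl.union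
    (measurableSet_le hι (hι.comp (S.measurable_run hact l))))

lemma measurableSet_good (hι : Measurable ι) {V : Set X} (hV : MeasurableSet V) (l : List T) :
    MeasurableSet {x | S.Good ι V l x} := by
  have : {x | S.Good ι V l x} =
      {_x | S.Red l} ∩ ({x | S.path V l x} ∩ (S.run l) ⁻¹' {x | S.IsRoot ι V x}) := by
    ext x; rfl
  rw [this]
  exact (MeasurableSet.const _).inter ((S.measurableSet_path hact hV l).inter
    (S.measurable_run hact l (S.measurableSet_isRoot hact hι hV)))

lemma FM_word (hF : S.Free) (hιi : Function.Injective ι) (hι : Measurable ι) {V : Set X}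
    (hV : MeasurableSet V) : FM (S.word ι V) := by
  intro l
  have key : {x | S.word ι V x = l} =
      {x | S.Good ι V l x} ∪ ({_x | l = []} ∩ (⋃ m : List T, {x | S.Good ι V m x})ᶜ) := by
    ext x
    simp only [Set.mem_ofPred_eq, Set.mem_union, Set.mem_inter_iff, Set.mem_compl_iff,
      Set.mem_iUnion]
    constructor
    · intro h
      by_cases hex : ∃ m, S.Good ι V m x
      · left
        obtain ⟨m, hm⟩ := hex
        have := S.word_eq hF hιi hm
        rw [h] at this
        rw [this]; exact hm
      · right
        unfold word at h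
        rw [dif_neg hex] at h
        exact ⟨h.symm, hex⟩
    · rintro (h | ⟨h1, h2⟩)
      · exact S.word_eq hF hιi h
      · unfold word
        rw [dif_neg h2, h1]
  rw [key]
  exact (S.measurableSet_good hact hι hV l).union ((MeasurableSet.const _).inter
    (MeasurableSet.iUnion (fun m => S.measurableSet_good hact hι hV m)).compl)

lemma FM_par (hF : S.Free) (hιi : Function.Injective ι) (hι : Measurable ι) {V : Set X}
    (hV : MeasurableSet V) : FM (S.par ι V) :=
  (S.FM_word hact hF hιi hι hV).comp List.head?

end meas

end TTree

end Pool.Agent.MP1822T
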