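import Pool.Agent.Lib.MP_1822da_lc.TreeA

/-!
# Two covers with finite components: the switching parent function, the cut edges
-/

namespace Pool.Agent.MP1822T

open MeasureTheory

namespace TTree

variable {T X : Type*} (S : TTree T X)

def Near (n : ℕ) (x y : X) : Prop := ∃ l : List T, l.length ≤ n ∧ S.run l x = y

lemma near_refl (n : ℕ) (x : X) : S.Near n x x := ⟨[], by simp, rfl⟩

lemma near_trans {m n : ℕ} {x y z : X} (h : S.Near m x y) (h' : S.Near n y z) :
    S.Near (m + n) x z := by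
  obtain ⟨l, hl, rfl⟩ := h
  obtain ⟨l', hl', rfl⟩ := h'
  exact ⟨l ++ l', by simp; omega, by rw [S.run_append]⟩

lemma near_symm {n : ℕ} {x y : X} (h : S.Near n x y) : S.Near n y x := by
  obtain ⟨l, hl, rfl⟩ := h
  exact ⟨S.rev l, by simpa [rev] using hl, S.run_rev l x⟩

lemma near_mono {m n : ℕ} (hmn : m ≤ n) {x y : X} (h : S.Near m x y) : S.Near n x y := by
  obtain ⟨l, hl, rfl⟩ := h
  exact ⟨l, by omega, rfl⟩

lemma near_act (t : T) (x : X) : S.Near 1 x (S.act t x) := ⟨[t], by simp, rfl⟩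

/-- one step along an optional port -/
def step (p : Option T) (x : X) : X := p.elim x (fun s => S.act s x)

@[simp] lemma step_none (x : X) : S.step none x = x := rfl

@[simp] lemma step_some (s : T) (x : X) : S.step (some s) x = S.act s x := rfl

lemma near_step (p : Option T) (x : X) : S.Near 1 x (S.step p x) := by
  cases p with
  | none => exact S.near_refl 1 x
  | some s => exact S.near_act s x

lemma measurable_step [MeasurableSpace X] [Countable T] (hact : ∀ t, Measurable (S.act t))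
    {p : X → Option T} (hp : FM p) : Measurable (fun x => S.step (p x) x) := by
  intro B hB
  have : (fun x => S.step (p x) x) ⁻¹' B =
      ⋃ o : Option T, ({x | p x = o} ∩ (fun x => S.step o x) ⁻¹' B) := by
    ext x; simp
  rw [this]
  refine MeasurableSet.iUnion (fun o => (hp o).inter ?_)
  cases o with
  | none => exact hB
  | some s => exact hact s hB

/-- Two covers with their parent functions -/
structure Cover where
  VA : Set X
  VB : Set X
  pA : X → Option T
  pB : X → Option T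
  cov : ∀ x, x ∈ VA ∨ x ∈ VB
  far : ∀ x z, x ∉ VB → z ∉ VA → ¬ S.Near 6 x z
  orA : ∀ x s, x ∈ VA → S.act s x ∈ VA → pA x = some s ∨ pA (S.act s x) = some (S.inv s)
  ntA : ∀ x s, x ∈ VA → pA x = some s → pA (S.act s x) ≠ some (S.inv s)
  meA : ∀ x s, x ∈ VA → pA x = some s → S.act s x ∈ VA
  orB : ∀ x s, x ∈ VB → S.act s x ∈ VB → pB x = some s ∨ pB (S.act s x) = some (S.inv s)
  ntB : ∀ x s, x ∈ VB → pB x = some s → pB (S.act s x) ≠ some (S.inv s)
  meB : ∀ x s, x ∈ VB → pB x = some s → S.act s x ∈ VB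
  finA : ∀ x, (S.block VA x).Finite
  finB : ∀ x, (S.block VB x).Finite
  free : S.Free

namespace Cover

variable {S} (C : S.Cover)

def sB (x : X) : X := S.step (C.pB x) x

lemma sB_eq {x : X} {s : T} (h : C.pB x = some s) : C.sB x = S.act s x := by
  unfold sB; rw [h]; rfl

lemma near_sB (x : X) : S.Near 1 x (C.sB x) := S.near_step _ x

lemma sB_mem {x : X} (hx : x ∈ C.VB) : C.sB x ∈ C.VB := by
  unfold sB
  cases h : C.pB x with
  | none => exact hx
  | some s => exact C.meB x s hx h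

def R (x : X) : Prop := x ∈ C.VB ∧
  (x ∉ C.VA ∨ C.sB x ∉ C.VA ∨ C.sB (C.sB x) ∉ C.VA ∨ C.sB (C.sB (C.sB x)) ∉ C.VA)

lemma notR_VA {x : X} (h : ¬ C.R x) : x ∈ C.VA := by
  by_contra hx
  exact h ⟨(C.cov x).resolve_left hx, Or.inl hx⟩

lemma notR_all {x : X} (h : ¬ C.R x) (hx : x ∈ C.VB) :
    x ∈ C.VA ∧ C.sB x ∈ C.VA ∧ C.sB (C.sB x) ∈ C.VA ∧ C.sB (C.sB (C.sB x)) ∈ C.VA := by
  unfold R at h
  push Not at h
  exact h hx

lemma R_near {x : X} (h : C.R x) : ∃ z, z ∉ C.VA ∧ S.Near 3 x z := by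
  have h1 := C.near_sB x
  have h2 := S.near_trans h1 (C.near_sB (C.sB x))
  have h3 := S.near_trans h2 (C.near_sB (C.sB (C.sB x)))
  rcases h.2 with h' | h' | h' | h'
  · exact ⟨_, h', S.near_refl _ _⟩
  · exact ⟨_, h', S.near_mono (by omega) h1⟩
  · exact ⟨_, h', S.near_mono (by omega) h2⟩
  · exact ⟨_, h', S.near_mono (by omega) h3⟩

lemma VB_of_near {u w : X} (hw : w ∉ C.VA) (h : S.Near 6 u w) : u ∈ C.VB := by
  by_contra hu
  exact C.far u w hu hw h

open Classical in
noncomputable def tp (x : X) : Option T := if C.R x then C.pB x else C.pA x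

lemma tp_R {x : X} (h : C.R x) : C.tp x = C.pB x := by unfold tp; rw [if_pos h]

lemma tp_notR {x : X} (h : ¬ C.R x) : C.tp x = C.pA x := by unfold tp; rw [if_neg h]

def FL (x : X) (s : T) : Prop :=
  ¬ C.R x ∧ x ∈ C.VB ∧ C.R (S.act s x) ∧ C.pB x = some s ∧ C.pA (S.act s x) = some (S.inv s)

def FR (x : X) (s : T) : Prop := C.FL (S.act s x) (S.inv s)

lemma mixed {x : X} {s : T} (hx : ¬ C.R x) (hy : C.R (S.act s x)) :
    C.tp x = some s ∨ C.tp (S.act s x) = some (S.inv s) ∨ C.FL x s := by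
  have hxA := C.notR_VA hx
  obtain ⟨z, hz, hyz⟩ := C.R_near hy
  have hxB : x ∈ C.VB := C.VB_of_near hz
    (S.near_mono (by omega) (S.near_trans (S.near_act s x) hyz))
  rcases C.orB x s hxB hy.1 with h | h
  · obtain ⟨h1, h2, h3, h4⟩ := C.notR_all hx hxB
    rw [C.sB_eq h] at h2
    rcases C.orA x s hxA h2 with h' | h'
    · left; rw [C.tp_notR hx]; exact h'
    · right; right; exact ⟨hx, hxB, hy, h, h'⟩
  · right; left; rw [C.tp_R hy]; exact h

/-- every edge is oriented or is an `F`-edge -/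
lemma cover_edge (x : X) (s : T) :
    C.tp x = some s ∨ C.tp (S.act s x) = some (S.inv s) ∨ C.FL x s ∨ C.FR x s := by
  by_cases hx : C.R x
  · by_cases hy : C.R (S.act s x)
    · rw [C.tp_R hx, C.tp_R hy]
      rcases C.orB x s hx.1 hy.1 with h | h
      · exact Or.inl h
      · exact Or.inr (Or.inl h)
    · have := C.mixed (x := S.act s x) (s := S.inv s) hy (by rw [S.act_inv]; exact hx)
      rw [S.act_inv, S.inv_inv] at this
      rcases this with h | h | h
      · exact Or.inr (Or.inl h)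
      · exact Or.inl h
      · exact Or.inr (Or.inr (Or.inr h))
  · by_cases hy : C.R (S.act s x)
    · rcases C.mixed hx hy with h | h | h
      · exact Or.inl h
      · exact Or.inr (Or.inl h)
      · exact Or.inr (Or.inr (Or.inl h))
    · rw [C.tp_notR hx, C.tp_notR hy]
      rcases C.orA x s (C.notR_VA hx) (C.notR_VA hy) with h | h
      · exact Or.inl h
      · exact Or.inr (Or.inl h)

lemma mixed_not {x : X} {s : T} (hx : ¬ C.R x) (hy : C.R (S.act s x))
    (h1 : C.pA x = some s) (h2 : C.pB (S.act s x) = some (S.inv s)) : False := by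
  have hs : C.sB (S.act s x) = x := by rw [C.sB_eq h2, S.act_inv]
  have hxB : x ∈ C.VB := by rw [← hs]; exact C.sB_mem hy.1
  obtain ⟨a1, a2, a3, a4⟩ := C.notR_all hx hxB
  rcases hy.2 with h | h | h | h
  · exact h (C.meA x s a1 h1)
  · rw [hs] at h; exact h a1
  · rw [hs] at h; exact h a2
  · rw [hs] at h; exact h a3

lemma tp_not (x : X) (s : T) (h : C.tp x = some s) : C.tp (S.act s x) ≠ some (S.inv s) := by
  intro h'
  by_cases hx : C.R x
  · by_cases hy : C.R (S.act s x)
    · rw [C.tp_R hx] at h; rw [C.tp_R hy] at h'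
      exact C.ntB x s hx.1 h h'
    · rw [C.tp_R hx] at h; rw [C.tp_notR hy] at h'
      refine C.mixed_not (x := S.act s x) (s := S.inv s) hy (by rw [S.act_inv]; exact hx) h' ?_
      rw [S.act_inv, S.inv_inv]; exact h
  · by_cases hy : C.R (S.act s x)
    · rw [C.tp_notR hx] at h; rw [C.tp_R hy] at h'
      exact C.mixed_not hx hy h h'
    · rw [C.tp_notR hx] at h; rw [C.tp_notR hy] at h'
      exact C.ntA x s (C.notR_VA hx) h h'

/-! ### facts about `F`-edges -/

lemma FL_facts {x : X} {s : T} (h : C.FL x s) :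
    C.sB x = S.act s x ∧ x ∈ C.VA ∧ S.act s x ∈ C.VA ∧ C.sB (S.act s x) ∈ C.VA ∧
      C.sB (C.sB (S.act s x)) ∈ C.VA ∧ C.sB (C.sB (C.sB (S.act s x))) ∉ C.VA := by
  obtain ⟨h1, h2, h3, h4, h5⟩ := h
  obtain ⟨a1, a2, a3, a4⟩ := C.notR_all h1 h2
  have e := C.sB_eq h4
  rw [e] at a2 a3 a4
  refine ⟨e, a1, a2, a3, a4, ?_⟩
  rcases h3.2 with h | h | h | h
  · exact absurd a2 h
  · exact absurd a3 h
  · exact absurd a4 h
  · exact h

lemma FR_facts {y : X} {s : T} (h : C.FR y s) :
    C.R y ∧ C.pA y = some s ∧ C.pB (S.act s y) = some (S.inv s) ∧ y ∈ C.VA ∧ C.sB y ∈ C.VA ∧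
      C.sB (C.sB y) ∈ C.VA ∧ C.sB (C.sB (C.sB y)) ∉ C.VA := by
  unfold FR at h
  have f := C.FL_facts h
  obtain ⟨h1, h2, h3, h4, h5⟩ := h
  rw [S.act_inv] at h3 h5 f
  rw [S.inv_inv] at h5
  exact ⟨h3, h5, h4, f.2.2.1, f.2.2.2.1, f.2.2.2.2.1, f.2.2.2.2.2⟩

/-- near a point outside `VA` -/
def W (x : X) : Prop := ∃ w, w ∉ C.VA ∧ S.Near 4 x w

lemma FR_W {y : X} {s : T} (h : C.FR y s) : C.W y := by
  obtain ⟨z, hz, hyz⟩ := C.R_near (C.FR_facts h).1
  exact ⟨z, hz, S.near_mono (by omega) hyz⟩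

lemma FL_W {x : X} {s : T} (h : C.FL x s) : C.W x := by
  obtain ⟨z, hz, hyz⟩ := C.R_near h.2.2.1
  exact ⟨z, hz, S.near_mono (by omega) (S.near_trans (S.near_act s x) hyz)⟩

lemma W_VB {x u : X} (hW : C.W x) (h : S.Near 2 u x) : u ∈ C.VB := by
  obtain ⟨w, hw, hxw⟩ := hW
  exact C.VB_of_near hw (S.near_mono (by omega) (S.near_trans h hxw))

lemma FL_up {c : X} {s a : T} (h : C.FL c s) (ha : C.tp c = some a) :
    C.pB (S.act a c) = some (S.inv a) ∧ S.act a c ∈ C.VA := by
  have hW := C.FL_W h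
  obtain ⟨h1, h2, h3, h4, h5⟩ := h
  rw [C.tp_notR h1] at ha
  have hv : S.act a c ∈ C.VA := C.meA c a (C.notR_VA h1) ha
  refine ⟨?_, hv⟩
  have hvB : S.act a c ∈ C.VB :=
    C.W_VB hW (S.near_mono (by omega) (S.near_symm (S.near_act a c)))
  rcases C.orB c a h2 hvB with h | h
  · exfalso
    rw [h4] at h
    obtain rfl := Option.some.inj h
    exact C.ntA c s (C.notR_VA h1) ha h5
  · exact h

lemma FR_up {c : X} {s a : T} (h : C.FR c s) (ha : C.tp c = some a) :
    C.pA (S.act a c) = some (S.inv a) ∧ C.sB c = S.act a c := by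
  obtain ⟨f1, f2, f3, f4, f5, f6, f7⟩ := C.FR_facts h
  rw [C.tp_R f1] at ha
  have e := C.sB_eq ha
  refine ⟨?_, e⟩
  rw [e] at f5
  rcases C.orA c a f4 f5 with h | h
  · exfalso
    rw [f2] at h
    obtain rfl := Option.some.inj h
    exact C.ntB c s f1.1 ha f3
  · exact h

/-! ### chains -/

noncomputable def tau (x : X) : X := S.step (C.tp x) x

lemma tau_eq {x : X} {s : T} (h : C.tp x = some s) : C.tau x = S.act s x := by
  unfold tau; rw [h]; rfl

def Inf (x : X) : Prop := ∀ n, C.tp (C.tau^[n] x) ≠ none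

lemma Inf_iter {x : X} (h : C.Inf x) (k : ℕ) : C.Inf (C.tau^[k] x) := by
  intro n
  rw [← Function.iterate_add_apply]
  exact h _

lemma chain_word {x : X} (h : C.Inf x) (n : ℕ) :
    ∃ l : List T, l.length = n ∧ S.Red l ∧ S.run l x = C.tau^[n] x ∧
      (∀ V : Set X, (∀ k, k ≤ n → C.tau^[k] x ∈ V) → S.path V l x) ∧
      (0 < n → ∀ a ∈ l.head?, C.tp x = some a) := by
  induction n generalizing x with
  | zero =>
    exact ⟨[], rfl, List.IsChain.nil, rfl, fun V hV => hV 0 le_rfl, fun h => absurd h (by simp)⟩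
  | succ n ih =>
    obtain ⟨a, ha⟩ := Option.ne_none_iff_exists'.1 (h 0)
    rw [Function.iterate_zero, id] at ha
    have hτ := C.tau_eq ha
    obtain ⟨l, h1, h2, h3, h4, h5⟩ := ih (x := C.tau x) (C.Inf_iter h 1)
    refine ⟨a :: l, by simp [h1], ?_, ?_, ?_, ?_⟩
    · cases l with
      | nil => exact List.IsChain.singleton a
      | cons b l =>
        refine List.IsChain.cons_cons ?_ h2
        rintro rfl
        have := h5 (by rw [← h1]; simp) (S.inv a) (by simp)
        rw [hτ] at this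
        exact C.tp_not x a ha this
    · rw [S.run_cons, ← hτ, h3, Function.iterate_succ_apply]
    · intro V hV
      refine ⟨hV 0 (by omega), ?_⟩
      rw [← hτ]
      refine h4 V (fun k hk => ?_)
      have := hV (k + 1) (by omega)
      rwa [Function.iterate_succ_apply] at this
    · intro _ b hb
      simp only [List.head?_cons, Option.mem_def, Option.some.injEq] at hb
      rw [← hb]; exact ha

lemma iter_ne {x : X} (h : C.Inf x) {n : ℕ} (hn : 0 < n) : C.tau^[n] x ≠ x := by
  obtain ⟨l, h1, h2, h3, -, -⟩ := C.chain_word h n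
  rw [← h3]
  refine C.free l h2 ?_ x
  rintro rfl
  simp at h1
  omega

lemma iter_inj {x : X} (h : C.Inf x) : Function.Injective (fun n => C.tau^[n] x) := by
  have key : ∀ a b : ℕ, a < b → C.tau^[a] x ≠ C.tau^[b] x := by
    intro a b hab he
    have := C.iter_ne (C.Inf_iter h a) (n := b - a) (by omega)
    rw [← Function.iterate_add_apply] at this
    rw [show b - a + a = b by omega] at this
    exact this he.symm
  intro a b hab
  rcases lt_trichotomy a b with h' | h' | h'
  · exact absurd hab (key a b h')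
  · exact h'
  · exact absurd hab.symm (key b a h')

lemma esc {x : X} (h : C.Inf x) {V : Set X} (hfin : ∀ y, (S.block V y).Finite) (N : ℕ) :
    ∃ n, N ≤ n ∧ C.tau^[n] x ∉ V := by
  by_contra hcon
  push Not at hcon
  have hinf := C.Inf_iter h N
  refine (Set.infinite_range_of_injective (C.iter_inj hinf)) ((hfin (C.tau^[N] x)).subset ?_)
  rintro _ ⟨n, rfl⟩
  obtain ⟨l, h1, h2, h3, h4, -⟩ := C.chain_word hinf n
  refine ⟨l, h4 V (fun k _ => ?_), h3⟩
  rw [← Function.iterate_add_apply]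
  exact hcon _ (by omega)

/-! ### the set `M` -/

noncomputable def lam (m : X) : Option T × Option T := (C.tp m, C.tp (C.tau m))

def Io (x : X) (p : Option T × Option T) : Prop :=
  ∀ N, ∃ n, N ≤ n ∧ C.lam (C.tau^[n] x) = p ∧ C.tau^[n + 1] x ∉ C.VB

lemma Io_tau (x : X) (p : Option T × Option T) : C.Io (C.tau x) p ↔ C.Io x p := by
  constructor
  · intro h N
    obtain ⟨n, h1, h2, h3⟩ := h N
    rw [← Function.iterate_succ_apply] at h2 h3
    exact ⟨n + 1, by omega, h2, h3⟩
  · intro h N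
    obtain ⟨n, h1, h2, h3⟩ := h (N + 1)
    obtain ⟨k, rfl⟩ : ∃ k, n = k + 1 := ⟨n - 1, by omega⟩
    rw [Function.iterate_succ_apply] at h2 h3
    exact ⟨k, by omega, h2, h3⟩

lemma Io_iter (k : ℕ) (x : X) (p : Option T × Option T) :
    C.Io (C.tau^[k] x) p ↔ C.Io x p := by
  induction k generalizing x with
  | zero => rfl
  | succ k ih => rw [Function.iterate_succ_apply, ih, C.Io_tau]

variable (e : Option T × Option T → ℕ)

def M1 (m : X) : Prop := C.Inf m ∧ C.tau m ∉ C.VB ∧ C.Io m (C.lam m) ∧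
  ∀ q, C.Io m q → e (C.lam m) ≤ e q

def M (m : X) : Prop := C.M1 e m ∧ ¬ C.M1 e (C.tau m)

variable {e}

lemma M_meets [Finite T] {x : X} (h : C.Inf x) : ∃ n, C.M e (C.tau^[n] x) := by
  classical
  have hIo : ∃ p, C.Io x p := by
    by_contra hcon
    unfold Io at hcon
    push Not at hcon
    choose N hN using hcon
    obtain ⟨K, hK⟩ := (Set.finite_range N).bddAbove
    obtain ⟨n, hn, hn'⟩ := C.esc h C.finB (K + 1)
    obtain ⟨k, rfl⟩ : ∃ k, n = k + 1 := ⟨n - 1, by omega⟩
    have h1 : N (C.lam (C.tau^[k] x)) ≤ K := hK ⟨_, rfl⟩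
    exact hn' (hN (C.lam (C.tau^[k] x)) k (by omega) rfl)
  obtain ⟨p, hp, hmin⟩ := Set.exists_min_image {p | C.Io x p} e (Set.toFinite _) hIo
  have hM1 : ∀ N, ∃ n, N ≤ n ∧ C.M1 e (C.tau^[n] x) := by
    intro N
    obtain ⟨n, h1, h2, h3⟩ := hp N
    refine ⟨n, h1, C.Inf_iter h n, ?_, ?_, ?_⟩
    · rwa [Function.iterate_succ_apply'] at h3
    · rw [h2, C.Io_iter]; exact hp
    · intro q hq
      rw [h2]
      rw [C.Io_iter] at hq
      exact hmin q hq
  by_contra hcon
  push Not at hcon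
  obtain ⟨n0, -, hn0⟩ := hM1 0
  have hall : ∀ k, C.M1 e (C.tau^[n0 + k] x) := by
    intro k
    induction k with
    | zero => exact hn0
    | succ k ih =>
      by_contra hk
      refine hcon (n0 + k) ⟨ih, ?_⟩
      rw [← Function.iterate_succ_apply' C.tau]
      exact hk
  obtain ⟨n, hn, hnA⟩ := C.esc h C.finA (n0 + 1)
  obtain ⟨k, rfl⟩ : ∃ k, n = n0 + k + 1 := ⟨n - n0 - 1, by omega⟩
  have := (hall k).2.1
  rw [← Function.iterate_succ_apply' C.tau] at this
  exact this ((C.cov _).resolve_left hnA)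

lemma M1_eq (he : Function.Injective e) {m m' : X} {j j' : ℕ} (h : C.M1 e m) (h' : C.M1 e m')
    (hh : C.tau^[j] m = C.tau^[j'] m') : C.lam m = C.lam m' := by
  have key : ∀ q, C.Io m q ↔ C.Io m' q := by
    intro q
    rw [← C.Io_iter j m q, hh, C.Io_iter j' m' q]
  apply he
  refine le_antisymm ?_ ?_
  · exact h.2.2.2 _ ((key _).2 h'.2.2.1)
  · exact h'.2.2.2 _ ((key _).1 h.2.2.1)

variable (e)

def ML (x : X) (s : T) : Prop := C.M e x ∧ C.tp x = some s

def MR (x : X) (s : T) : Prop := C.ML e (S.act s x) (S.inv s)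

/-- the cut edges -/
def cut (x : X) (s : T) : Prop := C.FL x s ∨ C.FR x s ∨ C.ML e x s ∨ C.MR e x s

open Classical in
noncomputable def par' (x : X) : Option T := if C.M e x then none else C.tp x

variable {e}

lemma par'_some {x : X} {s : T} (h : C.par' e x = some s) : ¬ C.M e x ∧ C.tp x = some s := by
  unfold par' at h
  split_ifs at h with hM
  exact ⟨hM, h⟩

lemma cut_symm {x : X} {s : T} (h : C.cut e x s) : C.cut e (S.act s x) (S.inv s) := by
  have e1 : S.act (S.inv s) (S.act s x) = x := S.act_inv s x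
  rcases h with h | h | h | h
  · right; left
    unfold FR
    rw [e1, S.inv_inv]; exact h
  · left; exact h
  · right; right; right
    unfold MR
    rw [e1, S.inv_inv]; exact h
  · right; right; left; exact h

lemma ML_W {x : X} {s : T} (h : C.ML e x s) : ¬ C.W x := by
  intro hW
  have h1 : C.tau x ∉ C.VB := h.1.1.2.1
  apply h1
  exact C.W_VB hW (S.near_mono (m := 1) (by omega) (S.near_symm (S.near_step _ x)))

lemma MR_tau {x : X} {s : T} (h : C.MR e x s) : C.tau (S.act s x) = x := by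
  rw [C.tau_eq h.2, S.act_inv]

lemma MR_VB {x : X} {s : T} (h : C.MR e x s) : x ∉ C.VB := by
  have h1 : C.tau (S.act s x) ∉ C.VB := h.1.1.2.1
  rwa [C.MR_tau h] at h1

lemma MR_W {x : X} {s : T} (h : C.MR e x s) : ¬ C.W x := by
  intro hW
  exact C.MR_VB h (C.W_VB hW (S.near_refl _ _))

lemma cut_unique (he : Function.Injective e) {x : X} {s s' : T} (h : C.cut e x s)
    (h' : C.cut e x s') : s = s' := by
  have key : ∀ {t t' : T}, C.FL x t → C.FR x t' → False := fun h1 h2 =>
    h1.1 (C.FR_facts h2).1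
  have key2 : ∀ {t t' : T}, C.ML e x t → C.MR e x t' → False := by
    intro t t' h1 h2
    have := h2.1.2
    rw [C.MR_tau h2] at this
    exact this h1.1.1
  rcases h with h | h | h | h <;> rcases h' with h' | h' | h' | h'
  · exact Option.some.inj (h.2.2.2.1.symm.trans h'.2.2.2.1)
  · exact (key h h').elim
  · exact (C.ML_W h' (C.FL_W h)).elim
  · exact (C.MR_W h' (C.FL_W h)).elim
  · exact (key h' h).elim
  · exact Option.some.inj ((C.FR_facts h).2.1.symm.trans (C.FR_facts h').2.1)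
  · exact (C.ML_W h' (C.FR_W h)).elim
  · exact (C.MR_W h' (C.FR_W h)).elim
  · exact (C.ML_W h (C.FL_W h')).elim
  · exact (C.ML_W h (C.FR_W h')).elim
  · exact Option.some.inj (h.2.symm.trans h'.2)
  · exact (key2 h h').elim
  · exact (C.MR_W h (C.FL_W h')).elim
  · exact (C.MR_W h (C.FR_W h')).elim
  · exact (key2 h' h).elim
  · have := C.M1_eq he (j := 1) (j' := 1) h.1.1 h'.1.1 (by
      rw [Function.iterate_one]
      rw [C.MR_tau h, C.MR_tau h'])
    have h3 := congrArg Prod.fst this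
    simp only [lam] at h3
    rw [h.2, h'.2] at h3
    have h4 := Option.some.inj h3
    have h5 := congrArg S.inv h4
    rwa [S.inv_inv, S.inv_inv] at h5

lemma cut_cover (x : X) (s : T) :
    C.cut e x s ∨ C.par' e x = some s ∨ C.par' e (S.act s x) = some (S.inv s) := by
  rcases C.cover_edge x s with h | h | h | h
  · by_cases hM : C.M e x
    · exact Or.inl (Or.inr (Or.inr (Or.inl ⟨hM, h⟩)))
    · right; left; unfold par'; rw [if_neg hM]; exact h
  · by_cases hM : C.M e (S.act s x)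
    · exact Or.inl (Or.inr (Or.inr (Or.inr ⟨hM, h⟩)))
    · right; right; unfold par'; rw [if_neg hM]; exact h
  · exact Or.inl (Or.inl h)
  · exact Or.inl (Or.inr (Or.inl h))

lemma FL_tp {x : X} {s : T} (h : C.FL x s) :
    C.tp x ≠ some s ∧ C.tp (S.act s x) ≠ some (S.inv s) := by
  obtain ⟨h1, h2, h3, h4, h5⟩ := h
  rw [C.tp_notR h1, C.tp_R h3]
  exact ⟨fun h => C.ntA x s (C.notR_VA h1) h h5, fun h => C.ntB x s h2 h4 h⟩

lemma par'_not_cut {x : X} {s : T} (h : C.par' e x = some s) : ¬ C.cut e x s := by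
  obtain ⟨h1, h2⟩ := C.par'_some h
  rintro (h' | h' | h' | h')
  · exact (C.FL_tp h').1 h2
  · have := (C.FL_tp h').2
    rw [S.act_inv, S.inv_inv] at this
    exact this h2
  · exact h1 h'.1
  · have := C.tp_not x s h2
    exact this h'.2

lemma par'_not {x : X} {s : T} (h : C.par' e x = some s) :
    C.par' e (S.act s x) ≠ some (S.inv s) := by
  intro h'
  exact C.tp_not x s (C.par'_some h).2 (C.par'_some h').2

lemma special_unique (he : Function.Injective e) {v : X} {t t' : T}
    (h1 : C.par' e (S.act t v) = some (S.inv t)) (h2 : ∃ s, C.cut e (S.act t v) s)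
    (h1' : C.par' e (S.act t' v) = some (S.inv t')) (h2' : ∃ s, C.cut e (S.act t' v) s) :
    t = t' := by
  obtain ⟨hM, htp⟩ := C.par'_some h1
  obtain ⟨hM', htp'⟩ := C.par'_some h1'
  obtain ⟨s, hs⟩ := h2
  obtain ⟨s', hs'⟩ := h2'
  have near2 : ∀ a b : T, S.Near 2 (S.act a v) (S.act b v) := fun a b =>
    S.near_trans (S.near_symm (S.near_act a v)) (S.near_act b v)
  have FLr : ∀ {a r : T}, C.FL (S.act a v) r → C.tp (S.act a v) = some (S.inv a) →
      C.pB v = some a ∧ v ∈ C.VA := by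
    intro a r h h'
    have := C.FL_up h h'
    rwa [S.act_inv, S.inv_inv] at this
  have FRr : ∀ {a r : T}, C.FR (S.act a v) r → C.tp (S.act a v) = some (S.inv a) →
      C.pA v = some a ∧ C.sB (S.act a v) = v := by
    intro a r h h'
    have := C.FR_up h h'
    rwa [S.act_inv, S.inv_inv] at this
  have LR : ∀ {a r a' r' : T}, C.FL (S.act a v) r → C.tp (S.act a v) = some (S.inv a) →
      C.FR (S.act a' v) r' → C.tp (S.act a' v) = some (S.inv a') → False := by
    intro a r a' r' h1 h2 h3 h4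
    obtain ⟨p1, p2⟩ := FLr h1 h2
    obtain ⟨q1, q2⟩ := FRr h3 h4
    obtain ⟨g1, g2, g3, g4, g5, g6, g7⟩ := C.FR_facts h3
    rw [q2, C.sB_eq p1] at g7
    exact g7 (by rw [(C.FL_facts h1).1]; exact (C.FL_facts h1).2.2.1)
  rcases hs with h | h | h | h <;> rcases hs' with h' | h' | h' | h'
  · exact Option.some.inj ((FLr h htp).1.symm.trans (FLr h' htp').1)
  · exact (LR h htp h' htp').elim
  · exact (hM' h'.1).elim
  · exact (C.MR_VB h' (C.W_VB (C.FL_W h) (near2 _ _))).elim
  · exact (LR h' htp' h htp).elim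
  · exact Option.some.inj ((FRr h htp).1.symm.trans (FRr h' htp').1)
  · exact (hM' h'.1).elim
  · exact (C.MR_VB h' (C.W_VB (C.FR_W h) (near2 _ _))).elim
  · exact (hM h.1).elim
  · exact (hM h.1).elim
  · exact (hM h.1).elim
  · exact (hM h.1).elim
  · exact (C.MR_VB h (C.W_VB (C.FL_W h') (near2 _ _))).elim
  · exact (C.MR_VB h (C.W_VB (C.FR_W h') (near2 _ _))).elim
  · exact (hM' h'.1).elim
  · have := C.M1_eq he (j := 2) (j' := 2) h.1.1 h'.1.1 (by
      simp only [Function.iterate_succ, Function.iterate_zero, Function.comp_apply, id]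
      rw [C.MR_tau h, C.MR_tau h', C.tau_eq htp, C.tau_eq htp', S.act_inv, S.act_inv])
    have h3 := congrArg Prod.snd this
    simp only [lam] at h3
    rw [C.MR_tau h, C.MR_tau h', htp, htp'] at h3
    have h4 := Option.some.inj h3
    have h5 := congrArg S.inv h4
    rwa [S.inv_inv, S.inv_inv] at h5

lemma finite_chain [Finite T] (x : X) :
    ∃ n, C.par' e ((fun y => S.step (C.par' e y) y)^[n] x) = none := by
  by_contra hcon
  push Not at hcon
  have key : ∀ n, (fun y => S.step (C.par' e y) y)^[n] x = C.tau^[n] x := by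
    intro n
    induction n with
    | zero => rfl
    | succ n ih =>
      have h1 := hcon n
      rw [Function.iterate_succ_apply', Function.iterate_succ_apply', ih]
      rw [ih] at h1
      obtain ⟨s, hs⟩ := Option.ne_none_iff_exists'.1 h1
      rw [hs]
      rw [C.tau_eq (C.par'_some hs).2]
      rfl
  have hinf : C.Inf x := by
    intro n hn
    have h1 := hcon n
    rw [key] at h1
    obtain ⟨s, hs⟩ := Option.ne_none_iff_exists'.1 h1
    rw [(C.par'_some hs).2] at hn
    simp at hn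
  obtain ⟨n, hn⟩ := C.M_meets (e := e) hinf
  have h1 := hcon n
  rw [key] at h1
  apply h1
  unfold par'
  rw [if_pos hn]

/-! ### measurability -/

section meas

variable [MeasurableSpace X] [Countable T] (hact : ∀ t, Measurable (S.act t))
  (hVA : MeasurableSet C.VA) (hVB : MeasurableSet C.VB) (hpA : FM C.pA) (hpB : FM C.pB)

include hact hVA hVB hpB

omit hVA hVB in
lemma measurable_sB : Measurable C.sB := S.measurable_step hact hpB

lemma measurableSet_R : MeasurableSet {x | C.R x} := by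
  have h1 := C.measurable_sB hact hpB
  have : {x | C.R x} = C.VB ∩ (C.VAᶜ ∪ (C.sB ⁻¹' C.VAᶜ ∪ ((C.sB ∘ C.sB) ⁻¹' C.VAᶜ ∪
      (C.sB ∘ C.sB ∘ C.sB) ⁻¹' C.VAᶜ))) := by
    ext x; rfl
  rw [this]
  exact hVB.inter (hVA.compl.union ((h1 hVA.compl).union
    (((h1.comp h1) hVA.compl).union ((h1.comp (h1.comp h1)) hVA.compl))))

include hpA

lemma FM_tp : FM C.tp := by
  classical
  have := FM.ite (C.measurableSet_R hact hVA hVB hpB) hpB hpA
  exact this

lemma measurable_tau : Measurable C.tau :=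
  S.measurable_step hact (C.FM_tp hact hVA hVB hpA hpB)

lemma measurable_iter (n : ℕ) : Measurable (C.tau^[n]) :=
  (C.measurable_tau hact hVA hVB hpA hpB).iterate n

lemma measurableSet_Inf : MeasurableSet {x | C.Inf x} := by
  have : {x | C.Inf x} = ⋂ n, (C.tau^[n]) ⁻¹' {x | C.tp x = none}ᶜ := by
    ext x; simp [Inf]
  rw [this]
  exact MeasurableSet.iInter (fun n => (C.measurable_iter hact hVA hVB hpA hpB n)
    ((C.FM_tp hact hVA hVB hpA hpB) none).compl)

lemma FM_lam : FM C.lam :=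
  (C.FM_tp hact hVA hVB hpA hpB).pair
    ((C.FM_tp hact hVA hVB hpA hpB).comp_meas (C.measurable_tau hact hVA hVB hpA hpB))

lemma measurableSet_Io (p : Option T × Option T) : MeasurableSet {x | C.Io x p} := by
  have : {x | C.Io x p} = ⋂ N : ℕ, ⋃ n : ℕ, ({_x | N ≤ n} ∩ ((C.tau^[n]) ⁻¹' {x | C.lam x = p} ∩
      (C.tau^[n + 1]) ⁻¹' C.VBᶜ)) := by
    ext x; simp [Io]
  rw [this]
  refine MeasurableSet.iInter (fun N => MeasurableSet.iUnion (fun n => ?_))
  exact (MeasurableSet.const _).inter (((C.measurable_iter hact hVA hVB hpA hpB n)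
    (C.FM_lam hact hVA hVB hpA hpB p)).inter
    ((C.measurable_iter hact hVA hVB hpA hpB (n + 1)) hVB.compl))

lemma measurableSet_M1 : MeasurableSet {x | C.M1 e x} := by
  have : {x | C.M1 e x} = {x | C.Inf x} ∩ (C.tau ⁻¹' C.VBᶜ ∩
      ⋃ p, ({x | C.lam x = p} ∩ ({x | C.Io x p} ∩
        ⋂ q, ({x | C.Io x q}ᶜ ∪ {_x | e p ≤ e q})))) := by
    ext x
    simp only [M1, Set.mem_ofPred_eq, Set.mem_inter_iff, Set.mem_iUnion, Set.mem_iInter,
      Set.mem_union, Set.mem_compl_iff, Set.mem_preimage]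
    constructor
    · rintro ⟨h1, h2, h3, h4⟩
      refine ⟨h1, h2, _, rfl, h3, fun q => ?_⟩
      by_cases hq : C.Io x q
      · exact Or.inr (h4 q hq)
      · exact Or.inl hq
    · rintro ⟨h1, h2, p, h3, h4, h5⟩
      subst h3
      exact ⟨h1, h2, h4, fun q hq => (h5 q).resolve_left (fun h => h hq)⟩
  rw [this]
  refine (C.measurableSet_Inf hact hVA hVB hpA hpB).inter
    (((C.measurable_tau hact hVA hVB hpA hpB) hVB.compl).inter
      (MeasurableSet.iUnion (fun p => (C.FM_lam hact hVA hVB hpA hpB p).inter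
        ((C.measurableSet_Io hact hVA hVB hpA hpB p).inter
          (MeasurableSet.iInter (fun q =>
            (C.measurableSet_Io hact hVA hVB hpA hpB q).compl.union (MeasurableSet.const _)))))))

lemma measurableSet_M : MeasurableSet {x | C.M e x} := by
  have : {x | C.M e x} = {x | C.M1 e x} ∩ C.tau ⁻¹' {x | C.M1 e x}ᶜ := by
    ext x; rfl
  rw [this]
  exact (C.measurableSet_M1 hact hVA hVB hpA hpB).inter
    ((C.measurable_tau hact hVA hVB hpA hpB) (C.measurableSet_M1 hact hVA hVB hpA hpB).compl)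

lemma FM_par' : FM (C.par' e) := by
  classical
  have := FM.ite (C.measurableSet_M (e := e) hact hVA hVB hpA hpB) (FM.const (none : Option T))
    (C.FM_tp hact hVA hVB hpA hpB)
  exact this

lemma measurableSet_FL (s : T) : MeasurableSet {x | C.FL x s} := by
  have hR := C.measurableSet_R hact hVA hVB hpB
  have : {x | C.FL x s} = {x | C.R x}ᶜ ∩ (C.VB ∩ ((S.act s) ⁻¹' {x | C.R x} ∩
      ({x | C.pB x = some s} ∩ (S.act s) ⁻¹' {x | C.pA x = some (S.inv s)}))) := by
    ext x; rfl
  rw [this]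
  exact hR.compl.inter (hVB.inter ((hact s hR).inter ((hpB _).inter (hact s (hpA _)))))

lemma measurableSet_ML (s : T) : MeasurableSet {x | C.ML e x s} :=
  (C.measurableSet_M hact hVA hVB hpA hpB).inter (C.FM_tp hact hVA hVB hpA hpB _)

lemma measurableSet_cut (s : T) : MeasurableSet {x | C.cut e x s} := by
  have h1 := C.measurableSet_FL hact hVA hVB hpA hpB
  have h2 := C.measurableSet_ML (e := e) hact hVA hVB hpA hpB
  have : {x | C.cut e x s} = {x | C.FL x s} ∪ ((S.act s) ⁻¹' {x | C.FL x (S.inv s)} ∪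
      ({x | C.ML e x s} ∪ (S.act s) ⁻¹' {x | C.ML e x (S.inv s)})) := by
    ext x; rfl
  rw [this]
  exact (h1 s).union ((hact s (h1 _)).union ((h2 s).union (hact s (h2 _))))

end meas

end Cover

end TTree

end Pool.Agent.MP1822T
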