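import Pool.Agent.Lib.MP_1822da_lc.TreeB

/-!
# Top-down colouring along finite parent chains, and the abstract theorem
-/

namespace Pool.Agent.MP1822T

open MeasureTheory

section rule

variable {T : Type*}

/-- the constraints for the bijection ports to colours at a vertex -/
def OK (z : T) (p : Option T) (q sp : T → Prop) (i : T) (β : T → T) : Prop :=
  Function.Injective β ∧ (∀ t, p = some t → β t = i) ∧ (∀ t, q t → β t = z) ∧
    (∀ t, sp t → β t ≠ z)

lemma perm2 [DecidableEq T] {a b c d : T} (hab : a ≠ b) (hcd : c ≠ d) :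
    ∃ β : T → T, Function.Injective β ∧ β a = c ∧ β b = d := by
  refine ⟨fun t => Equiv.swap (Equiv.swap a c b) d (Equiv.swap a c t), ?_, ?_, ?_⟩
  · intro s t h
    exact (Equiv.swap a c).injective ((Equiv.swap _ d).injective h)
  · have h1 : Equiv.swap a c b ≠ c := by
      intro h
      apply hab
      apply (Equiv.swap a c).injective
      rw [h, Equiv.swap_apply_left]
    simp only [Equiv.swap_apply_left]
    exact Equiv.swap_apply_of_ne_of_ne h1.symm hcd
  · simp only [Equiv.swap_apply_left]

lemma exists_rule [Fintype T] [DecidableEq T] (h3 : 3 ≤ Fintype.card T) (z : T) (p : Option T)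
    (q sp : T → Prop) (i : T) (hq : ∀ t t', q t → q t' → t = t')
    (hsp : ∀ t t', sp t → sp t' → t = t') (hpq : ∀ t, p = some t → ¬ q t)
    (hqs : ∀ t, q t → ¬ sp t) (hps : ∀ t, p = some t → ¬ sp t)
    (hi : (∃ t, q t) → p ≠ none → i ≠ z) : ∃ β, OK z p q sp i β := by
  classical
  -- it is enough to find a port `a` for the colour `z`
  have key : ∀ a β, Function.Injective β → β a = z → ¬ sp a → (∀ t, q t → t = a) →
      (∀ t, p = some t → β t = i) → ∃ β, OK z p q sp i β := by
    intro a β hβ ha hsa hqa hpt
    refine ⟨β, hβ, hpt, fun t ht => by rw [hqa t ht, ha], fun t ht h => ?_⟩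
    have : t = a := hβ (h.trans ha.symm)
    exact hsa (this ▸ ht)
  by_cases hex : ∃ a, q a
  · obtain ⟨a, ha⟩ := hex
    cases hp : p with
    | none =>
      rw [hp] at key
      exact key a (Equiv.swap a z) (Equiv.injective _) (Equiv.swap_apply_left _ _) (hqs a ha)
        (fun t ht => hq t a ht ha) (fun t ht => by simp at ht)
    | some b =>
      have hab : a ≠ b := by
        rintro rfl
        exact hpq a hp ha
      have hiz : z ≠ i := fun h => hi ⟨a, ha⟩ (by rw [hp]; simp) h.symm
      obtain ⟨β, h1, h2, h3⟩ := perm2 hab hiz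
      rw [hp] at key
      exact key a β h1 h2 (hqs a ha) (fun t ht => hq t a ht ha)
        (fun t ht => by rw [← Option.some.inj ht]; exact h3)
  · push Not at hex
    cases hp : p with
    | none =>
      obtain ⟨a, ha⟩ : ∃ a, ¬ sp a := by
        by_contra hcon
        push Not at hcon
        have : Fintype.card T ≤ 1 :=
          Fintype.card_le_one_iff.2 (fun a b => hsp a b (hcon a) (hcon b))
        omega
      rw [hp] at key
      exact key a (Equiv.swap a z) (Equiv.injective _) (Equiv.swap_apply_left _ _) ha
        (fun t ht => absurd ht (hex t)) (fun t ht => by simp at ht)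
    | some b =>
      by_cases hiz : i = z
      · rw [hp] at key
        refine key b (Equiv.swap b z) (Equiv.injective _) (Equiv.swap_apply_left _ _) (hps b hp)
          (fun t ht => absurd ht (hex t)) (fun t ht => ?_)
        rw [← Option.some.inj ht, Equiv.swap_apply_left, hiz]
      · obtain ⟨a, ha, hab⟩ : ∃ a, ¬ sp a ∧ a ≠ b := by
          by_contra hcon
          push Not at hcon
          by_cases hs : ∃ c, sp c
          · obtain ⟨c, hc⟩ := hs
            have h4 : (Finset.univ : Finset T) ⊆ {b, c} := by
              intro t _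
              by_cases ht : sp t
              · simp [hsp t c ht hc]
              · simp [hcon t ht]
            have h5 := (Finset.card_le_card h4).trans (Finset.card_le_two)
            rw [Finset.card_univ] at h5
            omega
          · push Not at hs
            have : Fintype.card T ≤ 1 :=
              Fintype.card_le_one_iff.2 (fun a c => (hcon a (hs a)).trans (hcon c (hs c)).symm)
            omega
        obtain ⟨β, h1, h2, h3⟩ := perm2 hab (fun h => hiz h.symm : z ≠ i)
        rw [hp] at key
        exact key a β h1 h2 ha (fun t ht => absurd ht (hex t))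
          (fun t ht => by rw [← Option.some.inj ht]; exact h3)

open Classical in
noncomputable def rule (z : T) (D : Option T × (T → Prop) × (T → Prop)) (i : T) : T → T :=
  if h : ∃ β, OK z D.1 D.2.1 D.2.2 i β then h.choose else id

lemma rule_spec {z : T} {D : Option T × (T → Prop) × (T → Prop)} {i : T}
    (h : ∃ β, OK z D.1 D.2.1 D.2.2 i β) : OK z D.1 D.2.1 D.2.2 i (rule z D i) := by
  unfold rule
  rw [dif_pos h]
  exact h.choose_spec

end rule

namespace TTree

variable {T X : Type*} (S : TTree T X)

/-- a forest with finite parent chains together with a sparse matching of cut edges -/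
structure Plan where
  par : X → Option T
  cut : X → T → Prop
  cover : ∀ x s, cut x s ∨ par x = some s ∨ par (S.act s x) = some (S.inv s)
  symm : ∀ x s, cut x s → cut (S.act s x) (S.inv s)
  uniq : ∀ x s s', cut x s → cut x s' → s = s'
  par_cut : ∀ x s, par x = some s → ¬ cut x s
  par_not : ∀ x s, par x = some s → par (S.act s x) ≠ some (S.inv s)
  special : ∀ x s s', par (S.act s x) = some (S.inv s) → (∃ r, cut (S.act s x) r) →
    par (S.act s' x) = some (S.inv s') → (∃ r, cut (S.act s' x) r) → s = s'
  fin : ∀ x, ∃ n, par ((fun y => S.step (par y) y)^[n] x) = none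

namespace Plan

variable {S} (P : S.Plan) (z : T)

def sp (x : X) (t : T) : Prop :=
  P.par (S.act t x) = some (S.inv t) ∧ ∃ r, P.cut (S.act t x) r

def dat (x : X) : Option T × (T → Prop) × (T → Prop) := (P.par x, P.cut x, P.sp x)

noncomputable def bet : ℕ → X → T → T
  | 0, x => rule z (P.dat x) z
  | n + 1, x => rule z (P.dat x) ((P.par x).elim z (fun p => bet n (S.act p x) (S.inv p)))

open Classical in
noncomputable def dep (x : X) : ℕ := Nat.find (P.fin x)

lemma dep_spec (x : X) : P.par ((fun y => S.step (P.par y) y)^[P.dep x] x) = none := by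
  classical
  exact Nat.find_spec (P.fin x)

lemma dep_eq_iff (x : X) (n : ℕ) : P.dep x = n ↔
    P.par ((fun y => S.step (P.par y) y)^[n] x) = none ∧
      ∀ m < n, P.par ((fun y => S.step (P.par y) y)^[m] x) ≠ none := by
  classical
  exact Nat.find_eq_iff (P.fin x)

lemma dep_zero {x : X} (h : P.par x = none) : P.dep x = 0 := by
  rw [P.dep_eq_iff]
  exact ⟨h, fun m hm => absurd hm (by omega)⟩

lemma par_of_dep_zero {x : X} (h : P.dep x = 0) : P.par x = none := by
  have := P.dep_spec x
  rwa [h] at this

lemma dep_succ {x : X} {p : T} (h : P.par x = some p) : P.dep x = P.dep (S.act p x) + 1 := by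
  rw [P.dep_eq_iff]
  obtain ⟨h1, h2⟩ := (P.dep_eq_iff (S.act p x) _).1 rfl
  have e : S.step (P.par x) x = S.act p x := by rw [h]; rfl
  refine ⟨?_, ?_⟩
  · rw [Function.iterate_succ_apply, e]; exact h1
  · intro m hm
    cases m with
    | zero => rw [Function.iterate_zero, id, h]; simp
    | succ m =>
      rw [Function.iterate_succ_apply, e]
      exact h2 m (by omega)

lemma bet_stable : ∀ (d : ℕ) (x : X), P.dep x = d → ∀ n, d ≤ n → P.bet z n x = P.bet z d x := by
  intro d
  induction d with
  | zero =>
    intro x hx n _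
    have hp := P.par_of_dep_zero hx
    cases n with
    | zero => rfl
    | succ n => simp only [bet, hp, Option.elim]
  | succ d ih =>
    intro x hx n hn
    cases hp : P.par x with
    | none => rw [P.dep_zero hp] at hx; omega
    | some p =>
      obtain ⟨m, rfl⟩ : ∃ m, n = m + 1 := ⟨n - 1, by omega⟩
      have h1 := P.dep_succ hp
      have h2 := ih (S.act p x) (by omega) m (by omega)
      simp only [bet, hp, Option.elim, h2]

noncomputable def col (x : X) : T → T := P.bet z (P.dep x) x

lemma col_some {x : X} {p : T} (h : P.par x = some p) :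
    P.col z x = rule z (P.dat x) (P.col z (S.act p x) (S.inv p)) := by
  unfold col
  rw [P.dep_succ h]
  simp only [bet, h, Option.elim]

lemma col_none {x : X} (h : P.par x = none) : P.col z x = rule z (P.dat x) z := by
  unfold col
  rw [P.dep_zero h]
  rfl

variable [Fintype T]

lemma col_ok (h3 : 3 ≤ Fintype.card T) (z : T) : ∀ (d : ℕ) (x : X), P.dep x = d →
    OK z (P.par x) (P.cut x) (P.sp x)
      ((P.par x).elim z (fun p => P.col z (S.act p x) (S.inv p))) (P.col z x) := by
  classical
  have hq : ∀ x, ∀ t t', P.cut x t → P.cut x t' → t = t' := P.uniq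
  have hs : ∀ x, ∀ t t', P.sp x t → P.sp x t' → t = t' := fun x t t' h h' =>
    P.special x t t' h.1 h.2 h'.1 h'.2
  have hqs : ∀ x, ∀ t, P.cut x t → ¬ P.sp x t := by
    intro x t h h'
    exact P.par_cut _ _ h'.1 (P.symm x t h)
  have hps : ∀ x, ∀ t, P.par x = some t → ¬ P.sp x t := fun x t h h' => P.par_not x t h h'.1
  intro d
  induction d with
  | zero =>
    intro x hx
    have hp := P.par_of_dep_zero hx
    rw [P.col_none z hp]
    have := exists_rule h3 z (P.par x) (P.cut x) (P.sp x)
      ((P.par x).elim z (fun p => P.col z (S.act p x) (S.inv p))) (hq x) (hs x) (P.par_cut x)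
      (hqs x) (hps x) (fun _ h => absurd hp h)
    have h5 := rule_spec (D := P.dat x) this
    have e : (P.par x).elim z (fun p => P.col z (S.act p x) (S.inv p)) = z := by rw [hp]; rfl
    rw [e] at h5 ⊢
    exact h5
  | succ d ih =>
    intro x hx
    cases hp : P.par x with
    | none => rw [P.dep_zero hp] at hx; omega
    | some p =>
      rw [P.col_some z hp]
      have h1 := P.dep_succ hp
      have h2 := ih (S.act p x) (by omega)
      have e1 : S.act (S.inv p) (S.act p x) = x := S.act_inv p x
      have h4 : (∃ t, P.cut x t) → P.par x ≠ none → P.col z (S.act p x) (S.inv p) ≠ z := by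
        intro hc _
        refine h2.2.2.2 (S.inv p) ⟨?_, ?_⟩
        · rw [e1, S.inv_inv]; exact hp
        · rw [e1]; exact hc
      have := exists_rule h3 z (P.par x) (P.cut x) (P.sp x)
        (P.col z (S.act p x) (S.inv p)) (hq x) (hs x) (P.par_cut x)
        (hqs x) (hps x) h4
      have h5 := rule_spec (D := P.dat x) this
      rw [← hp]
      have e : (P.par x).elim z (fun p => P.col z (S.act p x) (S.inv p)) =
        P.col z (S.act p x) (S.inv p) := by rw [hp]; rfl
      rw [e]
      exact h5

lemma col_edge (h3 : 3 ≤ Fintype.card T) (z : T) (x : X) (t : T) :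
    P.col z (S.act t x) (S.inv t) = P.col z x t := by
  have o1 := P.col_ok h3 z _ x rfl
  have o2 := P.col_ok h3 z _ (S.act t x) rfl
  rcases P.cover x t with h | h | h
  · rw [o1.2.2.1 t h, o2.2.2.1 (S.inv t) (P.symm x t h)]
  · have := o1.2.1 t h
    rw [this, h]; rfl
  · have := o2.2.1 (S.inv t) h
    rw [this, h]
    show P.col z (S.act (S.inv t) (S.act t x)) (S.inv (S.inv t)) = P.col z x t
    rw [S.act_inv, S.inv_inv]

section meas

variable [MeasurableSpace X] (hact : ∀ t, Measurable (S.act t)) (hpar : FM P.par)
  (hcut : ∀ s, MeasurableSet {x | P.cut x s})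

include hact hpar hcut

lemma FM_dat : FM P.dat := by
  refine hpar.pair (FM.pair ?_ ?_)
  · exact FM.pi (fun s => FM.of_prop (hcut s))
  · refine FM.pi (f := fun s x => P.sp x s) (fun s => FM.of_prop ?_)
    have : {x | P.sp x s} = (S.act s) ⁻¹' ({x | P.par x = some (S.inv s)} ∩
        ⋃ r, {x | P.cut x r}) := by
      ext x; simp [sp]
    rw [this]
    exact hact s ((hpar _).inter (MeasurableSet.iUnion (fun r => hcut r)))

lemma FM_bet (n : ℕ) : FM (P.bet z n) := by
  induction n with
  | zero => exact (P.FM_dat hact hpar hcut).comp (fun D => rule z D z)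
  | succ n ih =>
    have h1 : FM (fun x => fun t => P.bet z n (S.act t x)) :=
      FM.pi (f := fun t x => P.bet z n (S.act t x)) (fun t => ih.comp_meas (hact t))
    have h2 := ((P.FM_dat hact hpar hcut).pair (hpar.pair h1)).comp
      (fun E => rule z E.1 (E.2.1.elim z (fun p => E.2.2 p (S.inv p))))
    exact h2

omit hcut in
lemma FM_dep : FM P.dep := by
  have hs : ∀ n : ℕ, Measurable ((fun y => S.step (P.par y) y)^[n]) := fun n =>
    (S.measurable_step hact hpar).iterate n
  intro n
  have : {x | P.dep x = n} = ((fun y => S.step (P.par y) y)^[n]) ⁻¹' {x | P.par x = none} ∩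
      ⋂ m : ℕ, ({_x | ¬ m < n} ∪
        ((fun y => S.step (P.par y) y)^[m]) ⁻¹' {x | P.par x = none}ᶜ) := by
    ext x
    simp only [Set.mem_ofPred_eq, Set.mem_inter_iff, Set.mem_iInter, Set.mem_union,
      Set.mem_preimage, Set.mem_compl_iff]
    rw [P.dep_eq_iff]
    refine and_congr Iff.rfl (forall_congr' (fun m => ?_))
    tauto
  rw [this]
  exact ((hs n) (hpar none)).inter (MeasurableSet.iInter (fun m =>
    (MeasurableSet.const _).union ((hs m) (hpar none).compl)))

lemma FM_col : FM (P.col z) := by
  intro k
  have : {x | P.col z x = k} = ⋃ n : ℕ, ({x | P.dep x = n} ∩ {x | P.bet z n x = k}) := by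
    ext x; simp [col]
  rw [this]
  exact MeasurableSet.iUnion (fun n => (P.FM_dep hact hpar n).inter
    (P.FM_bet z hact hpar hcut n k))

end meas

end Plan

/-- the plan given by two covers -/
noncomputable def Cover.plan {S : TTree T X} [Finite T] (C : S.Cover)
    (e : Option T × Option T → ℕ) (he : Function.Injective e) : S.Plan where
  par := C.par' e
  cut := C.cut e
  cover := C.cut_cover
  symm := fun _ _ h => C.cut_symm h
  uniq := fun _ _ _ h h' => C.cut_unique he h h'
  par_cut := fun _ _ h => C.par'_not_cut h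
  par_not := fun _ _ h => C.par'_not h
  special := fun _ _ _ h1 h2 h3 h4 => C.special_unique he h1 h2 h3 h4
  fin := fun x => C.finite_chain x

/-! ### finiteness of the blocks -/

/-- points within distance 3 of `U` -/
def nbh (U : Set X) : Set X := {x | ∃ y ∈ U, S.Near 3 x y}

lemma near_finite [Finite T] (n : ℕ) (x : X) : {y | S.Near n x y}.Finite := by
  have h1 : {l : List T | l.length ≤ n}.Finite := List.finite_length_le T n
  refine (h1.image (fun l => S.run l x)).subset ?_
  rintro y ⟨l, hl, rfl⟩
  exact ⟨l, hl, rfl⟩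

lemma block_finite [Finite T] {U : Set X}
    (hcl : ∀ x ∈ U, {y | Relation.ReflTransGen (fun a b => b ∈ U ∧ S.Near 7 a b) x y}.Finite)
    (x : X) : (S.block (S.nbh U) x).Finite := by
  by_cases hx : x ∈ S.nbh U
  · obtain ⟨u0, hu0, hn0⟩ := hx
    have key : ∀ (l : List T) (x u0 : X), u0 ∈ U → S.Near 3 x u0 → S.path (S.nbh U) l x →
        ∃ u, Relation.ReflTransGen (fun a b => b ∈ U ∧ S.Near 7 a b) u0 u ∧
          S.Near 3 (S.run l x) u := by
      intro l
      induction l with
      | nil => intro x u0 _ h _; exact ⟨u0, Relation.ReflTransGen.refl, h⟩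
      | cons a l ih =>
        intro x u0 hu0 hn hp
        obtain ⟨u1, hu1, hn1⟩ := S.path_head hp.2
        obtain ⟨u, h1, h2⟩ := ih (S.act a x) u1 hu1 hn1 hp.2
        refine ⟨u, Relation.ReflTransGen.head ⟨hu1, ?_⟩ h1, h2⟩
        have h3 := S.near_trans (S.near_trans (S.near_symm hn) (S.near_act a x)) hn1
        exact h3
    refine ((hcl u0 hu0).biUnion (fun u _ => S.near_finite 3 u)).subset ?_
    rintro y ⟨l, hl, rfl⟩
    obtain ⟨u, h1, h2⟩ := key l x u0 hu0 hn0 hl
    simp only [Set.mem_iUnion]
    exact ⟨u, h1, S.near_symm h2⟩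
  · have : S.block (S.nbh U) x = ∅ := by
      ext y
      simp only [block, Set.mem_ofPred_eq, Set.mem_empty_iff_false, iff_false]
      rintro ⟨l, hl, -⟩
      exact hx (S.path_head hl)
    rw [this]
    exact Set.finite_empty

lemma far_nbh {U : Set X} {x z : X} (hx : x ∉ S.nbh Uᶜ) (hz : z ∉ S.nbh U) :
    ¬ S.Near 6 x z := by
  rintro ⟨l, hl, h⟩
  have h1 : S.run (l.take 3) x ∈ U := by
    by_contra hc
    exact hx ⟨_, hc, l.take 3, by simp, rfl⟩
  apply hz
  refine ⟨_, h1, S.near_symm ⟨l.drop 3, by simp; omega, ?_⟩⟩
  rw [← S.run_append, List.take_append_drop, h]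

/-- **The abstract theorem.** A Borel forest with `|T| ≥ 3` labelled ports at every vertex in which
some Borel set and its complement have finite clusters has a Borel edge colouring with `|T|`
colours. -/
theorem exists_colouring [Fintype T] (h3 : 3 ≤ Fintype.card T) [MeasurableSpace X]
    [StandardBorelSpace X] (hact : ∀ t, Measurable (S.act t)) (hF : S.Free) (U : Set X)
    (hU : MeasurableSet U)
    (hA : ∀ x ∈ U, {y | Relation.ReflTransGen (fun a b => b ∈ U ∧ S.Near 7 a b) x y}.Finite)
    (hB : ∀ x ∈ Uᶜ, {y | Relation.ReflTransGen (fun a b => b ∈ Uᶜ ∧ S.Near 7 a b) x y}.Finite) :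
    ∃ c : X → T → T, FM c ∧ (∀ x, Function.Injective (c x)) ∧
      ∀ x t, c (S.act t x) (S.inv t) = c x t := by
  classical
  have hιm := measurableEmbedding_embeddingReal X
  set ι := embeddingReal X with hι
  have fA := S.block_finite hA
  have fB := S.block_finite hB
  have hmeas : ∀ V : Set X, MeasurableSet V → MeasurableSet (S.nbh V) := by
    intro V hV
    have : S.nbh V = ⋃ l : List T, ({_x | l.length ≤ 3} ∩ (S.run l) ⁻¹' V) := by
      ext x
      simp only [nbh, Near, Set.mem_ofPred_eq, Set.mem_iUnion, Set.mem_inter_iff,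
        Set.mem_preimage]
      constructor
      · rintro ⟨y, hy, l, hl, rfl⟩
        exact ⟨l, hl, hy⟩
      · rintro ⟨l, hl, hy⟩
        exact ⟨_, hy, l, hl, rfl⟩
    rw [this]
    exact MeasurableSet.iUnion (fun l => (MeasurableSet.const _).inter
      (S.measurable_run hact l hV))
  let C : S.Cover :=
    { VA := S.nbh U
      VB := S.nbh Uᶜ
      pA := S.par ι (S.nbh U)
      pB := S.par ι (S.nbh Uᶜ)
      cov := fun x => by
        by_cases hx : x ∈ U
        · exact Or.inl ⟨x, hx, S.near_refl _ _⟩
        · exact Or.inr ⟨x, hx, S.near_refl _ _⟩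
      far := fun x z hx hz => S.far_nbh hx hz
      orA := fun x s hx hy => S.par_or hF hιm.injective fA hx hy
      ntA := fun x s hx h => S.par_not hF hιm.injective fA hx h
      meA := fun x s hx h => S.par_mem hF hιm.injective fA hx h
      orB := fun x s hx hy => S.par_or hF hιm.injective fB hx hy
      ntB := fun x s hx h => S.par_not hF hιm.injective fB hx h
      meB := fun x s hx h => S.par_mem hF hιm.injective fB hx h
      finA := fA
      finB := fB
      free := hF }
  obtain ⟨e, he⟩ : ∃ e : Option T × Option T → ℕ, Function.Injective e :=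
    ⟨Encodable.encode ∘ (Fintype.equivFin (Option T × Option T)),
      Encodable.encode_injective.comp (Equiv.injective _)⟩
  let P : S.Plan := C.plan e he
  have hne : Nonempty T := Fintype.card_pos_iff.1 (by omega)
  obtain ⟨z⟩ := hne
  have mA : MeasurableSet C.VA := hmeas U hU
  have mB : MeasurableSet C.VB := hmeas Uᶜ hU.compl
  have pA : FM C.pA := S.FM_par hact hF hιm.injective hιm.measurable mA
  have pB : FM C.pB := S.FM_par hact hF hιm.injective hιm.measurable mB
  refine ⟨P.col z, ?_, ?_, ?_⟩
  · exact P.FM_col z hact (C.FM_par' hact mA mB pA pB)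
      (fun s => C.measurableSet_cut hact mA mB pA pB s)
  · intro x
    exact (P.col_ok h3 z _ x rfl).1
  · intro x t
    exact P.col_edge h3 z x t

end TTree

end Pool.Agent.MP1822T
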